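import Pool.Agent.helper85.FC.CaseDefs
import Pool.Agent.helper39.MT.R1c

/-!
# The core for a fixed `c`: forms `(n + c h_i) / (h_i A_i)`
-/

namespace Pool.Agent.helper85.QC

open Finset Pool.Agent.helper39.MT Pool.Agent.helper85.FC

/-- `y` and `x` occur, up to factors `u, v ≤ K` with `m ∣ v`, and `c` up to a factor `t ≤ K` composed
of primes dividing `c`, in the true case `(u y, v x, c t)`. -/
def Link (c : ℤ) (m K x y : ℕ) : Prop :=
  ∃ u v t : ℕ, 0 < u ∧ u ≤ K ∧ 0 < v ∧ v ≤ K ∧ m ∣ v ∧ 0 < t ∧ t ≤ K ∧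
    (∀ p : ℕ, p.Prime → p ∣ t → (p : ℤ) ∣ c) ∧ TrueCase (u * y) (v * x) (c * t)

/-- the local conditions for the forms `(n + c h_i)/(h_i' A_i)`, `h_i'` the part of `h_i` prime
to `c`. -/
lemma core_local {k : ℕ} (h : Fin k → ℕ) (hh0 : ∀ i, 0 < h i) (hmono : StrictMono h)
    (hdvd : ∀ i j, i < j → (h j - h i) ∣ h i)
    (c : ℤ) (hc : c ≠ 0)
    (A : Fin k → ℕ) (hA0 : ∀ i, 0 < A i) (hAh : ∀ i l, Nat.Coprime (A i) (h l))
    (hAc : ∀ i, IsCoprime (A i : ℤ) c)
    (hAA : ∀ i j, i ≠ j → Nat.Coprime (A i) (A j)) (p : ℕ) (hp : p.Prime) :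
    ∃ n : ℤ, ∀ i, ((p ^ (cf c.natAbs (h i) * A i).factorization p : ℕ) : ℤ) ∣ n + c * h i ∧
      ¬ ((p ^ ((cf c.natAbs (h i) * A i).factorization p + 1) : ℕ) : ℤ) ∣ n + c * h i := by
  have hC : 0 < c.natAbs := Int.natAbs_pos.2 hc
  have hfac : ∀ i, (cf c.natAbs (h i) * A i).factorization p =
      (if p ∣ c.natAbs then 0 else (h i).factorization p) + (A i).factorization p := by
    intro i
    rw [Nat.factorization_mul (cf_pos (hh0 i)).ne' (hA0 i).ne', Finsupp.add_apply,
      cf_factorization hC (hh0 i) hp]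
  have hpZ : Prime (p : ℤ) := Nat.prime_iff_prime_int.1 hp
  by_cases hpc' : p ∣ c.natAbs
  · have hpc : (p : ℤ) ∣ c := Int.natCast_dvd.2 hpc'
    refine ⟨1, fun i => ?_⟩
    have hpA : ¬ p ∣ A i := by
      intro hd
      exact hpZ.not_isUnit ((hAc i).isUnit_of_dvd' (by exact_mod_cast hd) hpc)
    rw [hfac i, if_pos hpc', Nat.factorization_eq_zero_of_not_dvd hpA]
    refine ⟨by simp, fun hd => ?_⟩
    rw [zero_add, zero_add, pow_one] at hd
    have h1 : (p : ℤ) ∣ 1 := (Int.dvd_add_left (hpc.mul_right _)).1 hd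
    exact hpZ.not_isUnit (isUnit_of_dvd_one h1)
  have hpc : ¬ (p : ℤ) ∣ c := fun hd => hpc' (Int.natCast_dvd.1 hd)
  simp only [if_neg hpc'] at hfac
  by_cases hex : ∃ l, p ∣ A l
  · obtain ⟨l, hl⟩ := hex
    have hph' : ∀ i, ¬ p ∣ h i := by
      intro i hd
      have h1 := Nat.dvd_gcd hl hd
      rw [hAh l i] at h1
      exact hp.one_lt.ne' (Nat.dvd_one.1 h1)
    have hph : ∀ i, (h i).factorization p = 0 := fun i =>
      Nat.factorization_eq_zero_of_not_dvd (hph' i)
    refine ⟨-(c * h l) + ((p ^ (A l).factorization p : ℕ) : ℤ), fun i => ?_⟩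
    rw [hfac i, hph i, zero_add]
    have hv : 1 ≤ (A l).factorization p := (hp.dvd_iff_one_le_factorization (hA0 l).ne').1 hl
    by_cases hil : i = l
    · subst hil
      rw [show -(c * (h i : ℤ)) + ((p ^ (A i).factorization p : ℕ) : ℤ) + c * h i =
        ((p ^ (A i).factorization p : ℕ) : ℤ) by ring]
      refine ⟨dvd_rfl, fun hd => ?_⟩
      have h1 : p ^ ((A i).factorization p + 1) ∣ p ^ (A i).factorization p := by exact_mod_cast hd
      have h2 := (Nat.pow_dvd_pow_iff_le_right hp.one_lt).1 h1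
      omega
    · have hAi : ¬ p ∣ A i := by
        intro hd
        have h1 := Nat.dvd_gcd hd hl
        rw [hAA i l hil] at h1
        exact hp.one_lt.ne' (Nat.dvd_one.1 h1)
      rw [Nat.factorization_eq_zero_of_not_dvd hAi]
      refine ⟨by simp, fun hd => ?_⟩
      rw [zero_add, pow_one] at hd
      have h1 : (p : ℤ) ∣ ((p ^ (A l).factorization p : ℕ) : ℤ) := by
        exact_mod_cast dvd_pow_self p (by omega)
      have h2 : (p : ℤ) ∣ c * ((h i : ℤ) - h l) := by
        have h3 := dvd_sub hd h1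
        rwa [show -(c * (h l : ℤ)) + ((p ^ (A l).factorization p : ℕ) : ℤ) + c * h i -
          ((p ^ (A l).factorization p : ℕ) : ℤ) = c * ((h i : ℤ) - h l) by ring] at h3
      rcases hpZ.dvd_or_dvd h2 with h3 | h3
      · exact hpc h3
      · rcases lt_or_gt_of_ne hil with hlt | hlt
        · have h4 : p ∣ h l - h i := by
            have h5 : ((h l - h i : ℕ) : ℤ) = -((h i : ℤ) - h l) := by
              rw [Nat.cast_sub (hmono hlt).le]; ring
            have h6 : (p : ℤ) ∣ ((h l - h i : ℕ) : ℤ) := by rw [h5]; exact (dvd_neg.2 h3)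
            exact_mod_cast h6
          exact hph' i (h4.trans (hdvd i l hlt))
        · have h4 : p ∣ h i - h l := by
            have h5 : ((h i - h l : ℕ) : ℤ) = (h i : ℤ) - h l := by
              rw [Nat.cast_sub (hmono hlt).le]
            have h6 : (p : ℤ) ∣ ((h i - h l : ℕ) : ℤ) := by rw [h5]; exact h3
            exact_mod_cast h6
          exact hph' l (h4.trans (hdvd l i hlt))
  · push Not at hex
    refine ⟨0, fun i => ?_⟩
    have h0 : (A i).factorization p = 0 := Nat.factorization_eq_zero_of_not_dvd (hex i)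
    rw [hfac i, h0, add_zero, zero_add]
    constructor
    · exact dvd_mul_of_dvd_right (by exact_mod_cast Nat.ordProj_dvd (h i) p) c
    · intro hd
      have h1 : IsCoprime ((p ^ ((h i).factorization p + 1) : ℕ) : ℤ) c := by
        push_cast
        exact IsCoprime.pow_left ((Prime.coprime_iff_not_dvd hpZ).2 hpc)
      have h2 := h1.dvd_of_dvd_mul_left hd
      have h3 : p ^ ((h i).factorization p + 1) ∣ h i := by exact_mod_cast h2
      exact Nat.pow_succ_factorization_not_dvd (hh0 i).ne' hp h3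

/-- two values give a link. -/
lemma core_pair {c : ℤ} (hc : c ≠ 0) {m K h₁ h₂ A₁ A₂ : ℕ} (hlt : h₁ < h₂) (h₁0 : 0 < h₁)
    (hd₁ : h₂ - h₁ ∣ h₁) (hm : m ∣ h₁ / (h₂ - h₁)) (hmc : IsCoprime (m : ℤ) c) (hK₂ : h₂ ≤ K)
    (hA₁ : 0 < A₁) (hA₂ : 0 < A₂) (hA₁h : Nat.Coprime A₁ h₂) (hA₂h : Nat.Coprime A₂ h₁)
    (hAA : Nat.Coprime A₁ A₂)
    (hsol : InfSol (cf c.natAbs h₂ * A₂) (cf c.natAbs h₁ * A₁) (c * h₂ - c * h₁)) :
    Link c m K A₁ A₂ := by
  classical
  have hC : 0 < c.natAbs := Int.natAbs_pos.2 hc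
  set C := c.natAbs with hCdef
  obtain ⟨g, hg⟩ : ∃ g, g = h₂ - h₁ := ⟨_, rfl⟩
  rw [← hg] at hd₁ hm
  have hg0 : 0 < g := by omega
  obtain ⟨x, rfl⟩ := hd₁
  rw [Nat.mul_div_cancel_left _ hg0] at hm
  have hy : h₂ = g * (x + 1) := by rw [mul_add, mul_one]; omega
  subst hy
  have hx0 : 0 < x := Nat.pos_of_mul_pos_left h₁0
  have hx1 : 0 < x + 1 := Nat.succ_pos x
  have hsol' : InfSol (cf C (x + 1) * A₂) (cf C x * A₁) (c * cs C g) := by
    apply InfSol.cancel' (cf_pos (C := C) hg0)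
    have e1 : cf C g * (cf C (x + 1) * A₂) = cf C (g * (x + 1)) * A₂ := by
      rw [cf_mul hC hg0 hx1]; ring
    have e2 : cf C g * (cf C x * A₁) = cf C (g * x) * A₁ := by
      rw [cf_mul hC hg0 hx0]; ring
    have e3 : (cf C g : ℤ) * (c * cs C g) = c * ((g * (x + 1) : ℕ) : ℤ) - c * ((g * x : ℕ) : ℤ) := by
      have h1 : ((cf C g * cs C g : ℕ) : ℤ) = g := by rw [cf_mul_cs]
      push_cast at h1 ⊢
      linear_combination c * h1
    rw [e1, e2, e3]
    exact hsol
  have hcop : Nat.Coprime (cf C (x + 1) * A₂) (cf C x * A₁) := by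
    refine Nat.Coprime.mul_left (Nat.Coprime.mul_right ?_ ?_) (Nat.Coprime.mul_right ?_ ?_)
    · have h1 : Nat.Coprime (x + 1) x := by simp
      exact (h1.coprime_dvd_left (cf_dvd C (x + 1))).coprime_dvd_right (cf_dvd C x)
    · exact (hA₁h.symm.coprime_dvd_left ((cf_dvd C (x + 1)).trans (Dvd.intro_left g rfl)))
    · exact (hA₂h.coprime_dvd_right ((cf_dvd C x).trans (Dvd.intro_left g rfl)))
    · exact hAA.symm
  have ht0 : 0 < cs C g := cs_pos hg0
  have hct : c * (cs C g : ℤ) ≠ 0 := mul_ne_zero hc (by exact_mod_cast ht0.ne')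
  have ha0 := Nat.mul_pos (cf_pos (C := C) hx1) hA₂
  have hb0 := Nat.mul_pos (cf_pos (C := C) hx0) hA₁
  have hcond := InfSol.conditions ha0 hb0 hct hcop hsol'
  have hxK : x + 1 ≤ K := (Nat.le_mul_of_pos_left _ hg0).trans hK₂
  refine ⟨cf C (x + 1), cf C x, cs C g, cf_pos hx1, ?_, cf_pos hx0, ?_, ?_, ht0, ?_, ?_, ?_⟩
  · exact (Nat.le_of_dvd hx1 (cf_dvd C _)).trans hxK
  · exact (Nat.le_of_dvd hx0 (cf_dvd C _)).trans (by omega)
  · -- the divisor m
    have h1 : Nat.Coprime m (cs C x) := by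
      by_contra hcon
      obtain ⟨p, hp, h1, h2⟩ := Nat.Prime.not_coprime_iff_dvd.1 hcon
      have h3 := cs_prime hp h2
      have hpZ : Prime (p : ℤ) := Nat.prime_iff_prime_int.1 hp
      exact hpZ.not_isUnit (hmc.isUnit_of_dvd' (by exact_mod_cast h1) (Int.natCast_dvd.2 h3))
    refine h1.dvd_of_dvd_mul_right ?_
    rw [cf_mul_cs]
    exact hm
  · refine (Nat.le_of_dvd hg0 (cs_dvd C g)).trans ((Nat.le_mul_of_pos_right _ hx1).trans hK₂)
  · intro p hp hd
    exact Int.natCast_dvd.2 (cs_prime hp hd)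
  · refine ⟨ha0, hb0, hct, hcop, hcond.1, hcond.2.1, ?_, hsol'⟩
    rintro ⟨h1, h2, h3⟩
    exact hcond.2.2 ⟨by exact_mod_cast h1, by exact_mod_cast h2, h3⟩

/-- **The core for a fixed `c`.** -/
theorem link_core : ∃ k : ℕ, 2 ≤ k ∧ ∀ c : ℤ, c ≠ 0 → ∀ (m K : ℕ) (h : Fin k → ℕ), StrictMono h →
    (∀ i, 0 < h i) → (∀ i j, i < j → (h j - h i) ∣ h i ∧ m ∣ h i / (h j - h i)) →
    (∀ i, h i ≤ K) → IsCoprime (m : ℤ) c → ∀ A : Fin k → ℕ, (∀ i, 0 < A i) →
    (∀ i, IsCoprime (A i : ℤ) c) → (∀ i j, i ≠ j → Nat.Coprime (A i) (A j)) →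
    (∀ i l, Nat.Coprime (A i) (h l)) → ∃ i j, i < j ∧ Link c m K (A i) (A j) := by
  obtain ⟨k, hk, H⟩ := two_primes_general
  refine ⟨k, hk, fun c hc m K h hmono hpos hdvd hK hmc A hA hAc hAA hAh => ?_⟩
  have hC : 0 < c.natAbs := Int.natAbs_pos.2 hc
  obtain ⟨i, j, hij, hs⟩ := H (fun i => cf c.natAbs (h i) * A i) (fun i => c * (h i : ℤ))
    (fun i => Nat.mul_pos (cf_pos (hpos i)) (hA i)) (by
      intro i j hij
      have h1 : (h i : ℤ) = h j := mul_left_cancel₀ hc hij
      exact hmono.injective (by exact_mod_cast h1))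
    (fun p hp => core_local h hpos hmono (fun i j hij => (hdvd i j hij).1) c hc A hA hAh hAc hAA p hp)
  rcases lt_or_gt_of_ne hij with hlt | hlt
  · refine ⟨i, j, hlt, ?_⟩
    have h1 := hs.swap'
    rw [neg_sub] at h1
    exact core_pair hc (hmono hlt) (hpos i) (hdvd i j hlt).1 (hdvd i j hlt).2 hmc (hK j) (hA i) (hA j)
      (hAh i j) (hAh j i) (hAA i j hij) h1
  · refine ⟨j, i, hlt, ?_⟩
    exact core_pair hc (hmono hlt) (hpos j) (hdvd j i hlt).1 (hdvd j i hlt).2 hmc (hK i) (hA j) (hA i)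
      (hAh j i) (hAh i j) (hAA j i hij.symm) hs

/-- a set with `(h_j - h_i) ∣ h_i` and `m ∣ h_i / (h_j - h_i)`. -/
theorem hb_mod (k m : ℕ) (hm : 0 < m) : ∃ h : Fin k → ℕ, StrictMono h ∧ (∀ i, 0 < h i) ∧
    ∀ i j, i < j → (h j - h i) ∣ h i ∧ m ∣ h i / (h j - h i) := by
  induction k with
  | zero => exact ⟨fun i => i.elim0, fun i => i.elim0, fun i => i.elim0, fun i => i.elim0⟩
  | succ k ih =>
    obtain ⟨h, hmono, hpos, hdvd⟩ := ih
    set H : ℕ := m * ∏ i, h i with hH
    have hH1 : ∀ i, m * h i ∣ H := fun i =>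
      Nat.mul_dvd_mul_left m (Finset.dvd_prod_of_mem h (Finset.mem_univ i))
    have hHpos : 0 < H := Nat.mul_pos hm (Finset.prod_pos fun i _ => hpos i)
    refine ⟨Fin.cons H (fun i => H + h i), ?_, ?_, ?_⟩
    · intro i j hij
      induction i using Fin.cases with
      | zero =>
        induction j using Fin.cases with
        | zero => exact absurd hij (lt_irrefl _)
        | succ j =>
          simp only [Fin.cons_zero, Fin.cons_succ]
          have := hpos j
          omega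
      | succ i =>
        induction j using Fin.cases with
        | zero => exact absurd hij (by simp)
        | succ j =>
          simp only [Fin.cons_succ]
          have := hmono (Fin.succ_lt_succ_iff.mp hij)
          omega
    · intro i
      induction i using Fin.cases with
      | zero => simpa using hHpos
      | succ i => simp only [Fin.cons_succ]; omega
    · intro i j hij
      induction i using Fin.cases with
      | zero =>
        induction j using Fin.cases with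
        | zero => exact absurd hij (lt_irrefl _)
        | succ j =>
          simp only [Fin.cons_zero, Fin.cons_succ, Nat.add_sub_cancel_left]
          obtain ⟨d, hd⟩ := hH1 j
          refine ⟨⟨m * d, by rw [hd]; ring⟩, ?_⟩
          rw [hd, show m * h j * d = h j * (m * d) by ring, Nat.mul_div_cancel_left _ (hpos j)]
          exact Dvd.intro d rfl
      | succ i =>
        induction j using Fin.cases with
        | zero => exact absurd hij (by simp)
        | succ j =>
          simp only [Fin.cons_succ, Nat.add_sub_add_left]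
          obtain ⟨h1, h2⟩ := hdvd i j (Fin.succ_lt_succ_iff.mp hij)
          have hlt := hmono (Fin.succ_lt_succ_iff.mp hij)
          obtain ⟨g, hg⟩ : ∃ g, g = h j - h i := ⟨_, rfl⟩
          rw [← hg] at h1 h2 ⊢
          have hg0 : 0 < g := by omega
          obtain ⟨x, hx⟩ := h1
          obtain ⟨d, hd⟩ := hH1 i
          rw [hx, Nat.mul_div_cancel_left _ hg0] at h2
          have e : H + h i = g * (m * x * d + x) := by rw [hd, hx]; ring
          rw [e, Nat.mul_div_cancel_left _ hg0]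
          exact ⟨Dvd.intro _ rfl, (Dvd.intro _ (by ring : m * (x * d) = m * x * d)).add h2⟩

end Pool.Agent.helper85.QC
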