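import Pool.Agent.helper85.QC.Count

/-!
# Heath-Brown sets with few medium prime factors
-/

namespace Pool.Agent.helper85.QC

open Finset Real Pool.Agent.helper39.MT

/-- a residue class modulo `p`. -/
lemma class_count {D h p X : ℕ} (hp : p.Prime) (hpD : ¬ p ∣ D) :
    #{s ∈ Icc 1 X | p ∣ D * s + h} ≤ X / p + 1 := by
  rw [← card_range (X / p + 1)]
  refine card_le_card_of_injOn (fun s => s / p) ?_ ?_
  · intro s hs
    rw [mem_coe, mem_filter, mem_Icc] at hs
    rw [mem_coe, mem_range]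
    have := Nat.div_le_div_right (c := p) hs.1.2
    simp only
    omega
  · intro s hs s' hs' h0
    rw [mem_coe, mem_filter] at hs hs'
    simp only at h0
    have h1 : D * s + h ≡ D * s' + h [MOD p] :=
      (Nat.modEq_zero_iff_dvd.2 hs.2).trans (Nat.modEq_zero_iff_dvd.2 hs'.2).symm
    have h2 : D * s ≡ D * s' [MOD p] := Nat.ModEq.add_right_cancel' _ h1
    have h3 : s ≡ s' [MOD p] := by
      refine Nat.ModEq.cancel_left_of_coprime ?_ h2
      exact (Nat.Prime.coprime_iff_not_dvd hp).2 hpD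
    rw [← Nat.div_add_mod s p, ← Nat.div_add_mod s' p, h0, h3]

/-- the new element `D s`. -/
lemma new_element {r y : ℕ} (hy : 0 < y) (D : ℕ) (hD : 0 < D) (h : Fin r → ℕ) (hpos : ∀ i, 0 < h i) :
    ∃ s : ℕ, 0 < s ∧ sg y (D * s * ∏ i, (D * s + h i)) ≤ sg y (D * ∏ i, h i) + (r + 2) / y := by
  classical
  set H : ℕ := ∑ i, h i with hH
  have hhH : ∀ i, h i ≤ H := fun i => single_le_sum (f := h) (fun _ _ => Nat.zero_le _) (mem_univ i)
  obtain ⟨T, hT⟩ : ∃ T : ℕ, T = y * (r + 1) * (1 + 2 * (D + H)) := ⟨_, rfl⟩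
  have hT0 : 0 < T := by rw [hT]; positivity
  set X := T ^ 2 with hX
  have hX0 : 0 < X := by positivity
  set Z := D * X + H with hZ
  -- the indicator
  set bad : ℕ → ℕ → Prop := fun s p => p ∣ D * s + 0 ∨ ∃ i, p ∣ D * s + h i with hbad
  set PS := {p ∈ Ioc y Z | p.Prime ∧ ¬ p ∣ D} with hPS
  set F : ℕ → ℝ := fun s => ∑ p ∈ PS, (if bad s p then 1 / (p : ℝ) else 0) with hF
  have hsum : ∑ s ∈ Icc 1 X, F s ≤ (r + 1) * (X / y + (1 + Real.log Z)) := by
    rw [hF, sum_comm]
    have h1 : ∀ p ∈ PS, ∑ s ∈ Icc 1 X, (if bad s p then 1 / (p : ℝ) else 0) ≤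
        (r + 1) * (X * (1 / (p : ℝ) ^ 2) + 1 / p) := by
      intro p hp
      rw [hPS, mem_filter] at hp
      have hp0 : (0 : ℝ) < p := by exact_mod_cast hp.2.1.pos
      rw [← sum_filter, sum_const, nsmul_eq_mul]
      have h2 : #{s ∈ Icc 1 X | bad s p} ≤ (r + 1) * (X / p + 1) := by
        have h3 : {s ∈ Icc 1 X | bad s p} ⊆ {s ∈ Icc 1 X | p ∣ D * s + 0} ∪
            (univ : Finset (Fin r)).biUnion fun i => {s ∈ Icc 1 X | p ∣ D * s + h i} := by
          intro s hs
          rw [mem_filter] at hs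
          rw [mem_union, mem_filter, mem_biUnion]
          rcases hs.2 with h4 | ⟨i, h4⟩
          · exact Or.inl ⟨hs.1, h4⟩
          · exact Or.inr ⟨i, mem_univ _, mem_filter.2 ⟨hs.1, h4⟩⟩
        refine (card_le_card h3).trans ((card_union_le _ _).trans ?_)
        have h4 := class_count (h := 0) (X := X) hp.2.1 hp.2.2
        have h5 : #((univ : Finset (Fin r)).biUnion fun i => {s ∈ Icc 1 X | p ∣ D * s + h i}) ≤
            r * (X / p + 1) := by
          refine card_biUnion_le.trans ?_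
          refine (sum_le_card_nsmul _ _ _ fun i _ => class_count (h := h i) (X := X) hp.2.1 hp.2.2).trans ?_
          rw [card_univ, Fintype.card_fin, smul_eq_mul]
        calc _ ≤ (X / p + 1) + r * (X / p + 1) := Nat.add_le_add h4 h5
          _ = _ := by ring
      have h3 : (#{s ∈ Icc 1 X | bad s p} : ℝ) ≤ (r + 1) * ((X / p : ℕ) + 1) := by exact_mod_cast h2
      have h4 : ((X / p : ℕ) : ℝ) ≤ X / p := Nat.cast_div_le
      calc (#{s ∈ Icc 1 X | bad s p} : ℝ) * (1 / p) ≤ ((r + 1) * ((X / p : ℕ) + 1)) * (1 / p) := by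
            gcongr
        _ ≤ ((r + 1) * (X / p + 1)) * (1 / p) := by gcongr
        _ = _ := by field_simp
    refine (sum_le_sum h1).trans ?_
    rw [← mul_sum, sum_add_distrib, ← mul_sum]
    have h2 : ∑ p ∈ PS, 1 / (p : ℝ) ^ 2 ≤ 1 / (y : ℝ) :=
      le_trans (sum_le_sum_of_subset_of_nonneg (filter_subset _ _) fun p _ _ => by positivity)
        (sum_inv_sq_tail y Z hy)
    have h3 : ∑ p ∈ PS, 1 / (p : ℝ) ≤ 1 + Real.log Z := by
      refine le_trans (sum_le_sum_of_subset_of_nonneg ?_ fun p _ _ => by positivity) (sum_inv_le_log Z)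
      intro p hp
      rw [hPS, mem_filter, mem_Ioc] at hp
      exact mem_Icc.2 ⟨hp.2.1.pos, hp.1.2⟩
    calc (r + 1 : ℝ) * (X * ∑ p ∈ PS, 1 / (p : ℝ) ^ 2 + ∑ p ∈ PS, 1 / (p : ℝ))
        ≤ (r + 1) * (X * (1 / (y : ℝ)) + (1 + Real.log Z)) := by gcongr
      _ = _ := by ring
  -- the logarithm is small
  have hyr : (0 : ℝ) < y := by exact_mod_cast hy
  have hXr : (0 : ℝ) < X := by exact_mod_cast hX0
  have hTr : (1 : ℝ) ≤ T := by exact_mod_cast hT0
  have hlog : (r + 1 : ℝ) * (1 + Real.log Z) ≤ X / y := by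
    have hZX : (Z : ℝ) ≤ ((D + H) * T) ^ 2 := by
      rw [hZ, hX]
      push_cast
      have hDr : (1 : ℝ) ≤ D := by exact_mod_cast hD
      have hHr : (0 : ℝ) ≤ H := Nat.cast_nonneg _
      have h1 : (1 : ℝ) ≤ (T : ℝ) ^ 2 := one_le_pow₀ hTr
      have h2 : (D : ℝ) * T ^ 2 + H ≤ (D + H) * T ^ 2 := by nlinarith
      have h3 : (D + H : ℝ) * T ^ 2 ≤ ((D + H) * T) ^ 2 := by
        rw [mul_pow]
        have : (D + H : ℝ) ≤ (D + H) ^ 2 := by nlinarith
        gcongr
      exact h2.trans h3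
    have hZ0 : (0 : ℝ) < Z := by
      have : 0 < Z := by rw [hZ]; positivity
      exact_mod_cast this
    have hb0 : (0 : ℝ) < (D + H) * T := by
      have : (0 : ℝ) < D := by exact_mod_cast hD
      have : (0 : ℝ) ≤ H := Nat.cast_nonneg _
      positivity
    have h1 : Real.log Z ≤ 2 * ((D + H) * T) := by
      calc Real.log Z ≤ Real.log (((D + H) * T) ^ 2) := Real.log_le_log hZ0 hZX
        _ = 2 * Real.log ((D + H) * T) := by rw [Real.log_pow]; norm_num
        _ ≤ 2 * ((D + H) * T) := by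
            have := Real.log_le_sub_one_of_pos hb0
            linarith
    rw [le_div_iff₀ hyr]
    have hr0 : (0 : ℝ) ≤ r := Nat.cast_nonneg _
    calc (r + 1 : ℝ) * (1 + Real.log Z) * y ≤ (r + 1) * (1 + 2 * ((D + H) * T)) * y := by gcongr
      _ ≤ (r + 1) * (T + 2 * ((D + H) * T)) * y := by gcongr
      _ = (y * (r + 1) * (1 + 2 * (D + H))) * T := by ring
      _ = (X : ℝ) := by
          rw [hX]
          have : (T : ℝ) = y * (r + 1) * (1 + 2 * (D + H)) := by rw [hT]; push_cast; ring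
          rw [← this]
          push_cast
          ring
  -- a good `s`
  have hex : ∃ s ∈ Icc 1 X, F s ≤ (r + 2) / y := by
    refine exists_le_of_sum_le (f := F) (g := fun _ => ((r : ℝ) + 2) / y) ⟨1, mem_Icc.2 ⟨le_rfl, hX0⟩⟩ ?_
    rw [sum_const, Nat.card_Icc, Nat.add_sub_cancel, nsmul_eq_mul]
    refine hsum.trans ?_
    calc (r + 1 : ℝ) * (X / y + (1 + Real.log Z)) = (r + 1) * (X / y) + (r + 1) * (1 + Real.log Z) := by ring
      _ ≤ (r + 1) * (X / y) + X / y := by linarith
      _ = X * ((r + 2) / y) := by ring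
  obtain ⟨s, hs, hFs⟩ := hex
  rw [mem_Icc] at hs
  refine ⟨s, hs.1, ?_⟩
  refine le_trans ?_ (add_le_add_right hFs _)
  -- compare
  have hprod0 : D * ∏ i, h i ≠ 0 := (Nat.mul_pos hD (prod_pos fun i _ => hpos i)).ne'
  unfold sg
  have hsub : {p ∈ (D * s * ∏ i, (D * s + h i)).primeFactors | y < p} ⊆
      {p ∈ (D * ∏ i, h i).primeFactors | y < p} ∪ {p ∈ PS | bad s p} := by
    intro p hp
    rw [mem_filter, Nat.mem_primeFactors] at hp
    obtain ⟨⟨hpp, hpd, -⟩, hyp⟩ := hp
    rw [mem_union, mem_filter, mem_filter, Nat.mem_primeFactors]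
    by_cases hpD : p ∣ D
    · exact Or.inl ⟨⟨hpp, hpD.mul_right _, hprod0⟩, hyp⟩
    · right
      have hDs : D * s ≤ D * X := Nat.mul_le_mul_left _ hs.2
      have hb : bad s p ∧ p ≤ Z := by
        rcases (hpp.dvd_mul).1 hpd with h1 | h1
        · exact ⟨Or.inl (by rw [add_zero]; exact h1),
            (Nat.le_of_dvd (Nat.mul_pos hD hs.1) h1).trans (by rw [hZ]; omega)⟩
        · obtain ⟨i, -, hi⟩ := (Prime.dvd_finsetProd_iff hpp.prime _).1 h1
          refine ⟨Or.inr ⟨i, hi⟩, (Nat.le_of_dvd (by have := hpos i; omega) hi).trans ?_⟩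
          have := hhH i
          rw [hZ]
          omega
      exact ⟨by rw [hPS, mem_filter, mem_Ioc]; exact ⟨⟨hyp, hb.2⟩, hpp, hpD⟩, hb.1⟩
  refine (sum_le_sum_of_subset_of_nonneg hsub fun p _ _ => by positivity).trans ?_
  have h1 := sum_union_inter (s₁ := {p ∈ (D * ∏ i, h i).primeFactors | y < p})
    (s₂ := {p ∈ PS | bad s p}) (f := fun p : ℕ => 1 / (p : ℝ))
  have h2 : (0 : ℝ) ≤ ∑ p ∈ {p ∈ (D * ∏ i, h i).primeFactors | y < p} ∩ {p ∈ PS | bad s p},
      1 / (p : ℝ) := sum_nonneg fun p _ => by positivity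
  have h3 : F s = ∑ p ∈ PS with bad s p, 1 / (p : ℝ) := by
    rw [hF]
    simp only
    rw [← sum_filter]
  rw [h3]
  linarith

/-- **Heath-Brown sets with few medium prime factors.** -/
theorem hb_small (k : ℕ) {η : ℝ} (hη : 0 < η) : ∃ y₀ : ℕ, ∀ y ≥ y₀, ∀ m : ℕ, 0 < m →
    (∀ p : ℕ, p.Prime → p ∣ m → p ≤ y) → ∃ h : Fin k → ℕ, StrictMono h ∧ (∀ i, 0 < h i) ∧
    (∀ i j, i < j → (h j - h i) ∣ h i ∧ m ∣ h i / (h j - h i)) ∧ sg y (∏ i, h i) ≤ η := by
  obtain ⟨y₀, hy₀⟩ := exists_nat_gt ((k * (k + 2) : ℝ) / η)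
  refine ⟨y₀ + 1, fun y hy m hm hmy => ?_⟩
  have hy0 : 0 < y := by omega
  have hyr : (0 : ℝ) < y := by exact_mod_cast hy0
  suffices H : ∀ r : ℕ, r ≤ k → ∃ h : Fin r → ℕ, StrictMono h ∧ (∀ i, 0 < h i) ∧
      (∀ i j, i < j → (h j - h i) ∣ h i ∧ m ∣ h i / (h j - h i)) ∧
      sg y (∏ i, h i) ≤ r * ((k + 2) / y) by
    obtain ⟨h, h1, h2, h3, h4⟩ := H k le_rfl
    refine ⟨h, h1, h2, h3, h4.trans ?_⟩
    rw [mul_div_assoc', div_le_iff₀ hyr]
    rw [div_lt_iff₀ hη] at hy₀
    have : (y₀ : ℝ) ≤ y := by exact_mod_cast (by omega : y₀ ≤ y)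
    nlinarith
  intro r
  induction r with
  | zero =>
    intro _
    refine ⟨fun i => i.elim0, fun i => i.elim0, fun i => i.elim0, fun i => i.elim0, ?_⟩
    simp [sg]
  | succ r ih =>
    intro hr
    obtain ⟨h, hmono, hpos, hdvd, hsg⟩ := ih (by omega)
    set D : ℕ := m * ∏ i, h i with hD
    have hD1 : ∀ i, m * h i ∣ D := fun i =>
      Nat.mul_dvd_mul_left m (Finset.dvd_prod_of_mem h (Finset.mem_univ i))
    have hDpos : 0 < D := Nat.mul_pos hm (Finset.prod_pos fun i _ => hpos i)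
    obtain ⟨s, hs, hsgs⟩ := new_element hy0 D hDpos h hpos
    set H : ℕ := D * s with hH
    have hH1 : ∀ i, m * h i ∣ H := fun i => (hD1 i).mul_right s
    have hHpos : 0 < H := Nat.mul_pos hDpos hs
    refine ⟨Fin.cons H (fun i => H + h i), ?_, ?_, ?_, ?_⟩
    · intro i j hij
      induction i using Fin.cases with
      | zero =>
        induction j using Fin.cases with
        | zero => exact absurd hij (lt_irrefl _)
        | succ j =>
          simp only [Fin.cons_zero, Fin.cons_succ]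
          have := hpos j
          omega
      | succ i =>
        induction j using Fin.cases with
        | zero => exact absurd hij (by simp)
        | succ j =>
          simp only [Fin.cons_succ]
          have := hmono (Fin.succ_lt_succ_iff.mp hij)
          omega
    · intro i
      induction i using Fin.cases with
      | zero => simpa using hHpos
      | succ i => simp only [Fin.cons_succ]; omega
    · intro i j hij
      induction i using Fin.cases with
      | zero =>
        induction j using Fin.cases with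
        | zero => exact absurd hij (lt_irrefl _)
        | succ j =>
          simp only [Fin.cons_zero, Fin.cons_succ, Nat.add_sub_cancel_left]
          obtain ⟨d, hd⟩ := hH1 j
          refine ⟨⟨m * d, by rw [hd]; ring⟩, ?_⟩
          rw [hd, show m * h j * d = h j * (m * d) by ring, Nat.mul_div_cancel_left _ (hpos j)]
          exact Dvd.intro d rfl
      | succ i =>
        induction j using Fin.cases with
        | zero => exact absurd hij (by simp)
        | succ j =>
          simp only [Fin.cons_succ, Nat.add_sub_add_left]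
          obtain ⟨h1, h2⟩ := hdvd i j (Fin.succ_lt_succ_iff.mp hij)
          have hlt := hmono (Fin.succ_lt_succ_iff.mp hij)
          obtain ⟨g, hg⟩ : ∃ g, g = h j - h i := ⟨_, rfl⟩
          rw [← hg] at h1 h2 ⊢
          have hg0 : 0 < g := by omega
          obtain ⟨x, hx⟩ := h1
          obtain ⟨d, hd⟩ := hH1 i
          rw [hx, Nat.mul_div_cancel_left _ hg0] at h2
          have e : H + h i = g * (m * x * d + x) := by rw [hd, hx]; ring
          rw [e, Nat.mul_div_cancel_left _ hg0]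
          exact ⟨Dvd.intro _ rfl, (Dvd.intro _ (by ring : m * (x * d) = m * x * d)).add h2⟩
    · rw [Fin.prod_univ_succ]
      simp only [Fin.cons_zero, Fin.cons_succ]
      refine hsgs.trans ?_
      have h1 : sg y (D * ∏ i, h i) ≤ sg y (∏ i, h i) := by
        unfold sg
        refine sum_le_sum_of_subset_of_nonneg ?_ fun p _ _ => by positivity
        intro p hp
        rw [mem_filter, Nat.mem_primeFactors] at hp ⊢
        obtain ⟨⟨hpp, hpd, -⟩, hyp⟩ := hp
        refine ⟨⟨hpp, ?_, (prod_pos fun i _ => hpos i).ne'⟩, hyp⟩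
        rcases (hpp.dvd_mul).1 hpd with h2 | h2
        · rcases (hpp.dvd_mul).1 h2 with h3 | h3
          · have := hmy p hpp h3
            omega
          · exact h3
        · exact h2
      have h2 : ((r : ℝ) + 2) / y ≤ (k + 2) / y := by
        have : (r : ℝ) ≤ k := by exact_mod_cast (by omega : r ≤ k)
        gcongr
      push_cast
      linarith

end Pool.Agent.helper85.QC
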