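import Pool.Agent.helper85.QC.HB

/-!
# Values of several linear polynomials with few new prime factors
-/

namespace Pool.Agent.helper85.QC

open Finset Real Pool.Agent.helper39.MT

/-- `∑ 1 / p` over the prime factors `p > y` of `n` which do not divide `D`. -/
noncomputable def sgD (y D n : ℕ) : ℝ := ∑ p ∈ n.primeFactors with y < p ∧ ¬ p ∣ D, 1 / (p : ℝ)

lemma avg {r y : ℕ} (hy : 0 < y) {D : ℕ} (hD : 0 < D) (e : ℕ → ℕ) (he : ∀ i < r, 0 < e i) :
    ∃ s : ℕ, 0 < s ∧ sgD y D (∏ i ∈ range r, (D * s + e i)) ≤ (r + 1) / y := by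
  classical
  set H : ℕ := ∑ i ∈ range r, e i with hH
  have hhH : ∀ i < r, e i ≤ H := fun i hi =>
    single_le_sum (f := e) (fun _ _ => Nat.zero_le _) (mem_range.2 hi)
  obtain ⟨T, hT⟩ : ∃ T : ℕ, T = y * (r + 1) * (1 + 2 * (D + H)) := ⟨_, rfl⟩
  have hT0 : 0 < T := by rw [hT]; positivity
  set X := T ^ 2 with hX
  have hX0 : 0 < X := by positivity
  set Z := D * X + H with hZ
  set bad : ℕ → ℕ → Prop := fun s p => ∃ i < r, p ∣ D * s + e i with hbad
  set PS := {p ∈ Ioc y Z | p.Prime ∧ ¬ p ∣ D} with hPS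
  set F : ℕ → ℝ := fun s => ∑ p ∈ PS, (if bad s p then 1 / (p : ℝ) else 0) with hF
  have hsum : ∑ s ∈ Icc 1 X, F s ≤ r * (X / y + (1 + Real.log Z)) := by
    rw [hF, sum_comm]
    have h1 : ∀ p ∈ PS, ∑ s ∈ Icc 1 X, (if bad s p then 1 / (p : ℝ) else 0) ≤
        r * (X * (1 / (p : ℝ) ^ 2) + 1 / p) := by
      intro p hp
      rw [hPS, mem_filter] at hp
      have hp0 : (0 : ℝ) < p := by exact_mod_cast hp.2.1.pos
      rw [← sum_filter, sum_const, nsmul_eq_mul]
      have h2 : #{s ∈ Icc 1 X | bad s p} ≤ r * (X / p + 1) := by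
        have h3 : {s ∈ Icc 1 X | bad s p} ⊆
            (range r).biUnion fun i => {s ∈ Icc 1 X | p ∣ D * s + e i} := by
          intro s hs
          rw [mem_filter] at hs
          rw [mem_biUnion]
          obtain ⟨i, hi, h4⟩ := hs.2
          exact ⟨i, mem_range.2 hi, mem_filter.2 ⟨hs.1, h4⟩⟩
        refine (card_le_card h3).trans (card_biUnion_le.trans ?_)
        refine (sum_le_card_nsmul _ _ _ fun i _ => class_count (h := e i) (X := X) hp.2.1 hp.2.2).trans ?_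
        rw [card_range, smul_eq_mul]
      have h3 : (#{s ∈ Icc 1 X | bad s p} : ℝ) ≤ r * ((X / p : ℕ) + 1) := by exact_mod_cast h2
      have h4 : ((X / p : ℕ) : ℝ) ≤ X / p := Nat.cast_div_le
      calc (#{s ∈ Icc 1 X | bad s p} : ℝ) * (1 / p) ≤ (r * ((X / p : ℕ) + 1)) * (1 / p) := by
            gcongr
        _ ≤ (r * (X / p + 1)) * (1 / p) := by gcongr
        _ = _ := by field_simp
    refine (sum_le_sum h1).trans ?_
    rw [← mul_sum, sum_add_distrib, ← mul_sum]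
    have h2 : ∑ p ∈ PS, 1 / (p : ℝ) ^ 2 ≤ 1 / (y : ℝ) :=
      le_trans (sum_le_sum_of_subset_of_nonneg (filter_subset _ _) fun p _ _ => by positivity)
        (sum_inv_sq_tail y Z hy)
    have h3 : ∑ p ∈ PS, 1 / (p : ℝ) ≤ 1 + Real.log Z := by
      refine le_trans (sum_le_sum_of_subset_of_nonneg ?_ fun p _ _ => by positivity) (sum_inv_le_log Z)
      intro p hp
      rw [hPS, mem_filter, mem_Ioc] at hp
      exact mem_Icc.2 ⟨hp.2.1.pos, hp.1.2⟩
    calc (r : ℝ) * (X * ∑ p ∈ PS, 1 / (p : ℝ) ^ 2 + ∑ p ∈ PS, 1 / (p : ℝ))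
        ≤ r * (X * (1 / (y : ℝ)) + (1 + Real.log Z)) := by gcongr
      _ = _ := by ring
  have hyr : (0 : ℝ) < y := by exact_mod_cast hy
  have hXr : (0 : ℝ) < X := by exact_mod_cast hX0
  have hTr : (1 : ℝ) ≤ T := by exact_mod_cast hT0
  have hlog : (r + 1 : ℝ) * (1 + Real.log Z) ≤ X / y := by
    have hZX : (Z : ℝ) ≤ ((D + H) * T) ^ 2 := by
      rw [hZ, hX]
      push_cast
      have hDr : (1 : ℝ) ≤ D := by exact_mod_cast hD
      have hHr : (0 : ℝ) ≤ H := Nat.cast_nonneg _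
      have h1 : (1 : ℝ) ≤ (T : ℝ) ^ 2 := one_le_pow₀ hTr
      have h2 : (D : ℝ) * T ^ 2 + H ≤ (D + H) * T ^ 2 := by nlinarith
      have h3 : (D + H : ℝ) * T ^ 2 ≤ ((D + H) * T) ^ 2 := by
        rw [mul_pow]
        have : (D + H : ℝ) ≤ (D + H) ^ 2 := by nlinarith
        gcongr
      exact h2.trans h3
    have hZ0 : (0 : ℝ) < Z := by
      have : 0 < Z := by rw [hZ]; positivity
      exact_mod_cast this
    have hb0 : (0 : ℝ) < (D + H) * T := by
      have : (0 : ℝ) < D := by exact_mod_cast hD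
      have : (0 : ℝ) ≤ H := Nat.cast_nonneg _
      positivity
    have h1 : Real.log Z ≤ 2 * ((D + H) * T) := by
      calc Real.log Z ≤ Real.log (((D + H) * T) ^ 2) := Real.log_le_log hZ0 hZX
        _ = 2 * Real.log ((D + H) * T) := by rw [Real.log_pow]; norm_num
        _ ≤ 2 * ((D + H) * T) := by
            have := Real.log_le_sub_one_of_pos hb0
            linarith
    rw [le_div_iff₀ hyr]
    have hr0 : (0 : ℝ) ≤ r := Nat.cast_nonneg _
    calc (r + 1 : ℝ) * (1 + Real.log Z) * y ≤ (r + 1) * (1 + 2 * ((D + H) * T)) * y := by gcongr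
      _ ≤ (r + 1) * (T + 2 * ((D + H) * T)) * y := by gcongr
      _ = (y * (r + 1) * (1 + 2 * (D + H))) * T := by ring
      _ = (X : ℝ) := by
          rw [hX]
          have : (T : ℝ) = y * (r + 1) * (1 + 2 * (D + H)) := by rw [hT]; push_cast; ring
          rw [← this]
          push_cast
          ring
  have hlogZ : 0 ≤ 1 + Real.log Z := by
    have := Real.log_natCast_nonneg Z
    linarith
  -- a good `s`
  have hex : ∃ s ∈ Icc 1 X, F s ≤ (r + 1) / y := by
    refine exists_le_of_sum_le (f := F) (g := fun _ => ((r : ℝ) + 1) / y) ⟨1, mem_Icc.2 ⟨le_rfl, hX0⟩⟩ ?_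
    rw [sum_const, Nat.card_Icc, Nat.add_sub_cancel, nsmul_eq_mul]
    refine hsum.trans ?_
    calc (r : ℝ) * (X / y + (1 + Real.log Z)) = r * (X / y) + r * (1 + Real.log Z) := by ring
      _ ≤ r * (X / y) + (r + 1) * (1 + Real.log Z) := by gcongr; linarith
      _ ≤ r * (X / y) + X / y := by linarith
      _ = X * ((r + 1) / y) := by ring
  obtain ⟨s, hs, hFs⟩ := hex
  rw [mem_Icc] at hs
  refine ⟨s, hs.1, le_trans ?_ hFs⟩
  unfold sgD
  have h3 : F s = ∑ p ∈ PS with bad s p, 1 / (p : ℝ) := by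
    rw [hF]
    simp only
    rw [← sum_filter]
  rw [h3]
  refine sum_le_sum_of_subset_of_nonneg ?_ fun p _ _ => by positivity
  intro p hp
  rw [mem_filter, Nat.mem_primeFactors] at hp
  obtain ⟨⟨hpp, hpd, -⟩, hyp, hpD⟩ := hp
  rw [mem_filter]
  obtain ⟨i, hi, hpi⟩ := (Prime.dvd_finsetProd_iff hpp.prime _).1 hpd
  rw [mem_range] at hi
  have hDs : D * s ≤ D * X := Nat.mul_le_mul_left _ hs.2
  refine ⟨?_, i, hi, hpi⟩
  rw [hPS, mem_filter, mem_Ioc]
  refine ⟨⟨hyp, ?_⟩, hpp, hpD⟩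
  refine (Nat.le_of_dvd (by have := he i hi; omega) hpi).trans ?_
  have := hhH i hi
  rw [hZ]
  omega

lemma sg_mul_le (y : ℕ) {a b : ℕ} (ha : a ≠ 0) (hb : b ≠ 0) : sg y (a * b) ≤ sg y a + sg y b := by
  classical
  unfold sg
  rw [Nat.primeFactors_mul ha hb, filter_union]
  have h1 := sum_union_inter (s₁ := {p ∈ a.primeFactors | y < p}) (s₂ := {p ∈ b.primeFactors | y < p})
    (f := fun p : ℕ => 1 / (p : ℝ))
  have h2 : (0 : ℝ) ≤ ∑ p ∈ {p ∈ a.primeFactors | y < p} ∩ {p ∈ b.primeFactors | y < p},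
      1 / (p : ℝ) := sum_nonneg fun p _ => by positivity
  linarith

end Pool.Agent.helper85.QC
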