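import Pool.Agent.helper85.QC.Quot
import Pool.Agent.helper44.MT.CO2

/-!
# Consecutive coefficients: `(a + 1) p - a q = c`
-/

namespace Pool.Agent.helper85.QC

open Finset Pool.Agent.helper39.MT Pool.Agent.helper85.FC

/-- a large set of integers prime to `c` contains a good quotient. -/
theorem quot_of_large : ∃ k : ℕ, 2 ≤ k ∧ ∀ c : ℤ, c ≠ 0 → ∀ u : Fin k → ℕ,
    Function.Injective u → (∀ i, 0 < u i) → (∀ i, IsCoprime (u i : ℤ) c) →
    ∃ i j, i ≠ j ∧ SR c (u i) (u j) := by
  obtain ⟨kc, hkc, H⟩ := ratio_cluster_nat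
  refine ⟨5 * kc, by omega, fun c hc u huinj hupos huc => ?_⟩
  obtain ⟨i, j, hij, h⟩ := H c hc u huinj hupos huc
  exact ⟨i, j, fun h0 => hij (by rw [h0]), h⟩

/-- a class modulo `c` in which all the `L s + h i` are prime to `c`. -/
lemma exists_class {k : ℕ} (h : Fin k → ℕ) (L : ℕ) (c : ℤ) (hc : c ≠ 0)
    (hL : Nat.Coprime L c.natAbs) (hck : ∀ p : ℕ, p.Prime → (p : ℤ) ∣ c → k < p) :
    ∃ s₀ : ℕ, s₀ < c.natAbs ∧ ∀ t i, IsCoprime ((L * (s₀ + c.natAbs * t) + h i : ℕ) : ℤ) c := by
  classical
  have hC : 0 < c.natAbs := Int.natAbs_pos.2 hc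
  -- a class for every prime divisor
  have h1 : ∀ p ∈ c.natAbs.primeFactors, ∃ x : ℕ, ∀ i, ¬ p ∣ L * x + h i := by
    intro p hp
    have hpp := Nat.prime_of_mem_primeFactors hp
    have hpc : (p : ℤ) ∣ c := Int.natCast_dvd.2 (Nat.dvd_of_mem_primeFactors hp)
    have hpL : ¬ p ∣ L := by
      intro hd
      have h2 := Nat.dvd_gcd hd (Nat.dvd_of_mem_primeFactors hp)
      rw [hL] at h2
      exact hpp.one_lt.ne' (Nat.dvd_one.1 h2)
    by_contra hcon
    push Not at hcon
    choose f hf using hcon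
    have hle : (range p).card ≤ (univ : Finset (Fin k)).card := by
      refine card_le_card_of_injOn f (fun _ _ => mem_coe.2 (mem_univ _)) ?_
      intro x hx y hy hxy
      have h2 := hf x
      have h3 := hf y
      rw [← hxy] at h3
      have h4 : (L * x + h (f x)) ≡ (L * y + h (f x)) [MOD p] :=
        ((Nat.modEq_zero_iff_dvd.2 h2).trans (Nat.modEq_zero_iff_dvd.2 h3).symm)
      have h5 : L * x ≡ L * y [MOD p] := Nat.ModEq.add_right_cancel' _ h4
      have h6 : x ≡ y [MOD p] := by
        refine Nat.ModEq.cancel_left_of_coprime ?_ h5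
        rw [Nat.gcd_comm]
        exact (Nat.coprime_comm.1 ((Nat.Prime.coprime_iff_not_dvd hpp).2 hpL))
      have hx' : x < p := by simpa using hx
      have hy' : y < p := by simpa using hy
      exact Nat.ModEq.eq_of_lt_of_lt h6 hx' hy'
    rw [card_range, card_univ, Fintype.card_fin] at hle
    have := hck p hpp hpc
    omega
  choose! x hx using h1
  obtain ⟨s, hs⟩ := Nat.chineseRemainderOfFinset x (fun p => p) c.natAbs.primeFactors
    (fun p hp => (Nat.prime_of_mem_primeFactors hp).ne_zero) (fun p hp q hq hpq =>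
      (Nat.coprime_primes (Nat.prime_of_mem_primeFactors hp)
        (Nat.prime_of_mem_primeFactors hq)).2 hpq)
  refine ⟨s % c.natAbs, Nat.mod_lt _ hC, fun t i => ?_⟩
  rw [Int.isCoprime_iff_gcd_eq_one]
  by_contra hne
  obtain ⟨p, hp, hpd⟩ := Nat.exists_prime_and_dvd hne
  have h2 : (p : ℤ) ∣ ((L * (s % c.natAbs + c.natAbs * t) + h i : ℕ) : ℤ) :=
    (Int.natCast_dvd_natCast.mpr hpd).trans (Int.gcd_dvd_left _ _)
  have h3 : (p : ℤ) ∣ c := (Int.natCast_dvd_natCast.mpr hpd).trans (Int.gcd_dvd_right _ _)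
  have h4 : p ∣ L * (s % c.natAbs + c.natAbs * t) + h i := by exact_mod_cast h2
  have h5 : p ∣ c.natAbs := Int.natCast_dvd.1 h3
  have hpm : p ∈ c.natAbs.primeFactors := Nat.mem_primeFactors.2 ⟨hp, h5, hC.ne'⟩
  have h6 : s % c.natAbs + c.natAbs * t ≡ x p [MOD p] := by
    have e1 : s % c.natAbs ≡ s [MOD p] := (Nat.mod_modEq s c.natAbs).of_dvd h5
    have e2 : c.natAbs * t ≡ 0 [MOD p] := Nat.modEq_zero_iff_dvd.2 (h5.mul_right _)
    exact (e1.add e2).trans (hs p hpm)
  have h7 : L * (s % c.natAbs + c.natAbs * t) + h i ≡ L * x p + h i [MOD p] :=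
    (h6.mul_left L).add_right _
  exact hx p hpm i ((h7.dvd_iff dvd_rfl).1 h4)

open Classical in
/-- **Consecutive coefficients.** -/
theorem consecutive : ∃ K : ℕ, ∃ δ : ℝ, 0 < δ ∧ ∀ c : ℤ, c ≠ 0 →
    (∀ p : ℕ, p.Prime → (p : ℤ) ∣ c → K < p) → ∀ N : ℕ, K * c.natAbs ≤ N →
    δ * N / c.natAbs ≤ #{a ∈ Icc 1 N | InfSol (a + 1) a c} := by
  obtain ⟨k, hk, H⟩ := quot_of_large
  obtain ⟨h, hmono, hpos, hdvd⟩ := heath_brown_set k
  set L : ℕ := (∏ i, h i) * ∏ ij : Fin k × Fin k, (if h ij.1 < h ij.2 then h ij.2 - h ij.1 else 1)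
    with hLdef
  have hLpos : 0 < L := by
    refine Nat.mul_pos (prod_pos fun i _ => hpos i) (prod_pos fun ij _ => ?_)
    split_ifs <;> omega
  have hLd : ∀ i j, h i < h j → (h j - h i) ∣ L := by
    intro i j hij
    refine Dvd.dvd.mul_left ?_ _
    have := dvd_prod_of_mem (fun ij : Fin k × Fin k =>
      (if h ij.1 < h ij.2 then h ij.2 - h ij.1 else 1)) (mem_univ (i, j))
    simpa [hij] using this
  set Hm : ℕ := ∑ i, h i with hHm
  have hhH : ∀ i, h i ≤ Hm := fun i => single_le_sum (f := h) (fun _ _ => Nat.zero_le _) (mem_univ i)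
  -- the constants
  refine ⟨L + k + 4 * (L * 1 + L + Hm + 1), 1 / (4 * L * k ^ 2), by positivity,
    fun c hc hcK N hN => ?_⟩
  have hC : 0 < c.natAbs := Int.natAbs_pos.2 hc
  set C := c.natAbs with hCdef
  have hLC : Nat.Coprime L C := by
    by_contra hcon
    obtain ⟨p, hp, h1, h2⟩ := Nat.Prime.not_coprime_iff_dvd.1 hcon
    have h3 := hcK p hp (Int.natCast_dvd.2 h2)
    have h4 := Nat.le_of_dvd hLpos h1
    omega
  obtain ⟨s₀, hs₀, hcop⟩ := exists_class h L c hc hLC (fun p hp hd => by
    have := hcK p hp hd; omega)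
  -- for every `t` a pair
  have hex : ∀ t : ℕ, ∃ i j : Fin k, h i < h j ∧
      InfSol ((L * (s₀ + C * t) + h i) / (h j - h i) + 1) ((L * (s₀ + C * t) + h i) / (h j - h i)) c := by
    intro t
    set M := L * (s₀ + C * t) with hM
    obtain ⟨i, j, hij, hs⟩ := H c hc (fun i => M + h i)
      (fun i j he => hmono.injective (by simpa using he)) (fun i => by
        have := hpos i
        omega) (fun i => hcop t i)
    -- order the pair
    have key : ∀ i j : Fin k, h i < h j → SR c (M + h j) (M + h i) →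
        InfSol ((M + h i) / (h j - h i) + 1) ((M + h i) / (h j - h i)) c := by
      intro i j hlt hs
      obtain ⟨g, hg⟩ : ∃ g, g = h j - h i := ⟨_, rfl⟩
      have hg0 : 0 < g := by omega
      have hgM : g ∣ M := by
        rw [hg, hM]
        exact Dvd.dvd.mul_right (hLd i j hlt) _
      have hgi : g ∣ h i := by
        rw [hg]
        exact (hdvd i j (hmono.lt_iff_lt.1 hlt)).1
      obtain ⟨a, ha⟩ := dvd_add hgM hgi
      have hj : M + h j = g * (a + 1) := by
        rw [mul_add, ← ha, mul_one]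
        omega
      rw [← hg, ha, Nat.mul_div_cancel_left _ hg0]
      rw [ha, hj] at hs
      have h1 := hs.div hg0
      unfold SR at h1
      have e : c * (((a + 1 : ℕ) : ℤ) - (a : ℤ)) = c := by push_cast; ring
      rwa [e] at h1
    rcases lt_or_gt_of_ne (fun h0 => hij (hmono.injective h0) : h i ≠ h j) with hlt | hlt
    · exact ⟨i, j, hlt, key i j hlt hs.symm⟩
    · exact ⟨j, i, hlt, key j i hlt hs⟩
  choose ξ ζ hlt hsol using hex
  set f : ℕ → ℕ := fun t => (L * (s₀ + C * t) + h (ξ t)) / (h (ζ t) - h (ξ t)) with hf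
  set B := {a ∈ Icc 1 N | InfSol (a + 1) a c} with hB
  set T := N / (2 * L * C) with hT
  have hLC0 : 0 < 2 * L * C := by positivity
  have hTle : 2 * L * C * T ≤ N := Nat.mul_div_le N _
  have hmul : ∀ t, f t * (h (ζ t) - h (ξ t)) = L * (s₀ + C * t) + h (ξ t) := by
    intro t
    refine Nat.div_mul_cancel ?_
    refine dvd_add (Dvd.dvd.mul_right (hLd _ _ (hlt t)) _) ?_
    exact (hdvd _ _ (hmono.lt_iff_lt.1 (hlt t))).1
  have hcard : T + 1 ≤ k ^ 2 * #B := by
    have h0 : #(range (T + 1)) ≤ k ^ 2 * #B := by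
      refine le_trans (card_le_mul_card_image_of_maps_to (f := f) (t := B) ?_ (k ^ 2) ?_) le_rfl
      · intro t ht
        rw [mem_range] at ht
        rw [hB, mem_filter, mem_Icc]
        have h1 := hmul t
        have h2 := hpos (ξ t)
        have h3 := hlt t
        have hfpos : 0 < f t := by
          rcases Nat.eq_zero_or_pos (f t) with h4 | h4
          · rw [h4, zero_mul] at h1; omega
          · exact h4
        refine ⟨⟨hfpos, ?_⟩, hsol t⟩
        calc f t ≤ f t * (h (ζ t) - h (ξ t)) := Nat.le_mul_of_pos_right _ (by omega)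
          _ = L * (s₀ + C * t) + h (ξ t) := h1
          _ ≤ L * (C + C * T) + Hm := by
              have := hhH (ξ t)
              have h5 : C * t ≤ C * T := Nat.mul_le_mul_left _ (by omega)
              have h6 : L * (s₀ + C * t) ≤ L * (C + C * T) := Nat.mul_le_mul_left _ (by omega)
              omega
          _ ≤ N := by
              have h7 : 2 * (L * (C * T)) ≤ N := by
                calc 2 * (L * (C * T)) = 2 * L * C * T := by ring
                  _ ≤ N := hTle
              have h8 : 4 * (L * 1 + L + Hm + 1) * C ≤ N := le_trans (Nat.mul_le_mul_right _ (by omega)) hN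
              have h9 : 4 * (L * C) + 4 * (Hm * C) ≤ N := by
                refine le_trans ?_ h8
                nlinarith
              have h10 : Hm ≤ Hm * C := Nat.le_mul_of_pos_right _ hC
              have h11 : L * (C + C * T) = L * C + L * (C * T) := by ring
              omega
      · intro b hb
        have hsub : ∀ t ∈ {t ∈ range (T + 1) | f t = b}, (ξ t, ζ t) ∈
            (univ : Finset (Fin k × Fin k)) := fun _ _ => mem_univ _
        have := card_le_card_of_injOn (s := {t ∈ range (T + 1) | f t = b})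
          (t := (univ : Finset (Fin k × Fin k))) (fun t => (ξ t, ζ t)) (fun _ _ => mem_coe.2 (mem_univ _)) ?_
        · rw [card_univ, Fintype.card_prod, Fintype.card_fin, ← sq] at this
          exact this
        · intro t ht t' ht' he
          simp only [coe_filter, mem_range, Set.mem_ofPred_eq] at ht ht'
          simp only [Prod.mk.injEq] at he
          have h1 := hmul t
          have h2 := hmul t'
          rw [ht.2] at h1
          rw [ht'.2, ← he.1, ← he.2] at h2
          have h3 : L * (s₀ + C * t) = L * (s₀ + C * t') := by omega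
          have h4 := Nat.eq_of_mul_eq_mul_left hLpos h3
          have h5 : C * t = C * t' := by omega
          exact Nat.eq_of_mul_eq_mul_left hC h5
    rwa [card_range] at h0
  have h1 : (T : ℝ) + 1 ≤ k ^ 2 * #B := by exact_mod_cast hcard
  have h2 : (N : ℝ) < 2 * L * C * (T + 1) := by
    have := Nat.lt_mul_div_succ N hLC0
    exact_mod_cast this
  have hLr : (0 : ℝ) < L := by exact_mod_cast hLpos
  have hCr : (0 : ℝ) < C := by exact_mod_cast hC
  have hkr : (0 : ℝ) < k := by
    have : 0 < k := by omega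
    exact_mod_cast this
  rw [div_le_iff₀ hCr, div_mul_eq_mul_div, div_le_iff₀ (by positivity), one_mul]
  calc (N : ℝ) ≤ 2 * L * C * (T + 1) := h2.le
    _ ≤ 2 * L * C * (k ^ 2 * #B) := by gcongr
    _ ≤ #B * C * (4 * L * k ^ 2) := by
        have : 0 ≤ (#B : ℝ) * C * L * k ^ 2 := by positivity
        nlinarith

end Pool.Agent.helper85.QC
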