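import Pool.Agent.helper39.MT.CFree
import Pool.Agent.helper39.MT.Bad

/-!
# Counting integers with a prescribed smooth part
-/

namespace Pool.Agent.helper85.QC

open Finset Real Pool.Agent.helper39.MT

/-- The integers in `[1, X]` whose part composed of the primes dividing `P` is `m`. -/
def CC (P m X : ℕ) : Finset ℕ := {b ∈ Icc 1 X | cs P b = m}

/-- Their density. -/
noncomputable def dens (P m : ℕ) : ℝ := (Nat.totient P : ℝ) / (P * m)

lemma dens_pos {P m : ℕ} (hP : 0 < P) (hm : 0 < m) : 0 < dens P m := by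
  unfold dens
  have h1 : (0 : ℝ) < Nat.totient P := by exact_mod_cast Nat.totient_pos.2 hP
  have h2 : (0 : ℝ) < P := by exact_mod_cast hP
  have h3 : (0 : ℝ) < m := by exact_mod_cast hm
  positivity

lemma mem_CC {P m X b : ℕ} : b ∈ CC P m X ↔ (1 ≤ b ∧ b ≤ X) ∧ cs P b = m := by
  rw [CC, mem_filter, mem_Icc]

/-- a prime not dividing `P` does not change the `P`-part. -/
lemma cs_mul_coprime {P a b : ℕ} (hP : 0 < P) (ha : 0 < a) (hb : 0 < b) (h : Nat.Coprime a P) :
    cs P (a * b) = cs P b := by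
  refine Nat.eq_of_factorization_eq (cs_pos (Nat.mul_pos ha hb)).ne' (cs_pos hb).ne' fun p => ?_
  by_cases hp : p.Prime
  · rw [cs_factorization hP (Nat.mul_pos ha hb) hp, cs_factorization hP hb hp]
    split_ifs with hd
    · rw [Nat.factorization_mul ha.ne' hb.ne', Finsupp.add_apply,
        Nat.factorization_eq_zero_of_not_dvd, zero_add]
      intro h1
      have h2 := Nat.dvd_gcd h1 hd
      rw [h] at h2
      exact hp.one_lt.ne' (Nat.dvd_one.1 h2)
    · rfl
  · rw [Nat.factorization_eq_zero_of_not_prime _ hp, Nat.factorization_eq_zero_of_not_prime _ hp]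

lemma CC_upper {P m : ℕ} (hP : 0 < P) (hm : 0 < m) (X : ℕ) :
    (#(CC P m X) : ℝ) ≤ dens P m * X + Nat.totient P := by
  have h1 : #(CC P m X) ≤ #{x ∈ Ico 1 (1 + X / m) | P.Coprime x} := by
    refine card_le_card_of_injOn (cf P) ?_ ?_
    · intro b hb
      rw [mem_coe, mem_CC] at hb
      obtain ⟨⟨hb1, hb2⟩, hb3⟩ := hb
      rw [mem_coe, mem_filter, mem_Ico]
      have h2 := cf_mul_cs P b
      rw [hb3] at h2
      refine ⟨⟨cf_pos hb1, ?_⟩, (cf_coprime hP hb1).symm⟩
      have h3 : cf P b ≤ X / m := by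
        rw [Nat.le_div_iff_mul_le hm, h2]
        exact hb2
      omega
    · intro b hb b' hb' h
      rw [mem_coe, mem_CC] at hb hb'
      rw [← cf_mul_cs P b, ← cf_mul_cs P b', hb.2, hb'.2, h]
  have h2 := h1.trans (Nat.Ico_filter_coprime_le 1 (X / m) hP.ne')
  have h3 : (#(CC P m X) : ℝ) ≤ Nat.totient P * (((X / m / P : ℕ) : ℝ) + 1) := by exact_mod_cast h2
  refine h3.trans ?_
  have h4 : ((X / m / P : ℕ) : ℝ) ≤ (X : ℝ) / (m * P) := by
    rw [Nat.div_div_eq_div_mul]
    refine Nat.cast_div_le.trans ?_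
    push_cast
    exact le_rfl
  have h5 : (0 : ℝ) ≤ Nat.totient P := Nat.cast_nonneg _
  calc (Nat.totient P : ℝ) * (((X / m / P : ℕ) : ℝ) + 1)
      ≤ Nat.totient P * ((X : ℝ) / (m * P) + 1) := by gcongr
    _ = dens P m * X + Nat.totient P := by
        unfold dens
        rw [mul_comm (P : ℝ) m]
        ring

lemma CC_lower {P m : ℕ} (hP : 0 < P) (hm : 0 < m) (hmP : cs P m = m) (X : ℕ) :
    dens P m * X - Nat.totient P ≤ #(CC P m X) := by
  have h1 : #{y ∈ range (X / m) | Nat.Coprime (1 + 1 * y) P} ≤ #(CC P m X) := by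
    refine card_le_card_of_injOn (fun y => (1 + 1 * y) * m) ?_ ?_
    · intro y hy
      rw [mem_coe, mem_filter, mem_range] at hy
      rw [mem_coe, mem_CC]
      refine ⟨⟨Nat.mul_pos (by omega) hm, ?_⟩, ?_⟩
      · calc (1 + 1 * y) * m ≤ (X / m) * m := Nat.mul_le_mul_right _ (by omega)
          _ ≤ X := Nat.div_mul_le_self _ _
      · rw [cs_mul_coprime hP (by omega) hm hy.2, hmP]
    · intro y hy y' hy' h
      have := Nat.eq_of_mul_eq_mul_right hm h
      omega
  have h2 := (cop_lower hP (Nat.coprime_one_left P) 1 (X / m)).trans h1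
  have h3 : (((X / m / P : ℕ) : ℝ)) * Nat.totient P ≤ #(CC P m X) := by exact_mod_cast h2
  refine le_trans ?_ h3
  have h4 : (X : ℝ) / (m * P) - 1 ≤ ((X / m / P : ℕ) : ℝ) := by
    rw [Nat.div_div_eq_div_mul]
    have h5 : X < m * P * (X / (m * P) + 1) := Nat.lt_mul_div_succ X (Nat.mul_pos hm hP)
    have h6 : (X : ℝ) < m * P * (((X / (m * P) : ℕ) : ℝ) + 1) := by exact_mod_cast h5
    have h7 : (0 : ℝ) < m * P := by exact_mod_cast Nat.mul_pos hm hP
    rw [sub_le_iff_le_add, div_le_iff₀ h7]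
    linarith
  have h5 : (0 : ℝ) ≤ Nat.totient P := Nat.cast_nonneg _
  calc dens P m * X - Nat.totient P = ((X : ℝ) / (m * P) - 1) * Nat.totient P := by
        unfold dens
        rw [mul_comm (P : ℝ) m]
        ring
    _ ≤ _ := by gcongr

lemma dens_sum {P : ℕ} (hP : 0 < P) (M : Finset ℕ) (hM : ∀ m ∈ M, 0 < m ∧ cs P m = m) :
    ∑ m ∈ M, dens P m ≤ 1 := by
  classical
  by_contra hcon
  push Not at hcon
  set D := ∑ m ∈ M, dens P m with hD
  obtain ⟨X, hX⟩ := exists_nat_gt ((#M * Nat.totient P : ℝ) / (D - 1))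
  have h1 : ∑ m ∈ M, (dens P m * X - Nat.totient P) ≤ X := by
    calc ∑ m ∈ M, (dens P m * X - Nat.totient P) ≤ ∑ m ∈ M, (#(CC P m X) : ℝ) :=
          sum_le_sum fun m hm => CC_lower hP (hM m hm).1 (hM m hm).2 X
      _ = (#(M.biUnion fun m => CC P m X) : ℝ) := by
          rw [card_biUnion]
          · push_cast; rfl
          · intro m _ m' _ hmm
            rw [Function.onFun, disjoint_left]
            intro b hb hb'
            rw [mem_CC] at hb hb'
            exact hmm (hb.2.symm.trans hb'.2)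
      _ ≤ (#(Icc 1 X) : ℝ) := by
          have : M.biUnion (fun m => CC P m X) ⊆ Icc 1 X := by
            intro b hb
            rw [mem_biUnion] at hb
            obtain ⟨m, -, hb⟩ := hb
            rw [mem_CC] at hb
            exact mem_Icc.2 hb.1
          exact_mod_cast card_le_card this
      _ = X := by simp
  rw [sum_sub_distrib, ← sum_mul, sum_const, nsmul_eq_mul, ← hD] at h1
  rw [div_lt_iff₀ (by linarith)] at hX
  nlinarith

/-- multiples of a prime not dividing `P`. -/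
lemma CC_mult {P m N l : ℕ} (hP : 0 < P) (hl : l.Prime) (hlP : ¬ l ∣ P) :
    #{b ∈ CC P m N | l ∣ b} ≤ #(CC P m (N / l)) := by
  refine card_le_card_of_injOn (fun b => b / l) ?_ ?_
  · intro b hb
    rw [mem_coe, mem_filter, mem_CC] at hb
    obtain ⟨⟨⟨hb1, hb2⟩, hb3⟩, ⟨d, rfl⟩⟩ := hb
    have hd : 0 < d := Nat.pos_of_ne_zero (by rintro rfl; simp at hb1)
    rw [mem_coe, mem_CC]
    simp only [Nat.mul_div_cancel_left _ hl.pos]
    refine ⟨⟨hd, ?_⟩, ?_⟩
    · rw [Nat.le_div_iff_mul_le hl.pos, mul_comm]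
      exact hb2
    · rw [cs_mul_coprime hP hl.pos hd ((Nat.Prime.coprime_iff_not_dvd hl).2 hlP)] at hb3
      exact hb3
  · intro b hb b' hb' h
    rw [mem_coe, mem_filter] at hb hb'
    simp only at h
    rw [← Nat.mul_div_cancel' hb.2, ← Nat.mul_div_cancel' hb'.2, h]

/-- integers with a large smooth part are rare. -/
lemma smooth_tail (y : ℕ) {ε : ℝ} (hε : 0 < ε) : ∃ M : ℕ, ∀ N : ℕ,
    (#{b ∈ Icc 1 N | M < cs y.factorial b} : ℝ) ≤ ε * N := by
  classical
  obtain ⟨L, hL⟩ := exists_nat_gt ((y + 1 : ℝ) / ε)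
  have hL0 : 0 < L := by
    rcases Nat.eq_zero_or_pos L with h | h
    · rw [h] at hL
      have : (0 : ℝ) ≤ (y + 1 : ℝ) / ε := by positivity
      push_cast at hL
      linarith
    · exact h
  refine ⟨L ^ y, fun N => ?_⟩
  set P := y.factorial with hP
  have hP0 : 0 < P := Nat.factorial_pos y
  -- a large prime power
  have hsub : {b ∈ Icc 1 N | L ^ y < cs P b} ⊆ (range (y + 1)).biUnion fun p =>
      {b ∈ Icc 1 N | ∃ q, L < q ∧ (∀ q' : ℕ, q' = q → q' ∣ b) ∧ p.Prime ∧ ∃ e, q = p ^ e} := by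
    intro b hb
    rw [mem_filter, mem_Icc] at hb
    obtain ⟨⟨hb1, hb2⟩, hb3⟩ := hb
    by_contra hcon
    rw [mem_biUnion] at hcon
    push Not at hcon
    have h1 : ∀ p ∈ (cs P b).primeFactors, p ^ (cs P b).factorization p ≤ L := by
      intro p hp
      have hpp := Nat.prime_of_mem_primeFactors hp
      have hpd := Nat.dvd_of_mem_primeFactors hp
      have hpy : p ≤ y := (hpp.dvd_factorial).1 (cs_prime hpp hpd)
      by_contra hgt
      push Not at hgt
      refine hcon p (mem_range.2 (by omega)) ?_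
      rw [mem_filter, mem_Icc]
      exact ⟨⟨hb1, hb2⟩, p ^ (cs P b).factorization p, hgt, fun q' hq' => hq' ▸
        (Nat.ordProj_dvd _ _).trans (cs_dvd P b), hpp, _, rfl⟩
    have h2 : cs P b ≤ L ^ y := by
      have h3 : cs P b = ∏ p ∈ (cs P b).primeFactors, p ^ (cs P b).factorization p := by
        conv_lhs => rw [← Nat.prod_factorization_pow_eq_self (cs_pos (C := P) hb1).ne']
        rw [Nat.prod_factorization_eq_prod_primeFactors]
      rw [h3]
      calc ∏ p ∈ (cs P b).primeFactors, p ^ (cs P b).factorization p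
          ≤ ∏ p ∈ (cs P b).primeFactors, L := prod_le_prod' h1
        _ = L ^ #(cs P b).primeFactors := prod_const _
        _ ≤ L ^ y := by
            refine Nat.pow_le_pow_right hL0 ?_
            have h4 : (cs P b).primeFactors ⊆ Icc 1 y := by
              intro p hp
              have hpp := Nat.prime_of_mem_primeFactors hp
              have hpd := Nat.dvd_of_mem_primeFactors hp
              exact mem_Icc.2 ⟨hpp.pos, (hpp.dvd_factorial).1 (cs_prime hpp hpd)⟩
            simpa using card_le_card h4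
    omega
  have hone : ∀ p ∈ range (y + 1),
      (#{b ∈ Icc 1 N | ∃ q, L < q ∧ (∀ q' : ℕ, q' = q → q' ∣ b) ∧ p.Prime ∧ ∃ e, q = p ^ e} : ℝ) ≤
        (N : ℝ) / L := by
    intro p _
    by_cases hp : p.Prime
    · -- the least power exceeding `L`
      have hex : ∃ e, L < p ^ e := ⟨L, Nat.lt_pow_self hp.one_lt⟩
      set e₀ := Nat.find hex with he₀
      have he₀' : L < p ^ e₀ := Nat.find_spec hex
      have h1 : {b ∈ Icc 1 N | ∃ q, L < q ∧ (∀ q' : ℕ, q' = q → q' ∣ b) ∧ p.Prime ∧ ∃ e, q = p ^ e} ⊆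
          {b ∈ Ioc 0 N | p ^ e₀ ∣ b} := by
        intro b hb
        rw [mem_filter, mem_Icc] at hb
        obtain ⟨⟨hb1, hb2⟩, q, hq, hqb, -, e, rfl⟩ := hb
        rw [mem_filter, mem_Ioc]
        refine ⟨⟨by omega, hb2⟩, ?_⟩
        exact (pow_dvd_pow p (Nat.find_min' hex hq)).trans (hqb _ rfl)
      have h2 := card_le_card h1
      rw [Nat.Ioc_filter_dvd_card_eq_div] at h2
      have h3 : (#{b ∈ Icc 1 N | ∃ q, L < q ∧ (∀ q' : ℕ, q' = q → q' ∣ b) ∧ p.Prime ∧ ∃ e, q = p ^ e} : ℝ)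
          ≤ ((N / p ^ e₀ : ℕ) : ℝ) := by exact_mod_cast h2
      refine h3.trans (Nat.cast_div_le.trans ?_)
      have h4 : (L : ℝ) ≤ ((p ^ e₀ : ℕ) : ℝ) := by exact_mod_cast he₀'.le
      have h5 : (0 : ℝ) < L := by exact_mod_cast hL0
      gcongr
    · have : {b ∈ Icc 1 N | ∃ q, L < q ∧ (∀ q' : ℕ, q' = q → q' ∣ b) ∧ p.Prime ∧ ∃ e, q = p ^ e} = ∅ := by
        rw [filter_eq_empty_iff]
        rintro b - ⟨q, -, -, h, -⟩
        exact hp h
      rw [this, card_empty, Nat.cast_zero]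
      positivity
  have h1 : (#{b ∈ Icc 1 N | L ^ y < cs P b} : ℝ) ≤ ∑ p ∈ range (y + 1), (N : ℝ) / L := by
    have h2 := (card_le_card hsub).trans card_biUnion_le
    have h3 : (#{b ∈ Icc 1 N | L ^ y < cs P b} : ℝ) ≤ ∑ p ∈ range (y + 1),
        (#{b ∈ Icc 1 N | ∃ q, L < q ∧ (∀ q' : ℕ, q' = q → q' ∣ b) ∧ p.Prime ∧ ∃ e, q = p ^ e} : ℝ) := by
      exact_mod_cast h2
    exact h3.trans (sum_le_sum hone)
  refine h1.trans ?_
  rw [sum_const, card_range, nsmul_eq_mul]
  have hLr : (0 : ℝ) < L := by exact_mod_cast hL0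
  have h2 : (y + 1 : ℝ) ≤ ε * L := by
    rw [div_lt_iff₀ hε] at hL
    linarith
  rw [mul_div_assoc', div_le_iff₀ hLr]
  push_cast
  have : (0 : ℝ) ≤ N := Nat.cast_nonneg _
  nlinarith

/-- `∑ 1 / p` over the prime factors `p > y` of `b`. -/
noncomputable def sg (y b : ℕ) : ℝ := ∑ p ∈ b.primeFactors with y < p, 1 / (p : ℝ)

lemma sum_inv_le_log (N : ℕ) : ∑ p ∈ Icc 1 N, 1 / (p : ℝ) ≤ 1 + Real.log N := by
  have h := harmonic_le_one_add_log N
  have e : ((harmonic N : ℚ) : ℝ) = ∑ p ∈ Icc 1 N, 1 / (p : ℝ) := by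
    rw [harmonic_eq_sum_Icc]
    push_cast
    simp [one_div]
  rw [← e]
  exact h

/-- integers with a large value of `sg` are rare. -/
lemma sg_rare {y m : ℕ} (hy : 0 < y) (hm : 0 < m) {η : ℝ} (hη : 0 < η) (N : ℕ) :
    (#{b ∈ CC y.factorial m N | η < sg y b} : ℝ) * η ≤
      dens y.factorial m * N / y + Nat.totient y.factorial * (1 + Real.log N) := by
  classical
  set P := y.factorial with hP
  have hP0 : 0 < P := Nat.factorial_pos y
  have hd0 := dens_pos hP0 hm
  have h1 : (#{b ∈ CC P m N | η < sg y b} : ℝ) * η ≤ ∑ b ∈ CC P m N, sg y b := by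
    calc (#{b ∈ CC P m N | η < sg y b} : ℝ) * η = ∑ b ∈ CC P m N with η < sg y b, η := by
          rw [sum_const, nsmul_eq_mul]
      _ ≤ ∑ b ∈ CC P m N with η < sg y b, sg y b := by
          refine sum_le_sum fun b hb => ?_
          exact (mem_filter.1 hb).2.le
      _ ≤ ∑ b ∈ CC P m N, sg y b := by
          refine sum_le_sum_of_subset_of_nonneg (filter_subset _ _) fun b _ _ => ?_
          exact sum_nonneg fun p _ => by positivity
  refine h1.trans ?_
  -- exchange the sums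
  have h2 : ∑ b ∈ CC P m N, sg y b ≤ ∑ p ∈ Ioc y N with p.Prime,
      (1 / (p : ℝ)) * #{b ∈ CC P m N | p ∣ b} := by
    have h3 : ∀ b ∈ CC P m N, sg y b ≤ ∑ p ∈ Ioc y N with p.Prime, (if p ∣ b then 1 / (p : ℝ) else 0) := by
      intro b hb
      rw [mem_CC] at hb
      rw [← sum_filter, sg]
      refine sum_le_sum_of_subset_of_nonneg ?_ fun p _ _ => by positivity
      intro p hp
      rw [mem_filter, Nat.mem_primeFactors] at hp
      rw [mem_filter, mem_filter, mem_Ioc]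
      refine ⟨⟨⟨hp.2, ?_⟩, hp.1.1⟩, hp.1.2.1⟩
      exact (Nat.le_of_dvd hb.1.1 hp.1.2.1).trans hb.1.2
    refine (sum_le_sum h3).trans ?_
    rw [sum_comm]
    refine sum_le_sum fun p _ => ?_
    rw [← sum_filter, sum_const, nsmul_eq_mul, mul_comm]
  refine h2.trans ?_
  have h3 : ∀ p ∈ {p ∈ Ioc y N | p.Prime}, (1 / (p : ℝ)) * #{b ∈ CC P m N | p ∣ b} ≤
      dens P m * N * (1 / (p : ℝ) ^ 2) + Nat.totient P * (1 / (p : ℝ)) := by
    intro p hp
    rw [mem_filter, mem_Ioc] at hp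
    have hpP : ¬ p ∣ P := fun h => by
      have := (hp.2.dvd_factorial).1 h
      omega
    have h4 := (CC_mult (m := m) (N := N) hP0 hp.2 hpP)
    have h5 : (#{b ∈ CC P m N | p ∣ b} : ℝ) ≤ #(CC P m (N / p)) := by exact_mod_cast h4
    have h6 := h5.trans (CC_upper hP0 hm (N / p))
    have hp0 : (0 : ℝ) < p := by exact_mod_cast hp.2.pos
    have h7 : ((N / p : ℕ) : ℝ) ≤ N / p := Nat.cast_div_le
    have h8 : (#{b ∈ CC P m N | p ∣ b} : ℝ) ≤ dens P m * (N / p) + Nat.totient P := by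
      refine h6.trans ?_
      gcongr
    calc (1 / (p : ℝ)) * #{b ∈ CC P m N | p ∣ b} ≤ (1 / (p : ℝ)) * (dens P m * (N / p) + Nat.totient P) := by
          gcongr
      _ = _ := by
          field_simp
  refine (sum_le_sum h3).trans ?_
  rw [sum_add_distrib, ← mul_sum, ← mul_sum]
  have h4 : ∑ p ∈ Ioc y N with p.Prime, 1 / (p : ℝ) ^ 2 ≤ 1 / (y : ℝ) := by
    refine le_trans (sum_le_sum_of_subset_of_nonneg (filter_subset _ _) fun p _ _ => by positivity)
      (sum_inv_sq_tail y N hy)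
  have h5 : ∑ p ∈ Ioc y N with p.Prime, 1 / (p : ℝ) ≤ 1 + Real.log N := by
    refine le_trans (sum_le_sum_of_subset_of_nonneg ?_ fun p _ _ => by positivity) (sum_inv_le_log N)
    intro p hp
    rw [mem_filter, mem_Ioc] at hp
    exact mem_Icc.2 ⟨hp.2.pos, hp.1.2⟩
  have h6 : (0 : ℝ) ≤ Nat.totient P := Nat.cast_nonneg _
  calc dens P m * N * ∑ p ∈ Ioc y N with p.Prime, 1 / (p : ℝ) ^ 2 +
        Nat.totient P * ∑ p ∈ Ioc y N with p.Prime, 1 / (p : ℝ)
      ≤ dens P m * N * (1 / (y : ℝ)) + Nat.totient P * (1 + Real.log N) := by gcongr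
    _ = _ := by ring

end Pool.Agent.helper85.QC
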