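import Pool.Agent.helper85.QC.Select

/-!
# Linked elements in dense sets
-/

namespace Pool.Agent.helper85.QC

open Finset Real Pool.Agent.helper39.MT Pool.Agent.helper85.FC

lemma log_small (A B : ℝ) {τ : ℝ} (hτ : 0 < τ) : ∃ N₀ : ℕ, ∀ N : ℕ, N₀ ≤ N →
    A + B * Real.log N ≤ τ * N := by
  have h1 : ∀ᶠ x : ℝ in Filter.atTop, A + B * Real.log x ≤ τ * x := by
    have h2 := (Real.isLittleO_log_id_atTop).def (c := τ / (2 * (|B| + 1))) (by positivity)
    have h3 := Filter.eventually_ge_atTop (max 1 (2 * |A| / τ))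
    filter_upwards [h2, h3] with x hx hx2
    have hx0 : 1 ≤ x := le_trans (le_max_left _ _) hx2
    have hx1 : 2 * |A| / τ ≤ x := le_trans (le_max_right _ _) hx2
    rw [div_le_iff₀ hτ] at hx1
    rw [Real.norm_eq_abs, Real.norm_eq_abs, id, abs_of_nonneg (Real.log_nonneg hx0),
      abs_of_nonneg (show (0 : ℝ) ≤ x by linarith)] at hx
    have hB : B * Real.log x ≤ |B| * (τ / (2 * (|B| + 1)) * x) := by
      calc B * Real.log x ≤ |B| * Real.log x := by
            have := Real.log_nonneg hx0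
            have := le_abs_self B
            gcongr
        _ ≤ _ := by gcongr
    have hB2 : |B| * (τ / (2 * (|B| + 1)) * x) ≤ τ / 2 * x := by
      have : |B| * (τ / (2 * (|B| + 1)) * x) = (|B| / (|B| + 1)) * (τ / 2 * x) := by
        field_simp
      rw [this]
      have h5 : |B| / (|B| + 1) ≤ 1 := by
        rw [div_le_one (by positivity)]
        linarith
      have h6 : 0 ≤ τ / 2 * x := by positivity
      nlinarith
    have := le_abs_self A
    linarith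
  obtain ⟨x₀, hx₀⟩ := Filter.eventually_atTop.1 h1
  refine ⟨⌈x₀⌉₊, fun N hN => hx₀ N ?_⟩
  exact (Nat.le_ceil x₀).trans (by exact_mod_cast hN)

lemma cs_idem {P b : ℕ} (hP : 0 < P) (hb : 0 < b) : cs P (cs P b) = cs P b := by
  refine Nat.eq_of_factorization_eq (cs_pos (cs_pos hb)).ne' (cs_pos hb).ne' fun p => ?_
  by_cases hp : p.Prime
  · rw [cs_factorization hP (cs_pos hb) hp, cs_factorization hP hb hp]
    split_ifs <;> rfl
  · rw [Nat.factorization_eq_zero_of_not_prime _ hp, Nat.factorization_eq_zero_of_not_prime _ hp]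

/-- the loss is small. -/
lemma loss_small {k y : ℕ} (hk : 0 < k) (hy : 0 < y) {ε : ℝ} (hε : 0 < ε)
    (hyε : 16 / (ε * (ε / (16 * k))) ≤ y) {m P D : ℕ} (hm : 0 < m) (hP : 0 < P)
    (hD : sg y D ≤ ε / 16) : ∃ N₀ : ℕ, ∀ N : ℕ, N₀ ≤ N → 0 < N →
    loss k y m P D (ε / (16 * k)) (ε / (16 * k)) N < ε / 2 * (dens P m * N) := by
  have hd := dens_pos hP hm
  set η : ℝ := ε / (16 * k) with hη
  have hkr : (0 : ℝ) < k := by exact_mod_cast hk
  have hyr : (0 : ℝ) < y := by exact_mod_cast hy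
  have hη0 : 0 < η := by rw [hη]; positivity
  obtain ⟨N₀, hN₀⟩ := log_small (Nat.totient P * (2 * Real.log D) + Nat.totient P / η)
    (Nat.totient P / η + 2 * k * Nat.totient P) (τ := ε / 16 * dens P m) (by positivity)
  refine ⟨N₀, fun N hN hN0 => ?_⟩
  have h1 := hN₀ N hN
  have hNr : (0 : ℝ) < N := by exact_mod_cast hN0
  have hkη : k * η = ε / 16 := by rw [hη]; field_simp
  have h2 : dens P m * N * sg y D ≤ dens P m * N * (ε / 16) := by gcongr
  have h3 : dens P m * N / y / η ≤ dens P m * N * (ε / 16) := by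
    have h4 : 16 ≤ y * (ε * η) := by
      rw [div_le_iff₀ (by positivity)] at hyε
      exact hyε
    rw [div_div, div_le_iff₀ (by positivity)]
    have h5 : dens P m * N * (ε / 16) * (y * η) = dens P m * N * (y * (ε * η) / 16) := by ring
    rw [h5]
    have h6 : (1 : ℝ) ≤ y * (ε * η) / 16 := by linarith
    have h7 : 0 ≤ dens P m * N := by positivity
    nlinarith
  unfold loss
  have e1 : (dens P m * N / y + Nat.totient P * (1 + Real.log N)) / η = dens P m * N / y / η +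
      (Nat.totient P / η + Nat.totient P / η * Real.log N) := by ring
  have e2 : (k : ℝ) * (dens P m * N * η + Nat.totient P * (2 * Real.log N)) =
      dens P m * N * (k * η) + 2 * k * Nat.totient P * Real.log N := by ring
  have e3 : (k : ℝ) * (η * (dens P m * N)) = dens P m * N * (k * η) := by ring
  rw [e1, e2, e3, hkη]
  have h8 : 0 < ε * (dens P m * N) := by positivity
  nlinarith

/-- **Linked elements in dense sets.** -/
theorem dense_links {ε : ℝ} (hε : 0 < ε) : ∃ K : ℕ, ∃ δ : ℝ, 0 < δ ∧ ∀ c : ℤ, c ≠ 0 → ∃ N₀ : ℕ,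
    ∀ N : ℕ → ℕ, Monotone N → N₀ ≤ N 0 → ∀ S : ℕ → Finset ℕ, (∀ j, S j ⊆ PC c.natAbs (N j)) →
    (∀ j, ε * ((Nat.totient c.natAbs : ℝ) / c.natAbs * N j) ≤ #(S j)) →
    ∃ i j, i < j ∧ ∃ b ∈ S i, ∃ u m w t : ℕ, 0 < u ∧ u ≤ K ∧ 0 < m ∧ m ≤ K ∧ 0 < w ∧ w ≤ K ∧
      0 < t ∧ t ≤ K ∧ (∀ p : ℕ, p.Prime → p ∣ t → (p : ℤ) ∣ c) ∧
      δ * ((Nat.totient c.natAbs : ℝ) / c.natAbs * N j) ≤
        Set.ncard {x : ℕ | x ∈ S j ∧ m ∣ x ∧ TrueCase (u * (x / m)) (w * b) (c * t)} := by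
  classical
  obtain ⟨k, hk, H⟩ := link_core
  have hk0 : 0 < k := by omega
  have hkr : (0 : ℝ) < k := by exact_mod_cast hk0
  obtain ⟨y₀, hy₀⟩ := hb_small k (η := ε / 16) (by positivity)
  set η : ℝ := ε / (16 * k) with hη
  have hη0 : 0 < η := by rw [hη]; positivity
  obtain ⟨y₁, hy₁⟩ := exists_nat_ge (16 / (ε * η))
  set y : ℕ := max y₀ (max y₁ 1) with hyd
  have hy0 : 0 < y := lt_of_lt_of_le one_pos ((le_max_right y₁ 1).trans (le_max_right _ _))
  have hyε : 16 / (ε * η) ≤ y := hy₁.trans (by exact_mod_cast (le_max_left y₁ 1).trans (le_max_right _ _))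
  obtain ⟨M, hM⟩ := smooth_tail_rel y (ε := ε / 4) (by positivity)
  have hex : ∀ m : ℕ, ∃ h : Fin k → ℕ, 0 < m → (∀ p : ℕ, p.Prime → p ∣ m → p ≤ y) →
      StrictMono h ∧ (∀ i, 0 < h i) ∧
      (∀ i j, i < j → (h j - h i) ∣ h i ∧ m ∣ h i / (h j - h i)) ∧ sg y (∏ i, h i) ≤ ε / 16 := by
    intro m
    by_cases h1 : 0 < m ∧ ∀ p : ℕ, p.Prime → p ∣ m → p ≤ y
    · obtain ⟨h, h2⟩ := hy₀ y (le_max_left _ _) m h1.1 h1.2
      exact ⟨h, fun _ _ => h2⟩
    · exact ⟨fun _ => 0, fun h2 h3 => absurd ⟨h2, h3⟩ h1⟩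
  choose h hh using hex
  set K : ℕ := M + 1 + ∑ m ∈ range (M + 1), ∑ i, h m i with hK
  have hhK : ∀ m ≤ M, ∀ i, h m i ≤ K := by
    intro m hm i
    have h1 : h m i ≤ ∑ i, h m i := single_le_sum (f := h m) (fun _ _ => Nat.zero_le _) (mem_univ i)
    have h2 : ∑ i, h m i ≤ ∑ m ∈ range (M + 1), ∑ i, h m i :=
      single_le_sum (f := fun m => ∑ i, h m i) (fun _ _ => Nat.zero_le _) (mem_range.2 (by omega))
    omega
  have hK1 : 1 ≤ K := by omega
  have hKr : (1 : ℝ) ≤ K := by exact_mod_cast hK1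
  set Y : ℕ := y.factorial with hY
  have hY0 : 0 < Y := Nat.factorial_pos y
  set ρ : ℝ := (Nat.totient Y : ℝ) / Y with hρ
  have hρ0 : 0 < ρ := by
    have h1 : (0 : ℝ) < Nat.totient Y := by exact_mod_cast Nat.totient_pos.2 hY0
    have h2 : (0 : ℝ) < Y := by exact_mod_cast hY0
    rw [hρ]; positivity
  set δ : ℝ := η * ρ / (2 * (M + 1) * K ^ 3) with hδ
  have hδ0 : 0 < δ := by rw [hδ]; positivity
  refine ⟨K, δ, hδ0, fun c hc => ?_⟩
  have hC : 0 < c.natAbs := Int.natAbs_pos.2 hc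
  set C := c.natAbs with hCdef
  set P : ℕ := Y * C with hPdef
  have hP0 : 0 < P := Nat.mul_pos hY0 hC
  have hCP : C ∣ P := Dvd.intro_left _ rfl
  have hCr : (0 : ℝ) < C := by exact_mod_cast hC
  have hphiC : (0 : ℝ) < Nat.totient C := by exact_mod_cast Nat.totient_pos.2 hC
  set E : ℝ := (Nat.totient C : ℝ) / C with hE
  have hE0 : 0 < E := by rw [hE]; positivity
  -- the classes
  set MM : Finset ℕ := {m ∈ Icc 1 M | cs P m = m ∧ Nat.Coprime m C} with hMM
  have hMMs : ∀ m ∈ MM, ∀ p : ℕ, p.Prime → p ∣ m → p ≤ y := by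
    intro m hm p hp hpm
    rw [hMM, mem_filter] at hm
    have h1 : p ∣ P := by
      have := hpm
      rw [← hm.2.1] at this
      exact cs_prime hp this
    rcases (hp.dvd_mul).1 h1 with h2 | h2
    · exact (hp.dvd_factorial).1 h2
    · have h6 := Nat.dvd_gcd hpm h2
      rw [hm.2.2] at h6
      exact absurd (Nat.dvd_one.1 h6) hp.one_lt.ne'
  have hMM0 : ∀ m ∈ MM, 0 < m ∧ m ≤ M := by
    intro m hm
    rw [hMM, mem_filter, mem_Icc] at hm
    exact hm.1
  have hN₁ : ∀ m : ℕ, ∃ N₁ : ℕ, m ∈ MM → ∀ N : ℕ, N₁ ≤ N → 0 < N →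
      loss k y m P (∏ i, h m i) η η N < ε / 2 * (dens P m * N) := by
    intro m
    by_cases hm : m ∈ MM
    · obtain ⟨N₁, h1⟩ := loss_small hk0 hy0 hε hyε (hMM0 m hm).1 hP0
        (hh m (hMM0 m hm).1 (hMMs m hm)).2.2.2
      exact ⟨N₁, fun _ => h1⟩
    · exact ⟨0, fun h1 => absurd h1 hm⟩
  choose N₁ hN₁ using hN₁
  obtain ⟨N₂, hN₂⟩ := exists_nat_gt ((y + 1) * Nat.totient C / (ε / 4 * E))
  refine ⟨∑ m ∈ range (M + 1), N₁ m + N₂ + 1, fun N hN hN0 S hSsub hSbig => ?_⟩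
  have hNj : ∀ j, ∑ m ∈ range (M + 1), N₁ m + N₂ + 1 ≤ N j := fun j => hN0.trans (hN (Nat.zero_le j))
  -- the dominating class
  have hclass : ∀ j, ∃ m ∈ MM, ε / 2 * (dens P m * N j) ≤ #{b ∈ S j | b ∈ CC P m (N j)} := by
    intro j
    by_contra hcon
    push Not at hcon
    have hsub : S j ⊆ {b ∈ PC C (N j) | M < cs Y b} ∪
        MM.biUnion fun m => {b ∈ S j | b ∈ CC P m (N j)} := by
      intro b hb
      have hb2 := mem_PC.1 (hSsub j hb)
      rw [mem_union, mem_filter, mem_biUnion]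
      by_cases h1 : M < cs Y b
      · exact Or.inl ⟨hSsub j hb, h1⟩
      · right
        have h2 : cs P b = cs Y b := cs_mul_right hY0 hC hb2.1.1 hb2.2
        refine ⟨cs P b, ?_, ?_⟩
        · rw [hMM, mem_filter, mem_Icc]
          refine ⟨⟨cs_pos hb2.1.1, by omega⟩, cs_idem hP0 hb2.1.1, ?_⟩
          exact hb2.2.coprime_dvd_left (cs_dvd P b)
        · rw [mem_filter, mem_CC]
          exact ⟨hb, hb2.1, rfl⟩
    have h1 : (#(S j) : ℝ) ≤ #{b ∈ PC C (N j) | M < cs Y b} +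
        ∑ m ∈ MM, (#{b ∈ S j | b ∈ CC P m (N j)} : ℝ) := by
      exact_mod_cast (card_le_card hsub).trans ((card_union_le _ _).trans
        (Nat.add_le_add_left card_biUnion_le _))
    have h2 := hM C hC (N j)
    have h3 : ∑ m ∈ MM, (#{b ∈ S j | b ∈ CC P m (N j)} : ℝ) ≤ ε / 2 * (E * N j) := by
      calc ∑ m ∈ MM, (#{b ∈ S j | b ∈ CC P m (N j)} : ℝ)
          ≤ ∑ m ∈ MM, ε / 2 * (dens P m * N j) := sum_le_sum fun m hm => (hcon m hm).le
        _ = ε / 2 * ((∑ m ∈ MM, dens P m) * N j) := by rw [← mul_sum, sum_mul]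
        _ ≤ ε / 2 * (E * N j) := by
            have h4 := dens_sum_rel hP0 hC hCP MM (fun m hm => by
              rw [hMM, mem_filter, mem_Icc] at hm
              exact ⟨hm.1.1, hm.2.1, hm.2.2⟩)
            gcongr
    have h5 : (y + 1) * (Nat.totient C : ℝ) < ε / 4 * (E * N j) := by
      rw [div_lt_iff₀ (by positivity)] at hN₂
      have h6 : (N₂ : ℝ) ≤ N j := by exact_mod_cast (by have := hNj j; omega : N₂ ≤ N j)
      have h7 : (N₂ : ℝ) * (ε / 4 * E) ≤ N j * (ε / 4 * E) := by gcongr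
      linarith
    have h6 := hSbig j
    rw [← hE] at h2
    linarith
  choose mf hmf1 hmf2 using hclass
  -- a class which occurs infinitely often
  obtain ⟨m, hmM, hminf⟩ : ∃ m ∈ MM, {j | mf j = m}.Infinite := by
    by_contra hcon
    push Not at hcon
    have h1 : (⋃ m ∈ MM, {j | mf j = m}).Finite :=
      Set.Finite.biUnion (Finset.finite_toSet MM) fun m hm => hcon m hm
    refine Set.infinite_univ (h1.subset fun j _ => ?_)
    exact Set.mem_biUnion (hmf1 j) rfl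
  obtain ⟨f, hf, hfm⟩ := Nat.exists_strictMono_subsequence (P := fun j => mf j = m) (fun n => by
    obtain ⟨j, hj, hjn⟩ := hminf.exists_gt n
    exact ⟨j, hjn, hj⟩)
  obtain ⟨hm0, hmM'⟩ := hMM0 m hmM
  obtain ⟨hmono, hpos, hdvd, hsg⟩ := hh m hm0 (hMMs m hmM)
  have hmC : Nat.Coprime m C := (mem_filter.1 hmM).2.2
  obtain ⟨i, j, hij, hjk, b, hb, hlink⟩ := class_links H hc (K := K) hy0 hm0 (P := P) rfl hmC hmono hpos
    hdvd (hhK m hmM') hη0 hη0.le (N := fun j => N (f j)) (by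
      show 0 < N (f 0)
      have := hNj (f 0)
      omega)
    (fun i j hij => hN (hf.monotone hij)) (S := fun j => {b ∈ S (f j) | b ∈ CC P m (N (f j))})
    (fun j _ x hx => (mem_filter.1 hx).2)
    (fun j _ => by
      have h1 := hNj (f j)
      have h2 : N₁ m ≤ ∑ m ∈ range (M + 1), N₁ m :=
        single_le_sum (f := N₁) (fun _ _ => Nat.zero_le _) (mem_range.2 (by omega))
      have h3 := hN₁ m hmM (N (f j)) (by omega) (by omega)
      have h4 := hmf2 (f j)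
      rw [hfm j] at h4
      exact lt_of_lt_of_le h3 h4)
  replace hb : b ∈ ({b ∈ S (f i) | b ∈ CC P m (N (f i))} : Finset ℕ) := hb
  rw [mem_filter, mem_CC] at hb
  obtain ⟨hbS, ⟨hb1, hb2⟩, hbm⟩ := hb
  have hbeq : cf P b * m = b := by
    have := cf_mul_cs P b
    rwa [hbm] at this
  refine ⟨f i, f j, hf hij, b, hbS, ?_⟩
  by_contra hcon
  push Not at hcon
  set T : Finset (ℕ × ℕ × ℕ) := {q ∈ Icc 1 K ×ˢ (Icc 1 K ×ˢ Icc 1 K) |
    ∀ p : ℕ, p.Prime → p ∣ q.2.2 → (p : ℤ) ∣ c} with hT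
  have hTcard : #T ≤ K ^ 3 := by
    refine (card_filter_le _ _).trans (le_of_eq ?_)
    rw [card_product, card_product, Nat.card_Icc, Nat.add_sub_cancel]
    ring
  have hsub : {x : ℕ | x ∈ ({b ∈ S (f j) | b ∈ CC P m (N (f j))} : Finset ℕ) ∧
      Link c m K (cf P b) (cf P x)} ⊆ ((T.biUnion fun q => {x ∈ S (f j) | m ∣ x ∧
        TrueCase (q.1 * (x / m)) (q.2.1 * b) (c * q.2.2)} : Finset ℕ) : Set ℕ) := by
    rintro x ⟨hx, u, v, t, hu, huK, hv, hvK, hmv, ht, htK, htc, htrue⟩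
    rw [mem_filter, mem_CC] at hx
    obtain ⟨hxS, ⟨hx1, hx2⟩, hxm⟩ := hx
    have hxeq : cf P x * m = x := by
      have := cf_mul_cs P x
      rwa [hxm] at this
    have hxd : x / m = cf P x := by
      conv_lhs => rw [← hxeq]
      exact Nat.mul_div_cancel _ hm0
    obtain ⟨w, rfl⟩ := hmv
    have hw0 : 0 < w := Nat.pos_of_mul_pos_left hv
    rw [mem_coe, mem_biUnion]
    refine ⟨(u, w, t), ?_, ?_⟩
    · rw [hT, mem_filter, mem_product, mem_product, mem_Icc, mem_Icc, mem_Icc]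
      exact ⟨⟨⟨hu, huK⟩, ⟨hw0, (Nat.le_mul_of_pos_left w hm0).trans hvK⟩, ht, htK⟩, htc⟩
    · rw [mem_filter]
      refine ⟨hxS, ⟨cf P x, by rw [mul_comm]; exact hxeq.symm⟩, ?_⟩
      simp only
      rw [hxd]
      have e : w * b = m * w * cf P b := by
        conv_lhs => rw [← hbeq]
        ring
      rw [e]
      exact htrue
  have h1 := Set.ncard_le_ncard hsub (Finset.finite_toSet _)
  rw [Set.ncard_coe_finset] at h1
  have h2 : ∀ q ∈ T, (#{x ∈ S (f j) | m ∣ x ∧ TrueCase (q.1 * (x / m)) (q.2.1 * b) (c * q.2.2)} : ℝ) ≤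
      δ * (E * N (f j)) := by
    intro q hq
    rw [hT, mem_filter, mem_product, mem_product, mem_Icc, mem_Icc, mem_Icc] at hq
    obtain ⟨⟨⟨hu, huK⟩, ⟨hw, hwK⟩, ht, htK⟩, htc⟩ := hq
    have h3 := hcon q.1 m q.2.1 q.2.2 hu huK hm0 (by omega) hw hwK ht htK htc
    refine le_trans (le_of_eq ?_) h3.le
    rw [← Set.ncard_coe_finset]
    congr 2
    ext x
    simp
  have h3 : ((Set.ncard {x : ℕ | x ∈ ({b ∈ S (f j) | b ∈ CC P m (N (f j))} : Finset ℕ) ∧
      Link c m K (cf P b) (cf P x)} : ℕ) : ℝ) ≤ K ^ 3 * (δ * (E * N (f j))) := by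
    calc ((Set.ncard {x : ℕ | x ∈ ({b ∈ S (f j) | b ∈ CC P m (N (f j))} : Finset ℕ) ∧
          Link c m K (cf P b) (cf P x)} : ℕ) : ℝ)
        ≤ ((∑ q ∈ T, #{x ∈ S (f j) | m ∣ x ∧
          TrueCase (q.1 * (x / m)) (q.2.1 * b) (c * q.2.2)} : ℕ) : ℝ) := by
          exact_mod_cast h1.trans card_biUnion_le
      _ = ∑ q ∈ T, (#{x ∈ S (f j) | m ∣ x ∧
          TrueCase (q.1 * (x / m)) (q.2.1 * b) (c * q.2.2)} : ℝ) := by push_cast; rfl
      _ ≤ ∑ q ∈ T, δ * (E * N (f j)) := sum_le_sum h2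
      _ = #T * (δ * (E * N (f j))) := by rw [sum_const, nsmul_eq_mul]
      _ ≤ _ := by
          have h4 : (#T : ℝ) ≤ K ^ 3 := by exact_mod_cast hTcard
          gcongr
  have h4 : ρ * E / (M + 1) ≤ dens P m := by
    have h5 : (Nat.totient Y : ℝ) * Nat.totient C ≤ Nat.totient P := by
      exact_mod_cast Nat.totient_super_multiplicative Y C
    have hYr : (0 : ℝ) < Y := by exact_mod_cast hY0
    have hmr : (0 : ℝ) < m := by exact_mod_cast hm0
    have hmM2 : (m : ℝ) ≤ M + 1 := by exact_mod_cast (by omega : m ≤ M + 1)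
    unfold dens
    rw [hρ, hE, hPdef]
    push_cast
    calc (Nat.totient Y : ℝ) / Y * (Nat.totient C / C) / (M + 1)
        = (Nat.totient Y * Nat.totient C) / (Y * C * (M + 1)) := by field_simp
      _ ≤ Nat.totient (Y * C) / (Y * C * m) := by
          gcongr
  have hNr : (0 : ℝ) < N (f j) := by exact_mod_cast (by have := hNj (f j); omega : 0 < N (f j))
  have h5 : (K : ℝ) ^ 3 * (δ * (E * N (f j))) = η * (ρ * E / (M + 1) * N (f j)) / 2 := by
    rw [hδ]
    field_simp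
  have h6 : η * (ρ * E / (M + 1) * N (f j)) ≤ η * (dens P m * N (f j)) := by gcongr
  have h7 : 0 < η * (ρ * E / (M + 1) * N (f j)) := by positivity
  linarith

end Pool.Agent.helper85.QC
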