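import Pool.Agent.helper85.QC.ES

/-!
# The Erdos-Stone theorem for a relation which need not be symmetric
-/

namespace Pool.Agent.helper85.QC

open Finset

/-- consecutive blocks in several finite sets. -/
lemma separate {ι : Type} [DecidableEq ι] (t : ℕ) : ∀ (n : ℕ) (I : Finset ι), #I = n →
    ∀ g : ι → Finset ℕ, (∀ l ∈ I, n * t ≤ #(g l)) → ∃ (s : Fin n → ι) (P : Fin n → Finset ℕ),
    Function.Injective s ∧ (∀ i, s i ∈ I) ∧ (∀ i, P i ⊆ g (s i) ∧ #(P i) = t) ∧
    ∀ i j, i < j → ∀ x ∈ P i, ∀ y ∈ P j, x < y := by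
  intro n
  induction n with
  | zero =>
    intro I _ g _
    exact ⟨fun i => i.elim0, fun i => i.elim0, fun i => i.elim0, fun i => i.elim0,
      fun i => i.elim0, fun i => i.elim0⟩
  | succ n ih =>
    intro I hI g hg
    -- the place where `t` elements of `g l` have been seen
    have hex : ∀ l, ∃ τ : ℕ, l ∈ I → t ≤ #{x ∈ g l | x < τ} ∧ #{x ∈ g l | x < τ} ≤ t := by
      intro l
      by_cases hl : l ∈ I
      · have h1 : ∃ τ : ℕ, t ≤ #{x ∈ g l | x < τ} := by
          refine ⟨(g l).sup id + 1, ?_⟩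
          have h2 : {x ∈ g l | x < (g l).sup id + 1} = g l := by
            rw [filter_eq_self]
            intro x hx
            exact Nat.lt_succ_of_le (le_sup (f := id) hx)
          rw [h2]
          have := hg l hl
          nlinarith
        classical
        refine ⟨Nat.find h1, fun _ => ⟨Nat.find_spec h1, ?_⟩⟩
        rcases Nat.eq_zero_or_pos (Nat.find h1) with h2 | h2
        · rw [h2]
          simp
        · obtain ⟨τ, hτ⟩ : ∃ τ, Nat.find h1 = τ + 1 := ⟨Nat.find h1 - 1, by omega⟩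
          rw [hτ]
          have h3 : #{x ∈ g l | x < τ} < t := by
            have := Nat.find_min h1 (m := τ) (by omega)
            omega
          have h4 : {x ∈ g l | x < τ + 1} ⊆ insert τ {x ∈ g l | x < τ} := by
            intro x hx
            rw [mem_filter] at hx
            rw [mem_insert, mem_filter]
            by_cases h5 : x = τ
            · exact Or.inl h5
            · exact Or.inr ⟨hx.1, by omega⟩
          have h5 := (card_le_card h4).trans (card_insert_le _ _)
          omega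
      · exact ⟨0, fun h => absurd h hl⟩
    choose τ hτ using hex
    have hne : I.Nonempty := card_pos.1 (by omega)
    obtain ⟨l₀, hl₀, hmin⟩ := exists_min_image I τ hne
    obtain ⟨P₀, hP₀, hP₀c⟩ := exists_subset_card_eq (hτ l₀ hl₀).1
    obtain ⟨s, P, hs, hsI, hP, hord⟩ := ih (I.erase l₀) (by rw [card_erase_of_mem hl₀]; omega)
      (fun l => {x ∈ g l | ¬ x < τ l₀}) (by
        intro l hl
        have hlI := mem_of_mem_erase hl
        have h1 : #{x ∈ g l | x < τ l₀} ≤ #{x ∈ g l | x < τ l} := by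
          refine card_le_card fun x hx => ?_
          rw [mem_filter] at hx ⊢
          exact ⟨hx.1, lt_of_lt_of_le hx.2 (hmin l hlI)⟩
        have h2 := card_filter_add_card_filter_not (s := g l) (fun x => x < τ l₀)
        have h3 := (hτ l hlI).2
        have h4 := hg l hlI
        rw [Nat.add_mul, one_mul] at h4
        omega)
    refine ⟨Fin.cons l₀ s, Fin.cons P₀ P, ?_, ?_, ?_, ?_⟩
    · rw [Fin.cons_injective_iff]
      refine ⟨?_, hs⟩
      rintro ⟨i, hi⟩
      have := hsI i
      rw [hi] at this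
      exact notMem_erase l₀ I this
    · intro i
      refine Fin.cases ?_ (fun i => ?_) i
      · simpa using hl₀
      · simpa using mem_of_mem_erase (hsI i)
    · intro i
      refine Fin.cases ?_ (fun i => ?_) i
      · simp only [Fin.cons_zero]
        exact ⟨hP₀.trans (filter_subset _ _), hP₀c⟩
      · simp only [Fin.cons_succ]
        exact ⟨(hP i).1.trans (filter_subset _ _), (hP i).2⟩
    · intro i j
      refine Fin.cases ?_ (fun i => ?_) i
      · refine Fin.cases ?_ (fun j => ?_) j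
        · intro h; exact absurd h (lt_irrefl _)
        · intro _ x hx y hy
          simp only [Fin.cons_zero, Fin.cons_succ] at hx hy
          have h1 := (mem_filter.1 (hP₀ hx)).2
          have h2 := (mem_filter.1 ((hP j).1 hy)).2
          omega
      · refine Fin.cases ?_ (fun j => ?_) j
        · intro h; exact absurd h (by simp)
        · intro h x hx y hy
          simp only [Fin.cons_succ] at hx hy
          exact hord i j (Fin.succ_lt_succ_iff.1 h) x hx y hy

/-- five blocks in increasing order. -/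
lemma five_blocks (t : ℕ) (g : Fin 5 × Fin (5 * t) → ℕ) (hg : Function.Injective g) :
    ∃ f : Fin 5 × Fin t → ℕ, Function.Injective f ∧
      (∀ x y : Fin 5 × Fin t, x.1 < y.1 → f x < f y) ∧
      ∃ G : Fin 5 × Fin t → Fin 5 × Fin (5 * t), (∀ x, g (G x) = f x) ∧
        ∀ x y, x.1 ≠ y.1 → (G x).1 ≠ (G y).1 := by
  classical
  obtain ⟨s, P, hs, -, hP, hord⟩ := separate (ι := Fin 5) t 5 univ (by simp)
    (fun l => univ.image fun a : Fin (5 * t) => g (l, a)) (by
      intro l _
      rw [card_image_of_injective _ (fun a b h => by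
        have := hg h
        simpa using this)]
      simp)
  set e : ∀ i : Fin 5, Fin t ≃ P i := fun i => (Finset.equivFinOfCardEq (hP i).2).symm with he
  have hmem : ∀ x : Fin 5 × Fin t, ((e x.1 x.2 : P x.1) : ℕ) ∈ P x.1 := fun x => (e x.1 x.2).2
  have hG : ∀ x : Fin 5 × Fin t, ∃ a : Fin (5 * t), g (s x.1, a) = (e x.1 x.2 : P x.1) := by
    intro x
    have h1 := (hP x.1).1 (hmem x)
    rw [mem_image] at h1
    obtain ⟨a, -, ha⟩ := h1
    exact ⟨a, ha⟩
  choose a ha using hG
  refine ⟨fun x => (e x.1 x.2 : P x.1), ?_, ?_, fun x => (s x.1, a x), ha, ?_⟩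
  · rintro ⟨i, u⟩ ⟨j, v⟩ h
    simp only at h
    have hij : i = j := by
      by_contra hne
      rcases lt_or_gt_of_ne hne with h1 | h1
      · have := hord i j h1 _ (hmem (i, u)) _ (hmem (j, v))
        simp only at this
        omega
      · have := hord j i h1 _ (hmem (j, v)) _ (hmem (i, u))
        simp only at this
        omega
    subst hij
    have := (e i).injective (Subtype.ext h)
    rw [this]
  · intro x y hxy
    exact hord x.1 y.1 hxy _ (hmem x) _ (hmem y)
  · intro x y hxy h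
    exact hxy (hs h)

/-- **the Erdos-Stone theorem for a relation which need not be symmetric.** -/
theorem es_directed (t : ℕ) {ε : ℝ} (hε : 0 < ε) : ∃ K : ℕ, ∀ (R : ℕ → ℕ → Prop) [DecidableRel R]
    (S : Finset ℕ), (∀ f : Fin 5 × Fin t → ℕ, Function.Injective f → (∀ x, f x ∈ S) →
      ∃ x y : Fin 5 × Fin t, x.1 < y.1 ∧ R (f x) (f y)) →
    (1 / 4 - ε) * (#S : ℝ) ^ 2 - K * #S ≤ #{p ∈ S ×ˢ S | p.1 ≠ p.2 ∧ R p.1 p.2} := by
  classical
  obtain ⟨K, hK⟩ := es_quarter (5 * t) hε
  refine ⟨K, fun R _ S hS => ?_⟩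
  have h1 := hK (fun x y => R (min x y) (max x y)) S (fun x y h => by rwa [min_comm, max_comm])
    (by
      intro g hg hgS
      obtain ⟨f, hf, hlt, G, hG1, hG2⟩ := five_blocks t g hg
      obtain ⟨x, y, hxy, hR⟩ := hS f hf (fun x => hG1 x ▸ hgS _)
      refine ⟨G x, G y, hG2 x y hxy.ne, ?_⟩
      rw [hG1, hG1, min_eq_left (hlt x y hxy).le, max_eq_right (hlt x y hxy).le]
      exact hR)
  have h2 := hK (fun x y => R (max x y) (min x y)) S (fun x y h => by rwa [min_comm, max_comm])
    (by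
      intro g hg hgS
      obtain ⟨f, hf, hlt, G, hG1, hG2⟩ := five_blocks t g hg
      obtain ⟨x, y, hxy, hR⟩ := hS (fun x => f (x.1.rev, x.2)) (by
          intro x y h
          have h1 := hf h
          rw [Prod.mk.injEq, Fin.rev_inj] at h1
          exact Prod.ext h1.1 h1.2)
        (fun x => hG1 (x.1.rev, x.2) ▸ hgS _)
      have hlt' := hlt (y.1.rev, y.2) (x.1.rev, x.2) (Fin.rev_lt_rev.2 hxy)
      refine ⟨G (x.1.rev, x.2), G (y.1.rev, y.2), hG2 _ _ (fun h => hxy.ne (Fin.rev_inj.1 h)), ?_⟩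
      rw [hG1, hG1, max_eq_left hlt'.le, min_eq_right hlt'.le]
      exact hR)
  -- count
  set A := {p ∈ S ×ˢ S | p.1 < p.2 ∧ R p.1 p.2} with hA
  set B := {p ∈ S ×ˢ S | p.2 < p.1 ∧ R p.1 p.2} with hB
  have hsum : #{p ∈ S ×ˢ S | p.1 ≠ p.2 ∧ R p.1 p.2} = #A + #B := by
    rw [hA, hB, ← card_union_of_disjoint]
    · congr 1
      ext p
      simp only [mem_filter, mem_union, mem_product]
      constructor
      · rintro ⟨h1, h2, h3⟩
        rcases lt_or_gt_of_ne h2 with h4 | h4
        · exact Or.inl ⟨h1, h4, h3⟩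
        · exact Or.inr ⟨h1, h4, h3⟩
      · rintro (⟨h1, h2, h3⟩ | ⟨h1, h2, h3⟩)
        · exact ⟨h1, h2.ne, h3⟩
        · exact ⟨h1, h2.ne', h3⟩
    · rw [disjoint_filter]
      intro p _ h h'
      exact lt_asymm h.1 h'.1
  have hswap : ∀ Q : ℕ → ℕ → Prop, #{p ∈ S ×ˢ S | p.1 < p.2 ∧ Q p.1 p.2} =
      #{p ∈ S ×ˢ S | p.2 < p.1 ∧ Q p.2 p.1} := by
    intro Q
    refine card_bij (fun p _ => (p.2, p.1)) ?_ ?_ ?_
    · intro p hp
      rw [mem_filter, mem_product] at hp ⊢
      exact ⟨⟨hp.1.2, hp.1.1⟩, hp.2⟩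
    · rintro ⟨a, b⟩ _ ⟨a', b'⟩ _ h
      simp only [Prod.mk.injEq] at h
      exact Prod.ext h.2 h.1
    · rintro ⟨a, b⟩ hp
      rw [mem_filter, mem_product] at hp
      exact ⟨(b, a), by rw [mem_filter, mem_product]; exact ⟨⟨hp.1.2, hp.1.1⟩, hp.2⟩, rfl⟩
  have hc1 : #{p ∈ S ×ˢ S | p.1 ≠ p.2 ∧ R (min p.1 p.2) (max p.1 p.2)} = #A + #A := by
    have e1 : #A = #{p ∈ S ×ˢ S | p.2 < p.1 ∧ R p.2 p.1} := by
      rw [hA]
      convert hswap R
    nth_rewrite 2 [e1]
    rw [hA, ← card_union_of_disjoint]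
    · congr 1
      ext p
      simp only [mem_filter, mem_union, mem_product]
      constructor
      · rintro ⟨h1, h2, h3⟩
        rcases lt_or_gt_of_ne h2 with h4 | h4
        · rw [min_eq_left h4.le, max_eq_right h4.le] at h3
          exact Or.inl ⟨h1, h4, h3⟩
        · rw [min_eq_right h4.le, max_eq_left h4.le] at h3
          exact Or.inr ⟨h1, h4, h3⟩
      · rintro (⟨h1, h2, h3⟩ | ⟨h1, h2, h3⟩)
        · rw [min_eq_left h2.le, max_eq_right h2.le]
          exact ⟨h1, h2.ne, h3⟩
        · rw [min_eq_right h2.le, max_eq_left h2.le]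
          exact ⟨h1, h2.ne', h3⟩
    · rw [disjoint_filter]
      intro p _ h h'
      exact lt_asymm h.1 h'.1
  have hc2 : #{p ∈ S ×ˢ S | p.1 ≠ p.2 ∧ R (max p.1 p.2) (min p.1 p.2)} = #B + #B := by
    have e1 : #{p ∈ S ×ˢ S | p.1 < p.2 ∧ R p.2 p.1} = #B := by
      rw [hB]
      convert hswap (fun x y => R y x)
    nth_rewrite 1 [← e1]
    rw [hB, ← card_union_of_disjoint]
    · congr 1
      ext p
      simp only [mem_filter, mem_union, mem_product]
      constructor
      · rintro ⟨h1, h2, h3⟩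
        rcases lt_or_gt_of_ne h2 with h4 | h4
        · rw [max_eq_right h4.le, min_eq_left h4.le] at h3
          exact Or.inl ⟨h1, h4, h3⟩
        · rw [max_eq_left h4.le, min_eq_right h4.le] at h3
          exact Or.inr ⟨h1, h4, h3⟩
      · rintro (⟨h1, h2, h3⟩ | ⟨h1, h2, h3⟩)
        · rw [max_eq_right h2.le, min_eq_left h2.le]
          exact ⟨h1, h2.ne, h3⟩
        · rw [max_eq_left h2.le, min_eq_right h2.le]
          exact ⟨h1, h2.ne', h3⟩
    · rw [disjoint_filter]
      intro p _ h h'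
      exact lt_asymm h.1 h'.1
  rw [hsum]
  have e1 : (#{p ∈ S ×ˢ S | p.1 ≠ p.2 ∧ R (min p.1 p.2) (max p.1 p.2)} : ℝ) = #A + #A := by
    exact_mod_cast hc1
  have e2 : (#{p ∈ S ×ˢ S | p.1 ≠ p.2 ∧ R (max p.1 p.2) (min p.1 p.2)} : ℝ) = #B + #B := by
    exact_mod_cast hc2
  have h1' : (1 / 4 - ε) * (#S : ℝ) ^ 2 - K * #S ≤ #A + #A := by
    rw [← e1]
    convert h1
  have h2' : (1 / 4 - ε) * (#S : ℝ) ^ 2 - K * #S ≤ #B + #B := by
    rw [← e2]
    convert h2
  push_cast
  linarith

end Pool.Agent.helper85.QC
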