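import Pool.Agent.helper85.QC.Core

/-!
# Every `b` without small prime factors: infinitely many `a`
-/

namespace Pool.Agent.helper85.QC

open Finset Pool.Agent.helper39.MT Pool.Agent.helper85.FC

/-- a family of pairwise coprime integers `> 1`, prime to `c`, without prime factors `≤ N` and
without links. -/
def Free (c : ℤ) (m K N n : ℕ) (x : Fin n → ℕ) : Prop :=
  (∀ i, 1 < x i) ∧ (∀ i, ∀ p : ℕ, p.Prime → p ∣ x i → N < p) ∧ (∀ i, IsCoprime (x i : ℤ) c) ∧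
    (∀ i j, i ≠ j → Nat.Coprime (x i) (x j)) ∧ ∀ i j, i < j → ¬ Link c m K (x i) (x j)

lemma Free.mono {c : ℤ} {m K N N' n : ℕ} {x : Fin n → ℕ} (h : Free c m K N' n x) (hN : N ≤ N') :
    Free c m K N n x :=
  ⟨h.1, fun i p hp hd => lt_of_le_of_lt hN (h.2.1 i p hp hd), h.2.2.1, h.2.2.2.1, h.2.2.2.2⟩

/-- adding an element in front. -/
lemma Free.cons {c : ℤ} {m K N n : ℕ} {F : Fin n → ℕ} (hF : Free c m K N n F) {x : ℕ} (hx : 1 < x)
    (hxN : ∀ p : ℕ, p.Prime → p ∣ x → N < p) (hxc : IsCoprime (x : ℤ) c)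
    (hxF : ∀ j, Nat.Coprime x (F j)) (hlink : ∀ j, ¬ Link c m K x (F j)) :
    Free c m K N (n + 1) (Fin.cons x F : Fin (n + 1) → ℕ) := by
  refine ⟨?_, ?_, ?_, ?_, ?_⟩
  · intro i
    refine Fin.cases ?_ (fun i => ?_) i
    · simpa using hx
    · simpa using hF.1 i
  · intro i
    refine Fin.cases ?_ (fun i => ?_) i
    · simpa using hxN
    · simpa using hF.2.1 i
  · intro i
    refine Fin.cases ?_ (fun i => ?_) i
    · simpa using hxc
    · simpa using hF.2.2.1 i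
  · intro i j
    refine Fin.cases ?_ (fun i => ?_) i
    · refine Fin.cases ?_ (fun j => ?_) j
      · intro h; exact absurd rfl h
      · intro _
        simpa using hxF j
    · refine Fin.cases ?_ (fun j => ?_) j
      · intro _
        simpa using (hxF i).symm
      · intro h
        simpa using hF.2.2.2.1 i j (fun h0 => h (by rw [h0]))
  · intro i j
    refine Fin.cases ?_ (fun i => ?_) i
    · refine Fin.cases ?_ (fun j => ?_) j
      · intro h; exact absurd h (lt_irrefl _)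
      · intro _
        simpa using hlink j
    · refine Fin.cases ?_ (fun j => ?_) j
      · intro h; exact absurd h (by simp)
      · intro h
        simpa using hF.2.2.2.2 i j (Fin.succ_lt_succ_iff.1 h)

/-- **Every `b`.** -/
theorem every_rough (m : ℕ) (hm : 0 < m) : ∃ K : ℕ, ∀ c : ℤ, c ≠ 0 → IsCoprime (m : ℤ) c →
    ∃ B : ℕ, ∀ x : ℕ, 1 < x → (∀ p : ℕ, p.Prime → p ∣ x → B < p) → IsCoprime (x : ℤ) c →
      ∃ v t : ℕ, 0 < v ∧ v ≤ K ∧ m ∣ v ∧ 0 < t ∧ t ≤ K ∧ (∀ p : ℕ, p.Prime → p ∣ t → (p : ℤ) ∣ c) ∧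
        {a : ℕ | TrueCase a (v * x) (c * t)}.Infinite := by
  classical
  obtain ⟨k, hk, H⟩ := link_core
  obtain ⟨h, hmono, hpos, hdvd⟩ := hb_mod k m hm
  set K : ℕ := ∑ i, h i with hK
  have hhK : ∀ i, h i ≤ K := fun i => single_le_sum (f := h) (fun _ _ => Nat.zero_le _) (mem_univ i)
  refine ⟨K, fun c hc hmc => ?_⟩
  have hcopK : ∀ z l : ℕ, 0 < l → l ≤ K → (∀ p : ℕ, p.Prime → p ∣ z → K < p) → Nat.Coprime z l := by
    intro z l hl hlK hz
    by_contra hcon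
    obtain ⟨p, hp, h1, h2⟩ := Nat.Prime.not_coprime_iff_dvd.1 hcon
    have h3 := hz p hp h1
    have h4 := Nat.le_of_dvd hl h2
    omega
  -- free families have fewer than `k` elements
  have hfree : ∀ N n : ℕ, K ≤ N → ∀ x : Fin n → ℕ, Free c m K N n x → n < k := by
    intro N n hN x hx
    by_contra hcon
    push Not at hcon
    obtain ⟨i, j, hij, hl⟩ := H c hc m K h hmono hpos hdvd hhK hmc (fun i => x (Fin.castLE hcon i))
      (fun i => by have := hx.1 (Fin.castLE hcon i); omega) (fun i => hx.2.2.1 _)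
      (fun i j hij => hx.2.2.2.1 _ _ (fun h0 => hij (Fin.castLE_injective hcon h0)))
      (fun i l => hcopK _ _ (hpos l) (hhK l) (fun p hp hd =>
        lt_of_le_of_lt hN (hx.2.1 _ p hp hd)))
    exact hx.2.2.2.2 _ _ (by simpa using hij) hl
  -- the largest length which occurs for all `N`
  set T : Set ℕ := {n | ∀ N, K ≤ N → ∃ x : Fin n → ℕ, Free c m K N n x} with hT
  have hne : T.Nonempty := ⟨0, fun N _ => ⟨Fin.elim0, ⟨fun i => i.elim0, fun i => i.elim0,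
    fun i => i.elim0, fun i => i.elim0, fun i => i.elim0⟩⟩⟩
  have hbdd : BddAbove T := ⟨k, by
    intro n hn
    obtain ⟨x, hx⟩ := hn K le_rfl
    exact (hfree K n le_rfl x hx).le⟩
  set g := sSup T with hg
  have hgT : g ∈ T := Nat.sSup_mem hne hbdd
  have hg1 : g + 1 ∉ T := fun h1 => by
    have := le_csSup hbdd h1
    omega
  rw [hT, Set.mem_ofPred_eq] at hg1
  push Not at hg1
  obtain ⟨N₁, hN₁K, hN₁⟩ := hg1
  refine ⟨N₁, fun x hx hxN hxc => ?_⟩
  -- arbitrarily large partners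
  have hbig : ∀ N : ℕ, ∃ a > N, ∃ v ≤ K, ∃ t ≤ K, 0 < v ∧ m ∣ v ∧ 0 < t ∧
      (∀ p : ℕ, p.Prime → p ∣ t → (p : ℤ) ∣ c) ∧ TrueCase a (v * x) (c * t) := by
    intro N
    obtain ⟨F, hF⟩ := hgT (N + x + N₁) (by omega)
    have hFgt : ∀ j, N + x < F j := by
      intro j
      obtain ⟨p, hp, hd⟩ := Nat.exists_prime_and_dvd (n := F j) (by have := hF.1 j; omega)
      have h1 := hF.2.1 j p hp hd
      have h2 := Nat.le_of_dvd (by have := hF.1 j; omega) hd
      omega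
    by_contra hcon
    push Not at hcon
    refine hN₁ (Fin.cons x F : Fin (g + 1) → ℕ) ?_
    refine Free.cons (hF.mono (by omega)) hx (fun p hp hd => hxN p hp hd) hxc ?_ ?_
    · intro j
      by_contra hnc
      obtain ⟨p, hp, h1, h2⟩ := Nat.Prime.not_coprime_iff_dvd.1 hnc
      have h3 := hF.2.1 j p hp h2
      have h4 := Nat.le_of_dvd (by omega) h1
      omega
    · rintro j ⟨u, v, t, hu, huK, hv, hvK, hmv, ht, htK, htc, htrue⟩
      refine hcon (u * F j) ?_ v hvK t htK hv hmv ht htc htrue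
      have h1 := hFgt j
      have h2 : F j ≤ u * F j := Nat.le_mul_of_pos_left _ hu
      omega
  -- pigeonhole over `(v, t)`
  by_contra hcon
  push Not at hcon
  have hfin : ∀ vt : ℕ × ℕ, vt ∈ Icc 1 K ×ˢ Icc 1 K → m ∣ vt.1 →
      (∀ p : ℕ, p.Prime → p ∣ vt.2 → (p : ℤ) ∣ c) →
      {a : ℕ | TrueCase a (vt.1 * x) (c * vt.2)}.Finite := by
    rintro ⟨v, t⟩ hvt hmv htc
    rw [mem_product, mem_Icc, mem_Icc] at hvt
    exact hcon v t hvt.1.1 hvt.1.2 hmv hvt.2.1 hvt.2.2 htc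
  have hunion : (⋃ vt ∈ {vt : ℕ × ℕ | vt ∈ Icc 1 K ×ˢ Icc 1 K ∧ m ∣ vt.1 ∧
      (∀ p : ℕ, p.Prime → p ∣ vt.2 → (p : ℤ) ∣ c)}, {a : ℕ | TrueCase a (vt.1 * x) (c * vt.2)}).Finite := by
    refine Set.Finite.biUnion ((Finset.finite_toSet (Icc 1 K ×ˢ Icc 1 K)).subset ?_) ?_
    · rintro vt ⟨h1, -⟩
      exact h1
    · rintro vt ⟨h1, h2, h3⟩
      exact hfin vt h1 h2 h3
  obtain ⟨N, hN⟩ := hunion.bddAbove
  obtain ⟨a, ha, v, hvK, t, htK, hv, hmv, ht, htc, htrue⟩ := hbig N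
  have h1 := hN (Set.mem_biUnion (x := ((v, t) : ℕ × ℕ)) (by
    refine ⟨?_, hmv, htc⟩
    rw [mem_product, mem_Icc, mem_Icc]
    exact ⟨⟨hv, hvK⟩, ht, htK⟩) htrue)
  omega

/-- **Infinite sets of pairwise coprime integers.** -/
theorem infinite_sets (m : ℕ) (hm : 0 < m) : ∃ K : ℕ, ∀ c : ℤ, c ≠ 0 → IsCoprime (m : ℤ) c →
    ∀ A : Set ℕ, (∀ x ∈ A, 0 < x ∧ IsCoprime (x : ℤ) c) →
    (∀ x ∈ A, ∀ p : ℕ, p.Prime → p ∣ x → K < p) → (∀ x ∈ A, ∀ y ∈ A, x ≠ y → Nat.Coprime x y) →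
    {b ∈ A | ¬ ∃ u v t : ℕ, 0 < u ∧ u ≤ K ∧ 0 < v ∧ v ≤ K ∧ m ∣ v ∧ 0 < t ∧ t ≤ K ∧
      (∀ p : ℕ, p.Prime → p ∣ t → (p : ℤ) ∣ c) ∧
      {a ∈ A | TrueCase (u * a) (v * b) (c * t)}.Infinite}.Finite := by
  classical
  obtain ⟨k, hk, H⟩ := link_core
  obtain ⟨h, hmono, hpos, hdvd⟩ := hb_mod k m hm
  set K : ℕ := ∑ i, h i with hK
  have hhK : ∀ i, h i ≤ K := fun i => single_le_sum (f := h) (fun _ _ => Nat.zero_le _) (mem_univ i)
  refine ⟨K, fun c hc hmc A hA hrough hcop => ?_⟩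
  by_contra hinf
  set Z : Set ℕ := {b ∈ A | ¬ ∃ u v t : ℕ, 0 < u ∧ u ≤ K ∧ 0 < v ∧ v ≤ K ∧ m ∣ v ∧ 0 < t ∧ t ≤ K ∧
      (∀ p : ℕ, p.Prime → p ∣ t → (p : ℤ) ∣ c) ∧
      {a ∈ A | TrueCase (u * a) (v * b) (c * t)}.Infinite} with hZ
  have hZinf : Z.Infinite := hinf
  -- finitely many links
  have hlink : ∀ b ∈ Z, {a ∈ A | Link c m K b a}.Finite := by
    intro b hb
    have hb2 := hb.2
    push Not at hb2
    have hsub : {a ∈ A | Link c m K b a} ⊆ ⋃ q ∈ {q : ℕ × ℕ × ℕ | q ∈ Icc 1 K ×ˢ (Icc 1 K ×ˢ Icc 1 K) ∧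
        m ∣ q.2.1 ∧ (∀ p : ℕ, p.Prime → p ∣ q.2.2 → (p : ℤ) ∣ c)},
        {a ∈ A | TrueCase (q.1 * a) (q.2.1 * b) (c * q.2.2)} := by
      rintro a ⟨ha, u, v, t, hu, huK, hv, hvK, hmv, ht, htK, htc, htrue⟩
      refine Set.mem_biUnion (x := ((u, v, t) : ℕ × ℕ × ℕ)) ?_ ⟨ha, htrue⟩
      refine ⟨?_, hmv, htc⟩
      rw [mem_product, mem_product, mem_Icc, mem_Icc, mem_Icc]
      exact ⟨⟨hu, huK⟩, ⟨hv, hvK⟩, ht, htK⟩
    refine Set.Finite.subset (Set.Finite.biUnion ((Finset.finite_toSet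
      (Icc 1 K ×ˢ (Icc 1 K ×ˢ Icc 1 K))).subset fun q hq => hq.1) ?_) hsub
    rintro ⟨u, v, t⟩ ⟨hq, hmv, htc⟩
    rw [mem_product, mem_product, mem_Icc, mem_Icc, mem_Icc] at hq
    exact hb2 u v t hq.1.1 hq.1.2 hq.2.1.1 hq.2.1.2 hmv hq.2.2.1 hq.2.2.2 htc
  -- a family without links
  have hsel : ∀ r : ℕ, ∃ z : ℕ → ℕ, (∀ i < r, z i ∈ Z) ∧ ∀ i j, i < j → j < r →
      z i ≠ z j ∧ ¬ Link c m K (z i) (z j) := by
    intro r
    induction r with
    | zero => exact ⟨fun _ => 0, fun i hi => absurd hi (by omega), fun i j _ hj => absurd hj (by omega)⟩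
    | succ r ih =>
      obtain ⟨z, hz1, hz2⟩ := ih
      have hfin : (⋃ i ∈ (range r : Set ℕ), ({z i} ∪ {a ∈ A | Link c m K (z i) a})).Finite := by
        refine Set.Finite.biUnion (Finset.finite_toSet _) fun i hi => ?_
        exact (Set.finite_singleton _).union (hlink _ (hz1 i (mem_range.1 hi)))
      obtain ⟨x, hxZ, hx⟩ := hZinf.exists_notMem_finite hfin
      refine ⟨Function.update z r x, ?_, ?_⟩
      · intro i hi
        by_cases hir : i = r
        · subst hir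
          rw [Function.update_self]
          exact hxZ
        · rw [Function.update_of_ne hir]
          exact hz1 i (by omega)
      · intro i j hij hj
        have hir : i ≠ r := by omega
        rw [Function.update_of_ne hir]
        by_cases hjr : j = r
        · subst hjr
          rw [Function.update_self]
          have h1 : x ∉ ({z i} ∪ {a ∈ A | Link c m K (z i) a} : Set ℕ) := fun h2 =>
            hx (Set.mem_biUnion (mem_coe.2 (mem_range.2 hij)) h2)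
          exact ⟨fun h2 => h1 (Or.inl h2.symm), fun h2 => h1 (Or.inr ⟨hxZ.1, h2⟩)⟩
        · rw [Function.update_of_ne hjr]
          exact hz2 i j hij (by omega)
  obtain ⟨z, hz1, hz2⟩ := hsel k
  have hzA : ∀ i : Fin k, z i ∈ A := fun i => (hz1 i i.2).1
  obtain ⟨i, j, hij, hl⟩ := H c hc m K h hmono hpos hdvd hhK hmc (fun i => z i)
    (fun i => (hA _ (hzA i)).1) (fun i => (hA _ (hzA i)).2) (by
      intro i j hij
      rcases lt_or_gt_of_ne hij with h1 | h1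
      · exact hcop _ (hzA i) _ (hzA j) (hz2 i j h1 j.2).1
      · exact (hcop _ (hzA j) _ (hzA i) (hz2 j i h1 i.2).1).symm)
    (fun i l => by
      by_contra hcon
      obtain ⟨p, hp, h1, h2⟩ := Nat.Prime.not_coprime_iff_dvd.1 hcon
      have h3 := hrough _ (hzA i) p hp h1
      have h4 := Nat.le_of_dvd (hpos l) h2
      have h5 := hhK l
      omega)
  exact (hz2 i j hij j.2).2 hl

end Pool.Agent.helper85.QC
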