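import Pool.Agent.helper85.QC.Pairs

/-!
# Links with prescribed divisors of both factors
-/

namespace Pool.Agent.helper85.QC

open Finset Pool.Agent.helper39.MT Pool.Agent.helper85.FC

/-- `y` and `x` occur, up to factors `u, v ≤ K` with `m₂ ∣ u`, `m₁ ∣ v`, and `c` up to a factor
`t ≤ K` composed of primes dividing `c`, in the true case `(u y, v x, c t)`. -/
def Link2 (c : ℤ) (m₁ m₂ K x y : ℕ) : Prop :=
  ∃ u v t : ℕ, 0 < u ∧ u ≤ K ∧ m₂ ∣ u ∧ 0 < v ∧ v ≤ K ∧ m₁ ∣ v ∧ 0 < t ∧ t ≤ K ∧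
    (∀ p : ℕ, p.Prime → p ∣ t → (p : ℤ) ∣ c) ∧ TrueCase (u * y) (v * x) (c * t)

/-- two values give a link. -/
lemma core_pair2 {c : ℤ} (hc : c ≠ 0) {m₁ m₂ K h₁ h₂ A₁ A₂ : ℕ} (hlt : h₁ < h₂) (h₁0 : 0 < h₁)
    (hd₁ : h₂ - h₁ ∣ h₁) (hm₁ : m₁ ∣ h₁ / (h₂ - h₁)) (hm₂ : m₂ ∣ h₂ / (h₂ - h₁))
    (hmc₁ : IsCoprime (m₁ : ℤ) c) (hmc₂ : IsCoprime (m₂ : ℤ) c) (hK₂ : h₂ ≤ K)
    (hA₁ : 0 < A₁) (hA₂ : 0 < A₂) (hA₁h : Nat.Coprime A₁ h₂) (hA₂h : Nat.Coprime A₂ h₁)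
    (hAA : Nat.Coprime A₁ A₂)
    (hsol : InfSol (cf c.natAbs h₂ * A₂) (cf c.natAbs h₁ * A₁) (c * h₂ - c * h₁)) :
    Link2 c m₁ m₂ K A₁ A₂ := by
  classical
  have hC : 0 < c.natAbs := Int.natAbs_pos.2 hc
  set C := c.natAbs with hCdef
  obtain ⟨g, hg⟩ : ∃ g, g = h₂ - h₁ := ⟨_, rfl⟩
  rw [← hg] at hd₁ hm₁ hm₂
  have hg0 : 0 < g := by omega
  obtain ⟨x, rfl⟩ := hd₁
  rw [Nat.mul_div_cancel_left _ hg0] at hm₁
  have hy : h₂ = g * (x + 1) := by rw [mul_add, mul_one]; omega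
  subst hy
  rw [Nat.mul_div_cancel_left _ hg0] at hm₂
  have hx0 : 0 < x := Nat.pos_of_mul_pos_left h₁0
  have hx1 : 0 < x + 1 := Nat.succ_pos x
  have hsol' : InfSol (cf C (x + 1) * A₂) (cf C x * A₁) (c * cs C g) := by
    apply InfSol.cancel' (cf_pos (C := C) hg0)
    have e1 : cf C g * (cf C (x + 1) * A₂) = cf C (g * (x + 1)) * A₂ := by
      rw [cf_mul hC hg0 hx1]; ring
    have e2 : cf C g * (cf C x * A₁) = cf C (g * x) * A₁ := by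
      rw [cf_mul hC hg0 hx0]; ring
    have e3 : (cf C g : ℤ) * (c * cs C g) = c * ((g * (x + 1) : ℕ) : ℤ) - c * ((g * x : ℕ) : ℤ) := by
      have h1 : ((cf C g * cs C g : ℕ) : ℤ) = g := by rw [cf_mul_cs]
      push_cast at h1 ⊢
      linear_combination c * h1
    rw [e1, e2, e3]
    exact hsol
  have hcop : Nat.Coprime (cf C (x + 1) * A₂) (cf C x * A₁) := by
    refine Nat.Coprime.mul_left (Nat.Coprime.mul_right ?_ ?_) (Nat.Coprime.mul_right ?_ ?_)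
    · have h1 : Nat.Coprime (x + 1) x := by simp
      exact (h1.coprime_dvd_left (cf_dvd C (x + 1))).coprime_dvd_right (cf_dvd C x)
    · exact (hA₁h.symm.coprime_dvd_left ((cf_dvd C (x + 1)).trans (Dvd.intro_left g rfl)))
    · exact (hA₂h.coprime_dvd_right ((cf_dvd C x).trans (Dvd.intro_left g rfl)))
    · exact hAA.symm
  have ht0 : 0 < cs C g := cs_pos hg0
  have hct : c * (cs C g : ℤ) ≠ 0 := mul_ne_zero hc (by exact_mod_cast ht0.ne')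
  have ha0 := Nat.mul_pos (cf_pos (C := C) hx1) hA₂
  have hb0 := Nat.mul_pos (cf_pos (C := C) hx0) hA₁
  have hcond := InfSol.conditions ha0 hb0 hct hcop hsol'
  have hxK : x + 1 ≤ K := (Nat.le_mul_of_pos_left _ hg0).trans hK₂
  have key : ∀ m z : ℕ, IsCoprime (m : ℤ) c → m ∣ z → m ∣ cf C z := by
    intro m z hmc hmz
    have h1 : Nat.Coprime m (cs C z) := by
      by_contra hcon
      obtain ⟨p, hp, h1, h2⟩ := Nat.Prime.not_coprime_iff_dvd.1 hcon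
      have h3 := cs_prime hp h2
      have hpZ : Prime (p : ℤ) := Nat.prime_iff_prime_int.1 hp
      exact hpZ.not_isUnit (hmc.isUnit_of_dvd' (by exact_mod_cast h1) (Int.natCast_dvd.2 h3))
    refine h1.dvd_of_dvd_mul_right ?_
    rw [cf_mul_cs]
    exact hmz
  refine ⟨cf C (x + 1), cf C x, cs C g, cf_pos hx1, ?_, key _ _ hmc₂ hm₂, cf_pos hx0, ?_,
    key _ _ hmc₁ hm₁, ht0, ?_, ?_, ?_⟩
  · exact (Nat.le_of_dvd hx1 (cf_dvd C _)).trans hxK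
  · exact (Nat.le_of_dvd hx0 (cf_dvd C _)).trans (by omega)
  · refine (Nat.le_of_dvd hg0 (cs_dvd C g)).trans ((Nat.le_mul_of_pos_right _ hx1).trans hK₂)
  · intro p hp hd
    exact Int.natCast_dvd.2 (cs_prime hp hd)
  · refine ⟨ha0, hb0, hct, hcop, hcond.1, hcond.2.1, ?_, hsol'⟩
    rintro ⟨h1, h2, h3⟩
    exact hcond.2.2 ⟨by exact_mod_cast h1, by exact_mod_cast h2, h3⟩

/-- the conditions on the set `h`. -/
def HB2 {n : ℕ} (m₁ m₂ : ℕ) (h : Fin n → ℕ) : Prop :=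
  StrictMono h ∧ (∀ i, 0 < h i) ∧ ∀ i j, i < j → (h j - h i) ∣ h i ∧ m₁ ∣ h i / (h j - h i) ∧
    m₂ ∣ h j / (h j - h i)

/-- links among five groups. -/
theorem link_cluster2 : ∃ kc : ℕ, 1 ≤ kc ∧ ∀ c : ℤ, c ≠ 0 → ∀ (m₁ m₂ K : ℕ) (h : Fin (5 * kc) → ℕ),
    HB2 m₁ m₂ h → (∀ i, h i ≤ K) → IsCoprime (m₁ : ℤ) c → IsCoprime (m₂ : ℤ) c →
    ∀ f : Fin 5 × Fin kc → ℕ, (∀ i, 0 < f i) →
    (∀ i, IsCoprime (f i : ℤ) c) → (∀ i j, i ≠ j → Nat.Coprime (f i) (f j)) →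
    (∀ i l, Nat.Coprime (f i) (h l)) →
    ∃ x y : Fin 5 × Fin kc, x.1 < y.1 ∧ Link2 c m₁ m₂ K (f y) (f x) := by
  obtain ⟨kc, hkc, H⟩ := two_primes_cluster
  refine ⟨kc, hkc, fun c hc m₁ m₂ K h hh hK hmc₁ hmc₂ f hf hfc hff hfh => ?_⟩
  obtain ⟨hmono, hpos, hdvd⟩ := hh
  have hC : 0 < c.natAbs := Int.natAbs_pos.2 hc
  set B : Fin (5 * kc) → Fin 5 × Fin kc := fun i =>
    ((finProdFinEquiv.symm i).1.rev, (finProdFinEquiv.symm i).2) with hB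
  have hBinj : Function.Injective B := by
    intro i j hij
    rw [hB] at hij
    simp only [Prod.mk.injEq, Fin.rev_inj] at hij
    exact finProdFinEquiv.symm.injective (Prod.ext hij.1 hij.2)
  set A : Fin (5 * kc) → ℕ := fun i => f (B i) with hA
  have hcl : ∀ i j : Fin (5 * kc), i < j → cl i ≠ cl j → cl i < cl j := by
    intro i j hij hne
    refine lt_of_le_of_ne ?_ hne
    show (finProdFinEquiv.symm i).1 ≤ (finProdFinEquiv.symm j).1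
    rw [finProdFinEquiv_symm_apply, finProdFinEquiv_symm_apply]
    rw [Fin.le_iff_val_le_val, Fin.coe_divNat, Fin.coe_divNat]
    exact Nat.div_le_div_right hij.le
  obtain ⟨i, j, hij, hs⟩ := H (fun i => cf c.natAbs (h i) * A i) (fun i => c * (h i : ℤ))
    (fun i => Nat.mul_pos (cf_pos (hpos i)) (hf _)) (by
      intro i j hij
      have h1 : (h i : ℤ) = h j := mul_left_cancel₀ hc hij
      exact hmono.injective (by exact_mod_cast h1))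
    (fun p hp => core_local h hpos hmono (fun i j hij => (hdvd i j hij).1) c hc A (fun i => hf _)
      (fun i l => hfh _ l) (fun i => hfc _) (fun i j hij => hff _ _ (fun h0 => hij (hBinj h0))) p hp)
  have hne : i ≠ j := fun h0 => hij (by rw [h0])
  rcases lt_or_gt_of_ne hne with hlt | hlt
  · refine ⟨B j, B i, Fin.rev_lt_rev.2 (hcl i j hlt hij), ?_⟩
    have h1 := hs.swap'
    rw [neg_sub] at h1
    exact core_pair2 hc (hmono hlt) (hpos i) (hdvd i j hlt).1 (hdvd i j hlt).2.1 (hdvd i j hlt).2.2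
      hmc₁ hmc₂ (hK j) (hf _) (hf _)
      (hfh _ j) (hfh _ i) (hff _ _ (fun h0 => hne (hBinj h0))) h1
  · refine ⟨B i, B j, Fin.rev_lt_rev.2 (hcl j i hlt hij.symm), ?_⟩
    exact core_pair2 hc (hmono hlt) (hpos j) (hdvd j i hlt).1 (hdvd j i hlt).2.1 (hdvd j i hlt).2.2
      hmc₁ hmc₂ (hK i) (hf _) (hf _)
      (hfh _ i) (hfh _ j) (hff _ _ (fun h0 => hne.symm (hBinj h0))) hs

end Pool.Agent.helper85.QC
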