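import Pool.Agent.helper85.QC.Avg
import Pool.Agent.helper85.QC.Link2
import Pool.Agent.helper44.MT.FI2

/-!
# Heath-Brown sets with prescribed divisors of both quotients
-/

namespace Pool.Agent.helper85.QC

open Finset Real Pool.Agent.helper39.MT

/-- the product of the differences. -/
def Del (r : ℕ) (d : ℕ → ℕ) : ℕ := ∏ j ∈ range r, ∏ i ∈ range j, (d j - d i)

lemma dvd_Del {r : ℕ} {d : ℕ → ℕ} {i j : ℕ} (hij : i < j) (hj : j < r) : (d j - d i) ∣ Del r d :=
  (dvd_prod_of_mem (fun i => d j - d i) (mem_range.2 hij)).trans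
    (dvd_prod_of_mem (fun j => ∏ i ∈ range j, (d j - d i)) (mem_range.2 hj))

lemma Del_pos {r : ℕ} {d : ℕ → ℕ} (h : ∀ i j, i < j → j < r → d i < d j) : 0 < Del r d := by
  refine prod_pos fun j hj => prod_pos fun i hi => ?_
  rw [mem_range] at hi hj
  have := h i j hi hj
  omega

lemma exists_pair_of_dvd_Del {r l : ℕ} {d : ℕ → ℕ} (hl : l.Prime) (h : l ∣ Del r d) :
    ∃ i j, i < j ∧ j < r ∧ l ∣ d j - d i := by
  obtain ⟨j, hj, h1⟩ := (Prime.dvd_finsetProd_iff hl.prime _).1 h
  obtain ⟨i, hi, h2⟩ := (Prime.dvd_finsetProd_iff hl.prime _).1 h1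
  exact ⟨i, j, mem_range.1 hi, mem_range.1 hj, h2⟩

/-- a residue which avoids `r < l` residues. -/
lemma exists_avoid {l r : ℕ} (hr : r < l) (d : ℕ → ℕ) :
    ∃ a : ℕ, ∀ i < r, ¬ (l : ℤ) ∣ (a : ℤ) - d i := by
  by_contra hcon
  push Not at hcon
  have h1 : ∀ a : ℕ, ∃ i, i < r ∧ (l : ℤ) ∣ (a : ℤ) - d i := hcon
  choose f hf1 hf2 using h1
  have h2 : Set.MapsTo f (range (r + 1) : Finset ℕ) (range r : Finset ℕ) := by
    intro a _
    exact mem_coe.2 (mem_range.2 (hf1 a))
  obtain ⟨a, ha, b, hb, hab, hfab⟩ := exists_ne_map_eq_of_card_lt_of_maps_to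
    (s := range (r + 1)) (t := range r) (by simp) h2
  have h3 : (l : ℤ) ∣ (a : ℤ) - b := by
    have h4 := dvd_sub (hf2 a) (hf2 b)
    rw [hfab] at h4
    rwa [show (a : ℤ) - d (f b) - ((b : ℤ) - d (f b)) = a - b by ring] at h4
  rw [mem_range] at ha hb
  apply hab
  have h5 : |(a : ℤ) - b| < l := by
    rw [abs_lt]
    constructor <;> omega
  have h6 := Int.eq_zero_of_abs_lt_dvd h3 h5
  omega

/-- **differences with prescribed valuations at the small primes.** -/
theorem differences {k y s : ℕ} (hky : k < y) (hs : 0 < s) (w : ℕ → ℕ → ℕ) :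
    ∀ r ≤ k, ∃ d : ℕ → ℕ, (∀ i j, i < j → j < r → d i < d j) ∧
      (∀ i < r, ∀ p : ℕ, p.Prime → p ≤ y → ((p ^ s : ℕ) : ℤ) ∣ (d i : ℤ) - (p ^ w p i : ℕ)) ∧
      (∀ l : ℕ, l.Prime → y < l → ∀ i j i' j', i < j → j < r → i' < j' → j' < r →
        l ∣ d j - d i → l ∣ d j' - d i' → i = i' ∧ j = j') ∧
      sg y (Del r d) ≤ r * ((k + 1) / y) := by
  intro r
  induction r with
  | zero =>
    intro _
    refine ⟨fun _ => 0, fun i j _ hj => absurd hj (by omega), fun i hi => absurd hi (by omega),
      fun l _ _ i j i' j' _ hj => absurd hj (by omega), ?_⟩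
    simp [sg, Del]
  | succ r ih =>
    intro hr
    obtain ⟨d, hmono, hval, huniq, hsg⟩ := ih (by omega)
    have hy0 : 0 < y := by omega
    have hΔ := Del_pos hmono
    -- the conditions on the new element
    set S : Finset ℕ := {p ∈ range (y + 1) | p.Prime} ∪ (Del r d).primeFactors with hS
    have hSp : ∀ p ∈ S, p.Prime := by
      intro p hp
      rw [hS, mem_union, mem_filter] at hp
      rcases hp with h | h
      · exact h.2
      · exact Nat.prime_of_mem_primeFactors h
    have hav : ∀ l : ℕ, ∃ a : ℕ, y < l → ∀ i < r, ¬ (l : ℤ) ∣ (a : ℤ) - d i := by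
      intro l
      by_cases h : y < l
      · obtain ⟨a, ha⟩ := exists_avoid (l := l) (r := r) (by omega) d
        exact ⟨a, fun _ => ha⟩
      · exact ⟨0, fun h' => absurd h' h⟩
    choose av hav using hav
    obtain ⟨v, hv⟩ := co1_crt_int S hSp s (fun p => if p ≤ y then ((p ^ w p r : ℕ) : ℤ) else av p)
    set Q : ℕ := ∏ p ∈ S, p ^ s with hQ
    have hQ0 : 0 < Q := prod_pos fun p hp => pow_pos (hSp p hp).pos _
    have hpQ : ∀ p ∈ S, p ^ s ∣ Q := fun p hp => dvd_prod_of_mem (fun p => p ^ s) hp
    set B : ℕ := ∑ i ∈ range r, d i + 1 with hB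
    have hdB : ∀ i < r, d i < B := fun i hi => by
      have := single_le_sum (f := d) (fun _ _ => Nat.zero_le _) (mem_range.2 hi)
      omega
    have hBQ : B ≤ Q * B := Nat.le_mul_of_pos_left _ hQ0
    obtain ⟨t, ht0, ht⟩ := avg (r := r) hy0 hQ0 (fun i => v + Q * B - d i) (fun i hi => by
      have := hdB i hi
      omega)
    set x : ℕ := Q * t + (v + Q * B) with hx
    have hxd : ∀ i < r, d i < x := fun i hi => by
      have := hdB i hi
      omega
    have hxmod : ∀ p ∈ S, ((p ^ s : ℕ) : ℤ) ∣ (x : ℤ) -
        (if p ≤ y then ((p ^ w p r : ℕ) : ℤ) else av p) := by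
      intro p hp
      have h1 : ((p ^ s : ℕ) : ℤ) ∣ (Q : ℤ) := by exact_mod_cast hpQ p hp
      have h2 := (h1.mul_right ((t : ℤ) + B)).add (hv p hp)
      have e : (x : ℤ) - (if p ≤ y then ((p ^ w p r : ℕ) : ℤ) else av p) =
          (Q : ℤ) * (t + B) + ((v : ℤ) - (if p ≤ y then ((p ^ w p r : ℕ) : ℤ) else av p)) := by
        rw [hx]
        push_cast
        ring
      rw [e]
      exact h2
    -- the new element avoids the old ones modulo the primes of `S` above `y`
    have hnew : ∀ l ∈ S, y < l → ∀ i < r, ¬ l ∣ x - d i := by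
      intro l hl hyl i hi hd
      have h1 := hxmod l hl
      rw [if_neg (by omega)] at h1
      have h2 : (l : ℤ) ∣ (x : ℤ) - av l := by
        refine dvd_trans ?_ h1
        exact_mod_cast dvd_pow_self l hs.ne'
      have h3 : (l : ℤ) ∣ (x : ℤ) - d i := by
        have h4 : ((x - d i : ℕ) : ℤ) = (x : ℤ) - d i := by
          rw [Nat.cast_sub (hxd i hi).le]
        rw [← h4]
        exact_mod_cast hd
      have h4 := dvd_sub h3 h2
      rw [show (x : ℤ) - d i - ((x : ℤ) - av l) = (av l : ℤ) - d i by ring] at h4
      exact hav l hyl i hi h4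
    have hDel : ∀ l : ℕ, l.Prime → ∀ i j, i < j → j < r → l ∣ d j - d i → l ∈ S := by
      intro l hl i j hij hj hd
      rw [hS, mem_union]
      right
      rw [Nat.mem_primeFactors]
      exact ⟨hl, hd.trans (dvd_Del hij hj), hΔ.ne'⟩
    refine ⟨Function.update d r x, ?_, ?_, ?_, ?_⟩
    · intro i j hij hj
      rw [Function.update_of_ne (by omega : i ≠ r)]
      by_cases hjr : j = r
      · subst hjr
        rw [Function.update_self]
        exact hxd i hij
      · rw [Function.update_of_ne hjr]
        exact hmono i j hij (by omega)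
    · intro i hi p hp hpy
      by_cases hir : i = r
      · subst hir
        rw [Function.update_self]
        have h1 := hxmod p (by
          rw [hS, mem_union, mem_filter, mem_range]
          exact Or.inl ⟨by omega, hp⟩)
        rwa [if_pos hpy] at h1
      · rw [Function.update_of_ne hir]
        exact hval i (by omega) p hp hpy
    · intro l hl hyl i j i' j' hij hj hij' hj' h1 h2
      rw [Function.update_of_ne (by omega : i ≠ r)] at h1
      rw [Function.update_of_ne (by omega : i' ≠ r)] at h2
      by_cases hjr : j = r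
      · subst hjr
        rw [Function.update_self] at h1
        by_cases hjr' : j' = j
        · subst hjr'
          rw [Function.update_self] at h2
          refine ⟨?_, rfl⟩
          by_contra hne
          have h3 : (l : ℤ) ∣ (d i' : ℤ) - d i := by
            have e1 : ((x - d i : ℕ) : ℤ) = (x : ℤ) - d i := by rw [Nat.cast_sub (hxd i hij).le]
            have e2 : ((x - d i' : ℕ) : ℤ) = (x : ℤ) - d i' := by rw [Nat.cast_sub (hxd i' hij').le]
            have h4 : (l : ℤ) ∣ ((x - d i : ℕ) : ℤ) := by exact_mod_cast h1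
            have h5 : (l : ℤ) ∣ ((x - d i' : ℕ) : ℤ) := by exact_mod_cast h2
            rw [e1] at h4
            rw [e2] at h5
            have h6 := dvd_sub h4 h5
            rwa [show (x : ℤ) - d i - ((x : ℤ) - d i') = (d i' : ℤ) - d i by ring] at h6
          rcases lt_or_gt_of_ne hne with hlt | hlt
          · have h4 : l ∣ d i' - d i := by
              have e1 : ((d i' - d i : ℕ) : ℤ) = (d i' : ℤ) - d i := by
                rw [Nat.cast_sub (hmono i i' hlt (by omega)).le]
              rw [← e1] at h3
              exact_mod_cast h3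
            exact hnew l (hDel l hl i i' hlt (by omega) h4) hyl i hij h1
          · have h4 : l ∣ d i - d i' := by
              have e1 : ((d i - d i' : ℕ) : ℤ) = -((d i' : ℤ) - d i) := by
                rw [Nat.cast_sub (hmono i' i hlt (by omega)).le]
                ring
              have h5 := (dvd_neg.2 h3)
              rw [← e1] at h5
              exact_mod_cast h5
            exact hnew l (hDel l hl i' i hlt (by omega) h4) hyl i hij h1
        · rw [Function.update_of_ne hjr'] at h2
          exact absurd h1 (hnew l (hDel l hl i' j' hij' (by omega) h2) hyl i hij)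
      · rw [Function.update_of_ne hjr] at h1
        by_cases hjr' : j' = r
        · subst hjr'
          rw [Function.update_self] at h2
          exact absurd h2 (hnew l (hDel l hl i j hij (by omega) h1) hyl i' hij')
        · rw [Function.update_of_ne hjr'] at h2
          exact huniq l hl hyl i j i' j' hij (by omega) hij' (by omega) h1 h2
    · have e1 : Del (r + 1) (Function.update d r x) = Del r d * ∏ i ∈ range r, (x - d i) := by
        unfold Del
        rw [prod_range_succ]
        congr 1
        · refine prod_congr rfl fun j hj => prod_congr rfl fun i hi => ?_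
          rw [mem_range] at hi hj
          rw [Function.update_of_ne (by omega : j ≠ r), Function.update_of_ne (by omega : i ≠ r)]
        · refine prod_congr rfl fun i hi => ?_
          rw [mem_range] at hi
          rw [Function.update_self, Function.update_of_ne (by omega : i ≠ r)]
      have hprod0 : ∏ i ∈ range r, (x - d i) ≠ 0 := by
        refine (prod_pos fun i hi => ?_).ne'
        have := hxd i (mem_range.1 hi)
        omega
      rw [e1]
      refine (sg_mul_le y hΔ.ne' hprod0).trans ?_
      have h1 : sg y (∏ i ∈ range r, (x - d i)) ≤ (r + 1) / y := by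
        refine le_trans ?_ ht
        have e2 : ∏ i ∈ range r, (Q * t + (v + Q * B - d i)) = ∏ i ∈ range r, (x - d i) := by
          refine prod_congr rfl fun i hi => ?_
          have := hdB i (mem_range.1 hi)
          rw [hx]
          omega
        rw [e2]
        unfold sg sgD
        refine sum_le_sum_of_subset_of_nonneg ?_ fun p _ _ => by positivity
        intro p hp
        rw [mem_filter] at hp ⊢
        refine ⟨hp.1, hp.2, fun hpQ' => ?_⟩
        have hpp := Nat.prime_of_mem_primeFactors hp.1
        -- `p` belongs to `S`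
        obtain ⟨q, hq, hpq⟩ := (Prime.dvd_finsetProd_iff hpp.prime _).1 hpQ'
        have h2 : p = q := (Nat.prime_dvd_prime_iff_eq hpp (hSp q hq)).1 (hpp.dvd_of_dvd_pow hpq)
        subst h2
        obtain ⟨i, hi, h3⟩ := (Prime.dvd_finsetProd_iff hpp.prime _).1 (Nat.dvd_of_mem_primeFactors hp.1)
        exact hnew p hq hp.2 i (mem_range.1 hi) h3
      have hyr : (0 : ℝ) < y := by exact_mod_cast hy0
      have h2 : ((r : ℝ) + 1) / y ≤ (k + 1) / y := by
        have : (r : ℝ) ≤ k := by exact_mod_cast (by omega : r ≤ k)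
        gcongr
      push_cast
      linarith

end Pool.Agent.helper85.QC
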