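import Pool.Agent.helper85.QC.HBtwo

/-!
# Heath-Brown sets with prescribed divisors of both quotients: the set itself
-/

namespace Pool.Agent.helper85.QC

open Finset Real Pool.Agent.helper39.MT

/-- the prescribed valuations. -/
def wv (k m₁ m₂ p i : ℕ) : ℕ :=
  if p ∣ m₁ then (k - 1 - i) * (m₁.factorization p + 1) else i * (m₂.factorization p + 1)

lemma wv_lt {k m₁ m₂ p i : ℕ} (hm₁ : 0 < m₁) (hm₂ : 0 < m₂) (hi : i < k) :
    wv k m₁ m₂ p i < k * (m₁ + m₂ + 1) + 1 := by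
  have h1 := Nat.factorization_lt (n := m₁) p hm₁.ne'
  have h2 := Nat.factorization_lt (n := m₂) p hm₂.ne'
  unfold wv
  split_ifs
  · have h3 : (k - 1 - i) * (m₁.factorization p + 1) ≤ k * (m₁ + m₂ + 1) :=
      Nat.mul_le_mul (by omega) (by omega)
    omega
  · have h3 : i * (m₂.factorization p + 1) ≤ k * (m₁ + m₂ + 1) :=
      Nat.mul_le_mul (by omega) (by omega)
    omega

/-- the valuations are far apart. -/
lemma wv_ord {k m₁ m₂ p i j : ℕ} (hm₁ : 0 < m₁) (hm₂ : 0 < m₂) (hcop : Nat.Coprime m₁ m₂)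
    (hp : p.Prime) (hij : i < j) (hj : j < k) :
    wv k m₁ m₂ p i ≠ wv k m₁ m₂ p j ∧
    min (wv k m₁ m₂ p i) (wv k m₁ m₂ p j) + m₁.factorization p ≤ wv k m₁ m₂ p i ∧
    min (wv k m₁ m₂ p i) (wv k m₁ m₂ p j) + m₂.factorization p ≤ wv k m₁ m₂ p j := by
  unfold wv
  split_ifs with h
  · have h2 : m₂.factorization p = 0 := by
      refine Nat.factorization_eq_zero_of_not_dvd fun h3 => ?_
      have h4 := Nat.dvd_gcd h h3
      rw [hcop] at h4
      exact hp.one_lt.ne' (Nat.dvd_one.1 h4)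
    obtain ⟨a, ha⟩ : ∃ a, a = m₁.factorization p := ⟨_, rfl⟩
    rw [← ha, h2]
    obtain ⟨n, hn⟩ : ∃ n, k - 1 - i = (k - 1 - j) + (n + 1) := ⟨j - i - 1, by omega⟩
    rw [hn]
    have e : (k - 1 - j + (n + 1)) * (a + 1) = (k - 1 - j) * (a + 1) + (n * (a + 1) + a + 1) := by ring
    rw [e]
    refine ⟨by omega, ?_, ?_⟩
    · rw [min_eq_right (by omega)]
      omega
    · rw [min_eq_right (by omega)]
      omega
  · have h2 : m₁.factorization p = 0 := Nat.factorization_eq_zero_of_not_dvd h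
    obtain ⟨a, ha⟩ : ∃ a, a = m₂.factorization p := ⟨_, rfl⟩
    rw [← ha, h2]
    obtain ⟨n, hn⟩ : ∃ n, j = i + (n + 1) := ⟨j - i - 1, by omega⟩
    rw [hn]
    have e : (i + (n + 1)) * (a + 1) = i * (a + 1) + (n * (a + 1) + a + 1) := by ring
    rw [e]
    refine ⟨by omega, ?_, ?_⟩
    · rw [min_eq_left (by omega)]
      omega
    · rw [min_eq_left (by omega)]
      omega

/-- **Heath-Brown sets with prescribed divisors of both quotients.** -/
theorem hb2_small (k : ℕ) {η : ℝ} (hη : 0 < η) : ∃ y₀ : ℕ, ∀ y ≥ y₀, ∀ m₁ m₂ : ℕ, 0 < m₁ → 0 < m₂ →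
    Nat.Coprime m₁ m₂ → (∀ p : ℕ, p.Prime → p ∣ m₁ * m₂ → p ≤ y) →
    ∃ h : Fin k → ℕ, HB2 m₁ m₂ h ∧ sg y (∏ i, h i) ≤ η := by
  classical
  obtain ⟨y₀, hy₀⟩ := exists_nat_ge (((k + 1) * (k + 1) : ℝ) / η)
  refine ⟨y₀ + k + 1, fun y hy m₁ m₂ hm₁ hm₂ hcop hmy => ?_⟩
  have hky : k < y := by omega
  have hy0 : 0 < y := by omega
  have hyr : (0 : ℝ) < y := by exact_mod_cast hy0
  set s : ℕ := k * (m₁ + m₂ + 1) + 1 with hs
  obtain ⟨d, hmono, hval, huniq, hsg⟩ := differences hky (s := s) (by omega) (wv k m₁ m₂) k le_rfl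
  have hΔ := Del_pos hmono
  set s' : ℕ := s + ∑ i ∈ range k, d i with hs'
  have hds' : ∀ i < k, d i ≤ s' := fun i hi =>
    (single_le_sum (f := d) (fun _ _ => Nat.zero_le _) (mem_range.2 hi)).trans (Nat.le_add_left _ _)
  -- the shift
  set S : Finset ℕ := {p ∈ range (y + 1) | p.Prime} ∪ (Del k d).primeFactors with hS
  have hSp : ∀ p ∈ S, p.Prime := by
    intro p hp
    rw [hS, mem_union, mem_filter] at hp
    rcases hp with h | h
    · exact h.2
    · exact Nat.prime_of_mem_primeFactors h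
  have hpair : ∀ l : ℕ, ∃ q : ℕ × ℕ, l.Prime → l ∣ Del k d → q.1 < q.2 ∧ q.2 < k ∧ l ∣ d q.2 - d q.1 := by
    intro l
    by_cases h : l.Prime ∧ l ∣ Del k d
    · obtain ⟨i, j, h1, h2, h3⟩ := exists_pair_of_dvd_Del h.1 h.2
      exact ⟨(i, j), fun _ _ => ⟨h1, h2, h3⟩⟩
    · exact ⟨(0, 0), fun h1 h2 => absurd ⟨h1, h2⟩ h⟩
  choose pr hpr using hpair
  obtain ⟨v, hv⟩ := co1_crt_int S hSp s' (fun p => if p ≤ y then 0 else -(d (pr p).1 : ℤ))
  set Q : ℕ := ∏ p ∈ S, p ^ s' with hQ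
  have hQ0 : 0 < Q := prod_pos fun p hp => pow_pos (hSp p hp).pos _
  have hpQ : ∀ p ∈ S, p ^ s' ∣ Q := fun p hp => dvd_prod_of_mem (fun p => p ^ s') hp
  obtain ⟨t, ht0, ht⟩ := avg (r := k) hy0 hQ0 (fun i => v + Q + d i) (fun i hi => by omega)
  set z : ℕ := Q * t + (v + Q) with hz
  have hz0 : 0 < z := by omega
  have hzmod : ∀ p ∈ S, ((p ^ s' : ℕ) : ℤ) ∣ (z : ℤ) - (if p ≤ y then 0 else -(d (pr p).1 : ℤ)) := by
    intro p hp
    have h1 : ((p ^ s' : ℕ) : ℤ) ∣ (Q : ℤ) := by exact_mod_cast hpQ p hp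
    have h2 := (h1.mul_right ((t : ℤ) + 1)).add (hv p hp)
    have e : (z : ℤ) - (if p ≤ y then 0 else -(d (pr p).1 : ℤ)) =
        (Q : ℤ) * (t + 1) + ((v : ℤ) - (if p ≤ y then 0 else -(d (pr p).1 : ℤ))) := by
      rw [hz]
      push_cast
      ring
    rw [e]
    exact h2
  -- small primes
  have hsmall : ∀ p : ℕ, p.Prime → p ≤ y → ∀ i < k, p ^ wv k m₁ m₂ p i ∣ z + d i := by
    intro p hp hpy i hi
    have h1 := hzmod p (by
      rw [hS, mem_union, mem_filter, mem_range]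
      exact Or.inl ⟨by omega, hp⟩)
    rw [if_pos hpy, sub_zero] at h1
    have hw := wv_lt (p := p) hm₁ hm₂ hi
    have h2 : ((p ^ wv k m₁ m₂ p i : ℕ) : ℤ) ∣ (z : ℤ) := by
      refine dvd_trans ?_ h1
      exact_mod_cast pow_dvd_pow p (by omega : wv k m₁ m₂ p i ≤ s')
    have h3 : ((p ^ wv k m₁ m₂ p i : ℕ) : ℤ) ∣ (d i : ℤ) - (p ^ wv k m₁ m₂ p i : ℕ) := by
      refine dvd_trans ?_ (hval i hi p hp hpy)
      exact_mod_cast pow_dvd_pow p (by omega : wv k m₁ m₂ p i ≤ s)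
    have h4 := (h2.add h3).add (dvd_refl ((p ^ wv k m₁ m₂ p i : ℕ) : ℤ))
    have e : (z : ℤ) + ((d i : ℤ) - (p ^ wv k m₁ m₂ p i : ℕ)) + (p ^ wv k m₁ m₂ p i : ℕ) =
        ((z + d i : ℕ) : ℤ) := by push_cast; ring
    rw [e] at h4
    exact_mod_cast h4
  have hgval : ∀ p : ℕ, p.Prime → p ≤ y → ∀ i j, i < j → j < k →
      (d j - d i).factorization p ≤ min (wv k m₁ m₂ p i) (wv k m₁ m₂ p j) := by
    intro p hp hpy i j hij hj
    by_contra hcon
    push Not at hcon
    have hg0 : d j - d i ≠ 0 := by have := hmono i j hij hj; omega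
    obtain ⟨n, hn⟩ : ∃ n, n = min (wv k m₁ m₂ p i) (wv k m₁ m₂ p j) := ⟨_, rfl⟩
    rw [← hn] at hcon
    have hwi := wv_lt (p := p) (i := i) hm₁ hm₂ (by omega : i < k)
    have hwj := wv_lt (p := p) (i := j) hm₁ hm₂ hj
    have h1 : p ^ (n + 1) ∣ d j - d i := (hp.pow_dvd_iff_le_factorization hg0).2 hcon
    have h2 : ((p ^ (n + 1) : ℕ) : ℤ) ∣ (d j : ℤ) - d i := by
      rw [← Nat.cast_sub (hmono i j hij hj).le]
      exact_mod_cast h1
    have h3 : ((p ^ (n + 1) : ℕ) : ℤ) ∣ (d i : ℤ) - (p ^ wv k m₁ m₂ p i : ℕ) := by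
      refine dvd_trans ?_ (hval i (by omega) p hp hpy)
      exact_mod_cast pow_dvd_pow p (by omega : n + 1 ≤ s)
    have h4 : ((p ^ (n + 1) : ℕ) : ℤ) ∣ (d j : ℤ) - (p ^ wv k m₁ m₂ p j : ℕ) := by
      refine dvd_trans ?_ (hval j hj p hp hpy)
      exact_mod_cast pow_dvd_pow p (by omega : n + 1 ≤ s)
    have h5 : ((p ^ (n + 1) : ℕ) : ℤ) ∣ ((p ^ wv k m₁ m₂ p j : ℕ) : ℤ) - (p ^ wv k m₁ m₂ p i : ℕ) := by
      have h6 := (h2.sub h4).add h3
      have e : (d j : ℤ) - d i - ((d j : ℤ) - (p ^ wv k m₁ m₂ p j : ℕ)) +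
          ((d i : ℤ) - (p ^ wv k m₁ m₂ p i : ℕ)) =
          ((p ^ wv k m₁ m₂ p j : ℕ) : ℤ) - (p ^ wv k m₁ m₂ p i : ℕ) := by ring
      rwa [e] at h6
    obtain ⟨hne, -, -⟩ := wv_ord hm₁ hm₂ hcop hp hij hj
    rcases lt_or_gt_of_ne hne with hlt | hlt
    · have hn' : n = wv k m₁ m₂ p i := by rw [hn]; exact min_eq_left hlt.le
      have h7 : ((p ^ (n + 1) : ℕ) : ℤ) ∣ ((p ^ wv k m₁ m₂ p j : ℕ) : ℤ) := by
        exact_mod_cast pow_dvd_pow p (by omega : n + 1 ≤ wv k m₁ m₂ p j)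
      have h8 := (dvd_sub_right h7).1 h5
      have h9 : p ^ (n + 1) ∣ p ^ wv k m₁ m₂ p i := by exact_mod_cast h8
      have := (Nat.pow_dvd_pow_iff_le_right hp.one_lt).1 h9
      omega
    · have hn' : n = wv k m₁ m₂ p j := by rw [hn]; exact min_eq_right hlt.le
      have h7 : ((p ^ (n + 1) : ℕ) : ℤ) ∣ ((p ^ wv k m₁ m₂ p i : ℕ) : ℤ) := by
        exact_mod_cast pow_dvd_pow p (by omega : n + 1 ≤ wv k m₁ m₂ p i)
      have h8 := (dvd_sub_left h7).1 h5
      have h9 : p ^ (n + 1) ∣ p ^ wv k m₁ m₂ p j := by exact_mod_cast h8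
      have := (Nat.pow_dvd_pow_iff_le_right hp.one_lt).1 h9
      omega
  -- large primes
  have hlarge : ∀ l : ℕ, l.Prime → y < l → ∀ i j, i < j → j < k →
      l ^ (d j - d i).factorization l ∣ z + d i ∧ l ^ (d j - d i).factorization l ∣ z + d j := by
    intro l hl hyl i j hij hj
    by_cases hd : l ∣ d j - d i
    · have hlS : l ∈ S := by
        rw [hS, mem_union]
        right
        rw [Nat.mem_primeFactors]
        exact ⟨hl, hd.trans (dvd_Del hij hj), hΔ.ne'⟩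
      obtain ⟨h1, h2, h3⟩ := hpr l hl (hd.trans (dvd_Del hij hj))
      obtain ⟨h4, h5⟩ := huniq l hl hyl _ _ _ _ h1 h2 hij hj h3 hd
      have h6 := hzmod l hlS
      rw [if_neg (by omega), h4, sub_neg_eq_add] at h6
      have h7 : l ^ s' ∣ z + d i := by exact_mod_cast h6
      have hg0 : d j - d i ≠ 0 := by have := hmono i j hij hj; omega
      have h8 : (d j - d i).factorization l ≤ s' := by
        have h9 := Nat.factorization_lt (n := d j - d i) l hg0
        have h10 := hds' j hj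
        omega
      have h9 : l ^ (d j - d i).factorization l ∣ z + d i := (pow_dvd_pow l h8).trans h7
      refine ⟨h9, ?_⟩
      have e : z + d j = (z + d i) + (d j - d i) := by have := hmono i j hij hj; omega
      rw [e]
      exact h9.add (Nat.ordProj_dvd _ _)
    · rw [Nat.factorization_eq_zero_of_not_dvd hd]
      simp
  have hmfac : ∀ m : ℕ, (∀ p : ℕ, p.Prime → p ∣ m → p ≤ y) → ∀ l : ℕ, l.Prime → y < l →
      m.factorization l = 0 := by
    intro m hm l hl hyl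
    refine Nat.factorization_eq_zero_of_not_dvd fun h => ?_
    have := hm l hl h
    omega
  refine ⟨fun i => z + d i, ⟨?_, ?_, ?_⟩, ?_⟩
  · intro i j hij
    have := hmono i j hij j.2
    show z + d i < z + d j
    omega
  · intro i
    show 0 < z + d i
    omega
  · intro i j hij
    show (z + d j - (z + d i)) ∣ z + d i ∧ m₁ ∣ (z + d i) / (z + d j - (z + d i)) ∧
      m₂ ∣ (z + d j) / (z + d j - (z + d i))
    have hlt := hmono i j hij j.2
    rw [Nat.add_sub_add_left]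
    have hg0 : d (j : ℕ) - d (i : ℕ) ≠ 0 := by omega
    have hg0' : 0 < d (j : ℕ) - d (i : ℕ) := by omega
    have hdvd1 : (d (j : ℕ) - d i) * m₁ ∣ z + d i := by
      refine (Nat.factorization_prime_le_iff_dvd (Nat.mul_ne_zero hg0 hm₁.ne') (by omega)).1
        fun p hp => ?_
      rw [Nat.factorization_mul hg0 hm₁.ne', Finsupp.add_apply]
      by_cases hpy : p ≤ y
      · have h1 := hgval p hp hpy i j hij j.2
        have h2 := (wv_ord hm₁ hm₂ hcop hp hij j.2).2.1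
        have h3 := (hp.pow_dvd_iff_le_factorization (by omega)).1 (hsmall p hp hpy i i.2)
        omega
      · push Not at hpy
        rw [hmfac m₁ (fun p hp h => hmy p hp (h.mul_right _)) p hp hpy, add_zero]
        exact (hp.pow_dvd_iff_le_factorization (by omega)).1 (hlarge p hp hpy i j hij j.2).1
    have hdvd2 : (d (j : ℕ) - d i) * m₂ ∣ z + d j := by
      refine (Nat.factorization_prime_le_iff_dvd (Nat.mul_ne_zero hg0 hm₂.ne') (by omega)).1
        fun p hp => ?_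
      rw [Nat.factorization_mul hg0 hm₂.ne', Finsupp.add_apply]
      by_cases hpy : p ≤ y
      · have h1 := hgval p hp hpy i j hij j.2
        have h2 := (wv_ord hm₁ hm₂ hcop hp hij j.2).2.2
        have h3 := (hp.pow_dvd_iff_le_factorization (by omega)).1 (hsmall p hp hpy j j.2)
        omega
      · push Not at hpy
        rw [hmfac m₂ (fun p hp h => hmy p hp (h.mul_left _)) p hp hpy, add_zero]
        exact (hp.pow_dvd_iff_le_factorization (by omega)).1 (hlarge p hp hpy i j hij j.2).2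
    refine ⟨(Dvd.intro _ rfl).trans hdvd1, ?_, ?_⟩
    · obtain ⟨a, ha⟩ := hdvd1
      rw [ha, mul_assoc, Nat.mul_div_cancel_left _ hg0']
      exact Dvd.intro _ rfl
    · obtain ⟨a, ha⟩ := hdvd2
      rw [ha, mul_assoc, Nat.mul_div_cancel_left _ hg0']
      exact Dvd.intro _ rfl
  · have e1 : ∏ i : Fin k, (z + d i) = ∏ i ∈ range k, (Q * t + (v + Q + d i)) := by
      rw [Fin.prod_univ_eq_prod_range (fun i => z + d i) k]
      refine prod_congr rfl fun i _ => ?_
      rw [hz]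
      ring
    show sg y (∏ i : Fin k, (z + d i)) ≤ η
    rw [e1]
    have h1 : sg y (∏ i ∈ range k, (Q * t + (v + Q + d i))) ≤ sg y (Del k d) +
        sgD y Q (∏ i ∈ range k, (Q * t + (v + Q + d i))) := by
      unfold sg sgD
      set n := ∏ i ∈ range k, (Q * t + (v + Q + d i)) with hn
      have h2 : {p ∈ n.primeFactors | y < p} ⊆ {p ∈ (Del k d).primeFactors | y < p} ∪
          {p ∈ n.primeFactors | y < p ∧ ¬ p ∣ Q} := by
        intro p hp
        rw [mem_filter] at hp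
        rw [mem_union, mem_filter, mem_filter]
        by_cases hpQ' : p ∣ Q
        · left
          have hpp := Nat.prime_of_mem_primeFactors hp.1
          obtain ⟨q, hq, hpq⟩ := (Prime.dvd_finsetProd_iff hpp.prime _).1 hpQ'
          have h2 : p = q := (Nat.prime_dvd_prime_iff_eq hpp (hSp q hq)).1 (hpp.dvd_of_dvd_pow hpq)
          subst h2
          rw [hS, mem_union, mem_filter, mem_range] at hq
          rcases hq with h3 | h3
          · omega
          · exact ⟨h3, hp.2⟩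
        · exact Or.inr ⟨hp.1, hp.2, hpQ'⟩
      refine (sum_le_sum_of_subset_of_nonneg h2 fun p _ _ => by positivity).trans ?_
      have h3 := sum_union_inter (s₁ := {p ∈ (Del k d).primeFactors | y < p})
        (s₂ := {p ∈ n.primeFactors | y < p ∧ ¬ p ∣ Q}) (f := fun p : ℕ => 1 / (p : ℝ))
      have h4 : (0 : ℝ) ≤ ∑ p ∈ {p ∈ (Del k d).primeFactors | y < p} ∩
          {p ∈ n.primeFactors | y < p ∧ ¬ p ∣ Q}, 1 / (p : ℝ) := sum_nonneg fun p _ => by positivity
      linarith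
    refine h1.trans ((add_le_add hsg ht).trans ?_)
    have h2 : (k : ℝ) * ((k + 1) / y) + (k + 1) / y = ((k + 1) * (k + 1)) / y := by ring
    rw [h2, div_le_iff₀ hyr]
    rw [div_le_iff₀ hη] at hy₀
    have h3 : (y₀ : ℝ) ≤ y := by exact_mod_cast (by omega : y₀ ≤ y)
    nlinarith

end Pool.Agent.helper85.QC
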