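import Pool.Agent.helper85.QC.LogQuarter

/-!
# A quarter of all pairs, in logarithmic density, for a fixed `c`
-/

namespace Pool.Agent.helper85.QC

open Finset Real Pool.Agent.helper39.MT Pool.Agent.helper85.FC

lemma lm_num1 {ε₁ T K₁ : ℝ} (hT0 : 0 < T) (h : K₁ ≤ ε₁ * T) :
    (1 / 4 - 2 * ε₁) * T ^ 2 ≤ (1 / 4 - ε₁) * T ^ 2 - K₁ * T := by
  have h1 : K₁ * T ≤ ε₁ * T * T := by gcongr
  linarith [h1, mul_assoc ε₁ T T, sq T, (by ring : ε₁ * T ^ 2 = ε₁ * T * T),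
    (by ring : (1 / 4 - 2 * ε₁) * T ^ 2 = (1 / 4 - ε₁) * T ^ 2 - ε₁ * T ^ 2)]

lemma lm_num2 {ε₁ T y y₁ : ℝ} (hε₁0 : 0 < ε₁) (hyr : 0 < y) (hy₁ : T ^ 2 / ε₁ ≤ y₁) (h1 : y₁ ≤ y) :
    T ^ 2 * (1 / y) ≤ ε₁ := by
  have h2 : T ^ 2 / ε₁ ≤ y := hy₁.trans h1
  rw [div_le_iff₀ hε₁0] at h2
  rw [mul_one_div, div_le_iff₀ hyr]
  linarith [mul_comm ε₁ y]

lemma lm_num3 {ε c₀ T W s A y : ℝ} (hε : 0 < ε) (hε4 : ε < 1 / 4) (hT0 : 0 < T)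
    (hc₀1 : (1 / 4 - 2 * (ε / 12)) * T ^ 2 ≤ c₀) (hc₀0 : 0 ≤ c₀)
    (hs : T * s ≤ ε / 12) (hy : T ^ 2 * (1 / y) ≤ ε / 12) (hW : 1 + 2 * T ^ 2 / (ε / 12) ≤ W)
    (h1 : c₀ * (W ^ 2 * (1 - T * s - T ^ 2 * (1 / y)) - 2 * T ^ 2) ≤ T ^ 2 * A) :
    (1 / 4 - ε / 4) * W ^ 2 ≤ A := by
  have hε1 : 0 < ε / 12 := by positivity
  have h0 : 0 ≤ 2 * T ^ 2 / (ε / 12) := by positivity
  have hW1 : 1 ≤ W := by linarith
  have hW20 : 0 ≤ W ^ 2 := sq_nonneg _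
  have hW2 : 2 * T ^ 2 ≤ ε / 12 * W ^ 2 := by
    have h2 : 2 * T ^ 2 / (ε / 12) ≤ W := by linarith
    have h3 : W ≤ W ^ 2 := by nlinarith
    have h4 := h2.trans h3
    rw [div_le_iff₀ hε1] at h4
    linarith
  have h3 : c₀ * (W ^ 2 * (1 - 3 * (ε / 12))) ≤ T ^ 2 * A := by
    refine le_trans (mul_le_mul_of_nonneg_left ?_ hc₀0) h1
    have h5 : W ^ 2 * (1 - 2 * (ε / 12)) ≤ W ^ 2 * (1 - T * s - T ^ 2 * (1 / y)) :=
      mul_le_mul_of_nonneg_left (by linarith) hW20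
    linarith
  have h4 : (1 / 4 - 2 * (ε / 12)) * T ^ 2 * (W ^ 2 * (1 - 3 * (ε / 12))) ≤ T ^ 2 * A := by
    refine le_trans (mul_le_mul_of_nonneg_right hc₀1 ?_) h3
    exact mul_nonneg hW20 (by linarith)
  have h5 : T ^ 2 * ((1 / 4 - 2 * (ε / 12)) * (1 - 3 * (ε / 12)) * W ^ 2) ≤ T ^ 2 * A := by linarith
  have h6 := le_of_mul_le_mul_left h5 (by positivity)
  refine le_trans (mul_le_mul_of_nonneg_right ?_ hW20) h6
  nlinarith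

lemma lm_num4 {ε SS SN W L X A : ℝ} (hε : 0 < ε) (hε4 : ε < 1 / 4) (hSS : 1 ≤ SS) (hSN0 : 0 ≤ SN)
    (hSN : SN ≤ SS + ε / 2) (hW0 : 0 ≤ W) (hL0 : 0 ≤ L) (hL : L ≤ W + ε / 4 * W)
    (hX : X ≤ SN * L ^ 2) (hA : SS * ((1 / 4 - ε / 4) * W ^ 2) ≤ A) : (1 / 4 - ε) * X ≤ A := by
  have h1 : X ≤ (SS * (1 + ε / 2)) * (W * (1 + ε / 4)) ^ 2 := by
    refine hX.trans ?_
    have h2 : SN ≤ SS * (1 + ε / 2) := by nlinarith
    have h3 : L ≤ W * (1 + ε / 4) := by linarith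
    gcongr
  have h2 : (1 / 4 - ε) * X ≤ (1 / 4 - ε) * ((SS * (1 + ε / 2)) * (W * (1 + ε / 4)) ^ 2) :=
    mul_le_mul_of_nonneg_left h1 (by linarith)
  refine h2.trans ?_
  have h3 : (1 / 4 - ε) * (1 + ε / 2) * (1 + ε / 4) ^ 2 ≤ 1 / 4 - ε / 4 := by
    have h4 : (1 + ε / 4) ^ 2 ≤ 1 + ε := by nlinarith
    have h5 : 0 ≤ (1 / 4 - ε) * (1 + ε / 2) := mul_nonneg (by linarith) (by linarith)
    calc (1 / 4 - ε) * (1 + ε / 2) * (1 + ε / 4) ^ 2 ≤ (1 / 4 - ε) * (1 + ε / 2) * (1 + ε) :=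
          mul_le_mul_of_nonneg_left h4 h5
      _ = 1 / 4 - ε / 4 - (3 / 8 * ε + 11 / 8 * ε ^ 2 + 1 / 2 * ε ^ 3) := by ring
      _ ≤ 1 / 4 - ε / 4 := by
        have : 0 ≤ 3 / 8 * ε + 11 / 8 * ε ^ 2 + 1 / 2 * ε ^ 3 := by positivity
        linarith
  have h4 : 0 ≤ SS * W ^ 2 := by positivity
  calc (1 / 4 - ε) * ((SS * (1 + ε / 2)) * (W * (1 + ε / 4)) ^ 2)
      = ((1 / 4 - ε) * (1 + ε / 2) * (1 + ε / 4) ^ 2) * (SS * W ^ 2) := by ring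
    _ ≤ (1 / 4 - ε / 4) * (SS * W ^ 2) := mul_le_mul_of_nonneg_right h3 h4
    _ = SS * ((1 / 4 - ε / 4) * W ^ 2) := by ring
    _ ≤ A := hA

open Classical in
/-- **A quarter of all pairs, in logarithmic density.** -/
theorem log_quarter {ε : ℝ} (hε : 0 < ε) : ∃ K : ℕ, ∀ c : ℤ, c ≠ 0 → ∃ N₀ : ℕ, ∀ N : ℕ, N₀ ≤ N →
    (1 / 4 - ε) * ∑ p ∈ Adm c N, pw p ≤ ∑ p ∈ Adm c N with Link2 c 1 1 K p.2 p.1, pw p := by
  by_cases hε4 : 1 / 4 ≤ ε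
  · refine ⟨0, fun c _ => ⟨0, fun N _ => ?_⟩⟩
    have h1 : 0 ≤ ∑ p ∈ Adm c N, pw p := sum_nonneg fun p _ => pw_nonneg p
    have h2 : 0 ≤ ∑ p ∈ Adm c N with Link2 c 1 1 0 p.2 p.1, pw p := sum_nonneg fun p _ => pw_nonneg p
    nlinarith
  push Not at hε4
  obtain ⟨kc, hkc, H⟩ := link_cluster2
  set ε₁ : ℝ := ε / 12 with hε₁
  have hε₁0 : 0 < ε₁ := by rw [hε₁]; positivity
  obtain ⟨K₁, hK₁⟩ := es_directed kc (ε := ε₁) hε₁0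
  obtain ⟨T, hT⟩ := exists_nat_ge (K₁ / ε₁ + 1)
  have hT1 : (1 : ℝ) ≤ T := by
    have : 0 ≤ K₁ / ε₁ := by positivity
    linarith
  have hT0 : (0 : ℝ) < T := by linarith
  have hK₁T : (K₁ : ℝ) ≤ ε₁ * T := by
    have h1 : K₁ / ε₁ ≤ T := by linarith
    rw [div_le_iff₀ hε₁0] at h1
    linarith
  obtain ⟨c₀, hc₀⟩ : ∃ c₀ : ℝ, c₀ = (1 / 4 - ε₁) * (T : ℝ) ^ 2 - K₁ * T := ⟨_, rfl⟩
  have hc₀1 : (1 / 4 - 2 * ε₁) * (T : ℝ) ^ 2 ≤ c₀ := by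
    rw [hc₀]
    exact lm_num1 hT0 hK₁T
  have hc₀0 : 0 ≤ c₀ := by
    refine le_trans ?_ hc₀1
    have : 0 ≤ 1 / 4 - 2 * ε₁ := by rw [hε₁]; linarith
    positivity
  obtain ⟨y₀, hy₀⟩ := hb2_small (5 * kc) (η := ε₁ / T) (by positivity)
  obtain ⟨y₁, hy₁⟩ := exists_nat_ge ((T : ℝ) ^ 2 / ε₁)
  set y : ℕ := max y₀ (max y₁ 1) with hyd
  have hy0 : 0 < y := lt_of_lt_of_le one_pos ((le_max_right y₁ 1).trans (le_max_right _ _))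
  have hyr : (0 : ℝ) < y := by exact_mod_cast hy0
  have hyT : (T : ℝ) ^ 2 * (1 / y) ≤ ε₁ := by
    have h1 : (y₁ : ℝ) ≤ y := by exact_mod_cast (le_max_left y₁ 1).trans (le_max_right _ _)
    exact lm_num2 hε₁0 hyr hy₁ h1
  obtain ⟨Z, hZ1, hZ⟩ := smooth_sum y
  obtain ⟨M₀, hM₀⟩ := smooth_tail_sum y (τ := ε / (4 * Z)) (by positivity)
  set M : ℕ := M₀ + 1 with hM
  have hτ : ∀ F : Finset ℕ, (∀ m ∈ F, m ∈ Nat.smoothNumbers (y + 1) ∧ M < m) →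
      ∑ m ∈ F, 1 / (m : ℝ) ≤ ε / (4 * Z) := fun F hF => hM₀ F fun m hm => ⟨(hF m hm).1, by
    have := (hF m hm).2
    omega⟩
  -- the sets `h`
  have hex : ∀ q : ℕ × ℕ, ∃ h : Fin (5 * kc) → ℕ, 0 < q.1 → 0 < q.2 → Nat.Coprime q.1 q.2 →
      (∀ p : ℕ, p.Prime → p ∣ q.1 → p ≤ y) → (∀ p : ℕ, p.Prime → p ∣ q.2 → p ≤ y) →
      HB2 q.2 q.1 h ∧ sg y (∏ i, h i) ≤ ε₁ / T := by
    intro q
    by_cases hq : 0 < q.1 ∧ 0 < q.2 ∧ Nat.Coprime q.1 q.2 ∧ (∀ p : ℕ, p.Prime → p ∣ q.1 → p ≤ y) ∧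
        (∀ p : ℕ, p.Prime → p ∣ q.2 → p ≤ y)
    · obtain ⟨h, h1, h2⟩ := hy₀ y (le_max_left _ _) q.2 q.1 hq.2.1 hq.1 hq.2.2.1.symm (by
        intro p hp hd
        rcases (hp.dvd_mul).1 hd with h | h
        · exact hq.2.2.2.2 p hp h
        · exact hq.2.2.2.1 p hp h)
      exact ⟨h, fun _ _ _ _ _ => ⟨h1, h2⟩⟩
    · exact ⟨fun _ => 0, fun a1 a2 a3 a4 a5 => absurd ⟨a1, a2, a3, a4, a5⟩ hq⟩
  choose h hh using hex
  set K : ℕ := ∑ q ∈ range (M + 1) ×ˢ range (M + 1), ∑ i, h q i with hK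
  have hhK : ∀ q : ℕ × ℕ, q.1 ≤ M → q.2 ≤ M → ∀ i, h q i ≤ K := by
    intro q h1 h2 i
    have h3 : h q i ≤ ∑ i, h q i := single_le_sum (f := h q) (fun _ _ => Nat.zero_le _) (mem_univ i)
    have h4 : ∑ i, h q i ≤ K := single_le_sum (f := fun q => ∑ i, h q i) (fun _ _ => Nat.zero_le _)
      (mem_product.2 ⟨mem_range.2 (by omega), mem_range.2 (by omega)⟩)
    omega
  refine ⟨K, fun c hc => ?_⟩
  set C := c.natAbs with hC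
  have hC0 : 0 < C := Int.natAbs_pos.2 hc
  set P : ℕ := y.factorial * C with hPdef
  have hP0 : 0 < P := Nat.mul_pos (Nat.factorial_pos y) hC0
  have hCP : C ∣ P := Dvd.intro_left _ rfl
  have hZc : ∀ z : ℕ, Nat.Coprime z C → IsCoprime (z : ℤ) c := by
    intro z hz
    rw [Int.isCoprime_iff_gcd_eq_one, Int.gcd, Int.natAbs_natCast]
    exact hz
  -- one pair of classes
  set A₀ : ℝ := 1 + 2 * (T : ℝ) ^ 2 / ε₁ with hA₀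
  have hA₀1 : 1 ≤ A₀ := by
    have : 0 ≤ 2 * (T : ℝ) ^ 2 / ε₁ := by positivity
    rw [hA₀]; linarith
  have hone : ∀ N' : ℕ, A₀ ≤ LW P N' → ∀ q ∈ Clp P C M, (1 / 4 - ε / 4) * LW P N' ^ 2 ≤
      ∑ p ∈ PC P N' ×ˢ PC P N' with Link2 c q.2 q.1 K p.2 p.1, pw p := by
    intro N' hN' q hq
    rw [mem_Clp] at hq
    obtain ⟨⟨hq1, hq2⟩, hq12⟩ := hq
    have hm := mem_Cls.1 hq1
    have hm' := mem_Cls.1 hq2
    obtain ⟨hHB, hsgs⟩ := hh q hm.1.1 hm'.1.1 hq12 (Cls_smooth rfl hq1) (Cls_smooth rfl hq2)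
    have hW0 : 0 < LW P N' := by linarith
    have h1 := quarter_weights (P := P) (C := C) (N := N') (D := ∏ i, h q i) (T := T) hy0 rfl
      (prod_pos fun i _ => hHB.2.1 i) hc₀0 (fun x x' => Link2 c q.2 q.1 K x' x) (by
        intro S hS hST hcopD hcopS
        have h2 := hK₁ (fun x x' => Link2 c q.2 q.1 K x' x) S (by
          intro f hf hfS
          have hfP : ∀ i, (1 ≤ f i ∧ f i ≤ N') ∧ Nat.Coprime (f i) P := fun i => mem_PC.1 (hS (hfS i))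
          exact H c hc q.2 q.1 K (h q) hHB (hhK q hm.1.2 hm'.1.2) (hZc _ hm'.2.2) (hZc _ hm.2.2) f
            (fun i => (hfP i).1.1) (fun i => hZc _ ((hfP i).2.coprime_dvd_right hCP))
            (fun i j hij => hcopS _ (hfS i) _ (hfS j) (fun h0 => hij (hf h0)))
            (fun i l => (hcopD _ (hfS i)).coprime_dvd_right (dvd_prod_of_mem (h q) (mem_univ l))))
        rw [hST, ← hc₀] at h2
        exact h2) hW0
    have hsgT : T * sg y (∏ i, h q i) ≤ ε₁ := by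
      have h2 : (T : ℝ) * sg y (∏ i, h q i) ≤ T * (ε₁ / T) := mul_le_mul_of_nonneg_left hsgs hT0.le
      rwa [mul_div_cancel₀ _ hT0.ne'] at h2
    exact lm_num3 hε hε4 hT0 hc₀1 hc₀0 hsgT hyT hN' h1
  -- the threshold
  obtain ⟨N₁, hN₁⟩ := LW_large hP0 (max A₀ ((1 + Real.log M) / (ε / 4)))
  refine ⟨M * (N₁ + 1), fun N hN => ?_⟩
  have hM0 : 0 < M := by omega
  have hNM : N₁ ≤ N / M := by
    rw [Nat.le_div_iff_mul_le hM0]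
    nlinarith
  have hN0 : 0 < N := lt_of_lt_of_le (Nat.mul_pos hM0 (Nat.succ_pos _)) hN
  have hW := hN₁ (N / M) hNM
  set W := LW P (N / M) with hWdef
  have hWA : A₀ ≤ W := (le_max_left _ _).trans hW
  have hWM : 1 + Real.log M ≤ ε / 4 * W := by
    have h1 : (1 + Real.log M) / (ε / 4) ≤ W := (le_max_right _ _).trans hW
    rw [div_le_iff₀ (by positivity)] at h1
    linarith
  have hWN := LW_div (P := P) hM0 hN0
  have hup := Adm_upper (c := c) (N := N) hP0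
  have htail := Sg_tail (y := y) (P := P) (C := C) (M := M) (N := N) rfl hZ hτ
  have hSg1 := Sg_one_le (P := P) (C := C) hM0
  have hlow := linked_lower (y := y) (P := P) (M := M) (N := N) (K := K) hc rfl
    (κ := (1 / 4 - ε / 4) * W ^ 2) (hone (N / M) hWA)
  have hZτ : 2 * (ε / (4 * Z) * Z) = ε / 2 := by
    have hZ0 : Z ≠ 0 := by linarith
    rw [div_mul_eq_mul_div, mul_div_mul_right _ _ hZ0]
    ring
  rw [hZτ] at htail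
  exact lm_num4 hε hε4 hSg1 (sum_nonneg fun q _ => pw_nonneg q) htail (by linarith) (LW_nonneg P N)
    (by linarith) hup hlow

end Pool.Agent.helper85.QC
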