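import Pool.Agent.helper85.QC.LogSum

/-!
# Logarithmic sums over pairs
-/

namespace Pool.Agent.helper85.QC

open Finset Real Pool.Agent.helper39.MT

/-- the weight of the pairs which are not coprime. -/
lemma LW_pairs {y P C N : ℕ} (hy : 0 < y) (hP : P = y.factorial * C) :
    ∑ p ∈ PC P N ×ˢ PC P N with ¬ Nat.Coprime p.1 p.2, 1 / (p.1 : ℝ) * (1 / (p.2 : ℝ)) ≤
      1 / (y : ℝ) * LW P N ^ 2 := by
  classical
  have hsub : {p ∈ PC P N ×ˢ PC P N | ¬ Nat.Coprime p.1 p.2} ⊆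
      ({l ∈ Ioc y N | l.Prime}).biUnion fun l => {x ∈ PC P N | l ∣ x} ×ˢ {x ∈ PC P N | l ∣ x} := by
    intro p hp
    rw [mem_filter, mem_product] at hp
    obtain ⟨⟨hp1, hp2⟩, hnc⟩ := hp
    have hq1 := mem_PC.1 hp1
    obtain ⟨l, hl, h1, h2⟩ := Nat.Prime.not_coprime_iff_dvd.1 hnc
    rw [mem_biUnion]
    refine ⟨l, ?_, ?_⟩
    · rw [mem_filter, mem_Ioc]
      refine ⟨⟨?_, (Nat.le_of_dvd hq1.1.1 h1).trans hq1.1.2⟩, hl⟩
      by_contra hle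
      push Not at hle
      have h3 : l ∣ P := by rw [hP]; exact (hl.dvd_factorial.2 hle).mul_right C
      have h4 := Nat.dvd_gcd h1 h3
      rw [hq1.2] at h4
      exact hl.one_lt.ne' (Nat.dvd_one.1 h4)
    · rw [mem_product, mem_filter, mem_filter]
      exact ⟨⟨hp1, h1⟩, hp2, h2⟩
  have hb : ∀ (s : Finset ℕ) (t : ℕ → Finset (ℕ × ℕ)) (f : ℕ × ℕ → ℝ), (∀ x, 0 ≤ f x) →
      ∑ x ∈ s.biUnion t, f x ≤ ∑ i ∈ s, ∑ x ∈ t i, f x := by
    intro s t f hf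
    induction s using Finset.induction_on with
    | empty => simp
    | insert a s ha ih =>
      rw [biUnion_insert, sum_insert ha]
      have h1 := sum_union_inter (s₁ := t a) (s₂ := s.biUnion t) (f := f)
      have h2 : 0 ≤ ∑ x ∈ t a ∩ s.biUnion t, f x := sum_nonneg fun x _ => hf x
      linarith
  refine (sum_le_sum_of_subset_of_nonneg hsub fun p _ _ => by positivity).trans
    ((hb _ _ _ fun p => by positivity).trans ?_)
  have h1 : ∀ l ∈ {l ∈ Ioc y N | l.Prime},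
      ∑ p ∈ {x ∈ PC P N | l ∣ x} ×ˢ {x ∈ PC P N | l ∣ x}, 1 / (p.1 : ℝ) * (1 / (p.2 : ℝ)) ≤
        1 / (l : ℝ) ^ 2 * LW P N ^ 2 := by
    intro l hl
    rw [mem_filter] at hl
    have h2 := LW_mult (P := P) (N := N) hl.2
    have h3 : 0 ≤ ∑ x ∈ PC P N with l ∣ x, 1 / (x : ℝ) := sum_nonneg fun x _ => by positivity
    calc ∑ p ∈ {x ∈ PC P N | l ∣ x} ×ˢ {x ∈ PC P N | l ∣ x}, 1 / (p.1 : ℝ) * (1 / (p.2 : ℝ))
        = (∑ x ∈ PC P N with l ∣ x, 1 / (x : ℝ)) * (∑ x ∈ PC P N with l ∣ x, 1 / (x : ℝ)) := by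
          rw [sum_mul_sum, ← sum_product']
      _ ≤ (1 / (l : ℝ) * LW P N) * (1 / (l : ℝ) * LW P N) := mul_le_mul h2 h2 h3 (h3.trans h2)
      _ = _ := by ring
  refine (sum_le_sum h1).trans ?_
  rw [← sum_mul]
  refine mul_le_mul_of_nonneg_right ?_ (sq_nonneg _)
  exact le_trans (sum_le_sum_of_subset_of_nonneg (filter_subset _ _) fun p _ _ => by positivity)
    (sum_inv_sq_tail y N hy)

lemma sum_sq_le_two (P N : ℕ) : ∑ x ∈ PC P N, 1 / (x : ℝ) * (1 / (x : ℝ)) ≤ 2 := by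
  have h1 : PC P N ⊆ insert 1 (Ioc 1 N) := by
    intro x hx
    rw [mem_PC] at hx
    rw [mem_insert, mem_Ioc]
    by_cases h : x = 1
    · exact Or.inl h
    · exact Or.inr ⟨by omega, hx.1.2⟩
  refine (sum_le_sum_of_subset_of_nonneg h1 fun p _ _ => by positivity).trans ?_
  rw [sum_insert (by simp)]
  have h2 := sum_inv_sq_tail 1 N one_pos
  have h3 : ∑ x ∈ Ioc 1 N, 1 / (x : ℝ) * (1 / (x : ℝ)) = ∑ p ∈ Ioc 1 N, 1 / (p : ℝ) ^ 2 := by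
    refine sum_congr rfl fun x _ => ?_
    rw [one_div_mul_one_div, sq]
  rw [h3]
  push_cast at h2 ⊢
  linarith

/-- **a quarter of the pairs, with logarithmic weights.** -/
theorem quarter_weights {y P C N D T : ℕ} (hy : 0 < y) (hP : P = y.factorial * C) (hD : 0 < D)
    {c₀ : ℝ} (hc₀ : 0 ≤ c₀) (R : ℕ → ℕ → Prop) [DecidableRel R]
    (H : ∀ S ⊆ PC P N, #S = T → (∀ x ∈ S, Nat.Coprime x D) →
      (∀ x ∈ S, ∀ z ∈ S, x ≠ z → Nat.Coprime x z) → c₀ ≤ #{p ∈ S ×ˢ S | p.1 ≠ p.2 ∧ R p.1 p.2})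
    (hW : 0 < LW P N) :
    c₀ * (LW P N ^ 2 * (1 - T * sg y D - T ^ 2 * (1 / y)) - 2 * T ^ 2) ≤
      T ^ 2 * ∑ p ∈ PC P N ×ˢ PC P N with R p.1 p.2, 1 / (p.1 : ℝ) * (1 / (p.2 : ℝ)) := by
  classical
  set W := LW P N with hWdef
  set ω : ℕ → ℝ := fun x => 1 / (x : ℝ) / W with hω
  have h1 : ∑ x ∈ PC P N, ω x = 1 := by
    rw [hω]
    simp only
    rw [← sum_div]
    exact div_self hW.ne'
  have hω0 : ∀ x ∈ PC P N, 0 ≤ ω x := fun x _ => by rw [hω]; positivity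
  have h2 := sampling hω0 h1 T hc₀ R (fun x => ¬ Nat.Coprime x D) (fun x z => ¬ Nat.Coprime x z) (by
    intro S hS hST hb1 hb2
    refine H S hS hST (fun x hx => not_not.1 (hb1 x hx)) (fun x hx z hz hne => not_not.1 (hb2 x hx z hz hne)))
  have e1 : ∀ s : Finset (ℕ × ℕ), ∑ p ∈ s, ω p.1 * ω p.2 =
      (∑ p ∈ s, 1 / (p.1 : ℝ) * (1 / (p.2 : ℝ))) / W ^ 2 := by
    intro s
    rw [sum_div]
    refine sum_congr rfl fun p _ => ?_
    rw [hω]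
    simp only
    rw [div_mul_div_comm, sq]
  have hB1 : ∑ x ∈ PC P N with ¬ Nat.Coprime x D, ω x ≤ sg y D := by
    have h3 := LW_noncop (N := N) hP hD
    have e2 : ∑ x ∈ PC P N with ¬ Nat.Coprime x D, ω x =
        (∑ x ∈ PC P N with ¬ Nat.Coprime x D, 1 / (x : ℝ)) / W := by
      rw [sum_div]
    rw [e2, div_le_iff₀ hW]
    exact h3
  have hB2 : ∑ p ∈ PC P N ×ˢ PC P N with (p.1 = p.2 ∨ ¬ Nat.Coprime p.1 p.2), ω p.1 * ω p.2 ≤
      1 / y + 2 / W ^ 2 := by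
    rw [e1, div_le_iff₀ (by positivity)]
    have h3 : {p ∈ PC P N ×ˢ PC P N | p.1 = p.2 ∨ ¬ Nat.Coprime p.1 p.2} ⊆
        (PC P N).image (fun x => (x, x)) ∪ {p ∈ PC P N ×ˢ PC P N | ¬ Nat.Coprime p.1 p.2} := by
      rintro ⟨a, b⟩ hp
      rw [mem_filter, mem_product] at hp
      rw [mem_union, mem_image, mem_filter, mem_product]
      rcases hp.2 with h | h
      · simp only at h
        subst h
        exact Or.inl ⟨a, hp.1.1, rfl⟩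
      · exact Or.inr ⟨hp.1, h⟩
    have h4 := sum_union_inter (s₁ := (PC P N).image (fun x => (x, x)))
      (s₂ := {p ∈ PC P N ×ˢ PC P N | ¬ Nat.Coprime p.1 p.2})
      (f := fun p : ℕ × ℕ => 1 / (p.1 : ℝ) * (1 / (p.2 : ℝ)))
    have h5 : (0 : ℝ) ≤ ∑ p ∈ (PC P N).image (fun x => (x, x)) ∩
        {p ∈ PC P N ×ˢ PC P N | ¬ Nat.Coprime p.1 p.2}, 1 / (p.1 : ℝ) * (1 / (p.2 : ℝ)) :=
      sum_nonneg fun p _ => by positivity
    have h6 : ∑ p ∈ (PC P N).image (fun x => (x, x)), 1 / (p.1 : ℝ) * (1 / (p.2 : ℝ)) ≤ 2 := by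
      rw [sum_image (by
        intro x _ x' _ h
        exact congrArg Prod.fst h)]
      exact sum_sq_le_two P N
    have h7 := LW_pairs (N := N) hy hP
    refine (sum_le_sum_of_subset_of_nonneg h3 fun p _ _ => by positivity).trans ?_
    have h8 : (1 / (y : ℝ) + 2 / W ^ 2) * W ^ 2 = 1 / y * W ^ 2 + 2 := by
      field_simp
    rw [h8]
    linarith
  rw [e1 {p ∈ PC P N ×ˢ PC P N | R p.1 p.2}] at h2
  set A := ∑ p ∈ PC P N ×ˢ PC P N with R p.1 p.2, 1 / (p.1 : ℝ) * (1 / (p.2 : ℝ)) with hA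
  have hT : (0 : ℝ) ≤ T := Nat.cast_nonneg _
  have h3 : c₀ * (1 - T * sg y D - T ^ 2 * (1 / y + 2 / W ^ 2)) ≤ T ^ 2 * (A / W ^ 2) := by
    refine le_trans (mul_le_mul_of_nonneg_left ?_ hc₀) h2
    have h4 : T * (∑ x ∈ PC P N with ¬ Nat.Coprime x D, ω x) ≤ T * sg y D :=
      mul_le_mul_of_nonneg_left hB1 hT
    have h5 : (T : ℝ) ^ 2 * (∑ p ∈ PC P N ×ˢ PC P N with (p.1 = p.2 ∨ ¬ Nat.Coprime p.1 p.2),
        ω p.1 * ω p.2) ≤ T ^ 2 * (1 / y + 2 / W ^ 2) := mul_le_mul_of_nonneg_left hB2 (by positivity)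
    linarith
  have hW2 : 0 < W ^ 2 := by positivity
  have h4 : T ^ 2 * (A / W ^ 2) = (T ^ 2 * A) / W ^ 2 := by ring
  rw [h4, le_div_iff₀ hW2] at h3
  refine le_trans (le_of_eq ?_) h3
  have h5 : (T : ℝ) ^ 2 * (1 / y + 2 / W ^ 2) * W ^ 2 = T ^ 2 * (1 / y) * W ^ 2 + 2 * T ^ 2 := by
    field_simp
  calc c₀ * (W ^ 2 * (1 - T * sg y D - T ^ 2 * (1 / y)) - 2 * T ^ 2)
      = c₀ * ((1 - T * sg y D) * W ^ 2 - (T ^ 2 * (1 / y) * W ^ 2 + 2 * T ^ 2)) := by ring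
    _ = c₀ * ((1 - T * sg y D) * W ^ 2 - (T : ℝ) ^ 2 * (1 / y + 2 / W ^ 2) * W ^ 2) := by rw [h5]
    _ = _ := by ring

end Pool.Agent.helper85.QC
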