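import Pool.Agent.helper85.QC.HBtwoB
import Pool.Agent.helper85.QC.LogPairs
import Pool.Agent.helper85.QC.Dense

/-!
# A quarter of all pairs, in logarithmic density, for a fixed `c`: sums over classes
-/

namespace Pool.Agent.helper85.QC

open Finset Real Pool.Agent.helper39.MT Pool.Agent.helper85.FC

/-- the weight `1 / (a b)` of a pair. -/
noncomputable def pw (p : ℕ × ℕ) : ℝ := 1 / (p.1 : ℝ) * (1 / (p.2 : ℝ))

lemma pw_nonneg (p : ℕ × ℕ) : 0 ≤ pw p := by unfold pw; positivity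

lemma sum_pw_prod (s t : Finset ℕ) :
    ∑ p ∈ s ×ˢ t, pw p = (∑ x ∈ s, 1 / (x : ℝ)) * ∑ x ∈ t, 1 / (x : ℝ) := by
  unfold pw
  rw [sum_mul_sum, ← sum_product']

/-- The pairs `(a, b)` of integers in `[1, N]` with `a, b, c` pairwise coprime. -/
def Adm (c : ℤ) (N : ℕ) : Finset (ℕ × ℕ) :=
  {p ∈ Icc 1 N ×ˢ Icc 1 N | Nat.Coprime p.1 p.2 ∧ Nat.Coprime p.1 c.natAbs ∧ Nat.Coprime p.2 c.natAbs}

lemma mem_Adm {c : ℤ} {N : ℕ} {p : ℕ × ℕ} : p ∈ Adm c N ↔ ((1 ≤ p.1 ∧ p.1 ≤ N) ∧ 1 ≤ p.2 ∧ p.2 ≤ N) ∧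
    Nat.Coprime p.1 p.2 ∧ Nat.Coprime p.1 c.natAbs ∧ Nat.Coprime p.2 c.natAbs := by
  rw [Adm, mem_filter, mem_product, mem_Icc, mem_Icc]

/-- the classes prime to `C`. -/
def Cls (P C M : ℕ) : Finset ℕ := {m ∈ Icc 1 M | cs P m = m ∧ Nat.Coprime m C}

lemma mem_Cls {P C M m : ℕ} : m ∈ Cls P C M ↔ (1 ≤ m ∧ m ≤ M) ∧ cs P m = m ∧ Nat.Coprime m C := by
  rw [Cls, mem_filter, mem_Icc]

lemma Cls_smooth {y P C M m : ℕ} (hP : P = y.factorial * C) (hm : m ∈ Cls P C M) :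
    ∀ p : ℕ, p.Prime → p ∣ m → p ≤ y := by
  intro p hp hpm
  rw [mem_Cls] at hm
  have h1 : p ∣ P := by
    have := hpm
    rw [← hm.2.1] at this
    exact cs_prime hp this
  rw [hP] at h1
  rcases (hp.dvd_mul).1 h1 with h2 | h2
  · exact (hp.dvd_factorial).1 h2
  · have h6 := Nat.dvd_gcd hpm h2
    rw [hm.2.2] at h6
    exact absurd (Nat.dvd_one.1 h6) hp.one_lt.ne'

/-- the coprime pairs of classes. -/
def Clp (P C M : ℕ) : Finset (ℕ × ℕ) := {q ∈ Cls P C M ×ˢ Cls P C M | Nat.Coprime q.1 q.2}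

lemma mem_Clp {P C M : ℕ} {q : ℕ × ℕ} : q ∈ Clp P C M ↔
    (q.1 ∈ Cls P C M ∧ q.2 ∈ Cls P C M) ∧ Nat.Coprime q.1 q.2 := by
  rw [Clp, mem_filter, mem_product]

/-- the sum over the coprime pairs of classes. -/
noncomputable def Sg (P C M : ℕ) : ℝ := ∑ q ∈ Clp P C M, pw q

lemma Sg_one_le {P C M : ℕ} (hM : 0 < M) : 1 ≤ Sg P C M := by
  unfold Sg
  have h1 : ((1, 1) : ℕ × ℕ) ∈ Clp P C M := by
    have h2 : 1 ∈ Cls P C M := by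
      rw [mem_Cls]
      refine ⟨⟨le_rfl, hM⟩, ?_, Nat.coprime_one_left C⟩
      exact Nat.dvd_one.1 (cs_dvd P 1)
    rw [mem_Clp]
    exact ⟨⟨h2, h2⟩, Nat.coprime_one_left 1⟩
  have h2 := single_le_sum (f := pw) (fun q _ => pw_nonneg q) h1
  have h3 : pw (1, 1) = 1 := by simp [pw]
  linarith

/-- the tail of the sum over pairs of classes. -/
lemma Sg_tail {y P C M N : ℕ} (hP : P = y.factorial * C) {Z τ : ℝ}
    (hZ : ∀ F : Finset ℕ, (∀ m ∈ F, m ∈ Nat.smoothNumbers (y + 1)) → ∑ m ∈ F, 1 / (m : ℝ) ≤ Z)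
    (hτ : ∀ F : Finset ℕ, (∀ m ∈ F, m ∈ Nat.smoothNumbers (y + 1) ∧ M < m) →
      ∑ m ∈ F, 1 / (m : ℝ) ≤ τ) :
    Sg P C N ≤ Sg P C M + 2 * (τ * Z) := by
  classical
  have hsm : ∀ m ∈ Cls P C N, m ∈ Nat.smoothNumbers (y + 1) := fun m hm =>
    mem_smooth (mem_Cls.1 hm).1.1 (Cls_smooth hP hm)
  set Tl := {m ∈ Cls P C N | M < m} with hTl
  have hsub : Clp P C N ⊆ (Clp P C M ∪ Tl ×ˢ Cls P C N) ∪ Cls P C N ×ˢ Tl := by
    rintro ⟨m, m'⟩ hq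
    rw [mem_Clp] at hq
    rw [mem_union, mem_union, mem_product, mem_product, mem_Clp, hTl, mem_filter, mem_filter]
    obtain ⟨⟨h1, h2⟩, h3⟩ := hq
    by_cases h4 : M < m
    · exact Or.inl (Or.inr ⟨⟨h1, h4⟩, h2⟩)
    · by_cases h5 : M < m'
      · exact Or.inr ⟨h1, h2, h5⟩
      · refine Or.inl (Or.inl ⟨⟨?_, ?_⟩, h3⟩)
        · rw [mem_Cls] at h1 ⊢
          exact ⟨⟨h1.1.1, by simp only at h4 ⊢; omega⟩, h1.2⟩
        · rw [mem_Cls] at h2 ⊢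
          exact ⟨⟨h2.1.1, by simp only at h5 ⊢; omega⟩, h2.2⟩
  have hu : ∀ (s t : Finset (ℕ × ℕ)), ∑ q ∈ s ∪ t, pw q ≤ ∑ q ∈ s, pw q + ∑ q ∈ t, pw q := by
    intro s t
    have h1 := sum_union_inter (s₁ := s) (s₂ := t) (f := pw)
    have h2 : (0 : ℝ) ≤ ∑ q ∈ s ∩ t, pw q := sum_nonneg fun q _ => pw_nonneg q
    linarith
  have h1 := (sum_le_sum_of_subset_of_nonneg (f := pw)
    hsub fun q _ _ => pw_nonneg q).trans (hu _ _)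
  have h2 := hu (Clp P C M) (Tl ×ˢ Cls P C N)
  have hT0 : 0 ≤ ∑ m ∈ Tl, 1 / (m : ℝ) := sum_nonneg fun _ _ => by positivity
  have hC0 : 0 ≤ ∑ m ∈ Cls P C N, 1 / (m : ℝ) := sum_nonneg fun _ _ => by positivity
  have hTle : ∑ m ∈ Tl, 1 / (m : ℝ) ≤ τ := hτ Tl fun m hm => by
    rw [hTl, mem_filter] at hm
    exact ⟨hsm m hm.1, hm.2⟩
  have hCle : ∑ m ∈ Cls P C N, 1 / (m : ℝ) ≤ Z := hZ _ hsm
  have h3 : ∑ q ∈ Tl ×ˢ Cls P C N, pw q ≤ τ * Z := by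
    rw [sum_pw_prod]
    exact mul_le_mul hTle hCle hC0 (hT0.trans hTle)
  have h4 : ∑ q ∈ Cls P C N ×ˢ Tl, pw q ≤ τ * Z := by
    rw [sum_pw_prod, mul_comm]
    exact mul_le_mul hTle hCle hC0 (hT0.trans hTle)
  unfold Sg
  linarith

/-- the upper bound for the sum over all admissible pairs. -/
lemma Adm_upper {c : ℤ} {P N : ℕ} (hP : 0 < P) :
    ∑ p ∈ Adm c N, pw p ≤ Sg P c.natAbs N * LW P N ^ 2 := by
  classical
  set C := c.natAbs with hC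
  set J := Clp P C N ×ˢ (PC P N ×ˢ PC P N) with hJ
  set Ψ : ℕ × ℕ → (ℕ × ℕ) × (ℕ × ℕ) := fun p => ((cs P p.1, cs P p.2), (cf P p.1, cf P p.2)) with hΨ
  have hinj : Set.InjOn Ψ (Adm c N : Set (ℕ × ℕ)) := by
    rintro ⟨a, b⟩ _ ⟨a', b'⟩ _ h
    rw [hΨ] at h
    simp only [Prod.mk.injEq] at h
    obtain ⟨⟨h1, h2⟩, h3, h4⟩ := h
    rw [Prod.mk.injEq]
    exact ⟨by rw [← cf_mul_cs P a, ← cf_mul_cs P a', h1, h3],
      by rw [← cf_mul_cs P b, ← cf_mul_cs P b', h2, h4]⟩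
  have hmem : ∀ a : ℕ, 1 ≤ a → a ≤ N → Nat.Coprime a C → cs P a ∈ Cls P C N ∧ cf P a ∈ PC P N := by
    intro a ha haN hac
    rw [mem_Cls, mem_PC]
    refine ⟨⟨⟨cs_pos ha, (Nat.le_of_dvd ha (cs_dvd P a)).trans haN⟩, cs_idem hP ha,
      hac.coprime_dvd_left (cs_dvd P a)⟩, ⟨cf_pos ha, (Nat.le_of_dvd ha (cf_dvd P a)).trans haN⟩,
      cf_coprime hP ha⟩
  have h1 : ∑ p ∈ Adm c N, pw p = ∑ q ∈ (Adm c N).image Ψ, pw q.1 * pw q.2 := by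
    rw [sum_image hinj]
    refine sum_congr rfl fun p _ => ?_
    rw [hΨ]
    simp only [pw]
    have e1 : (p.1 : ℝ) = cf P p.1 * cs P p.1 := by exact_mod_cast (cf_mul_cs P p.1).symm
    have e2 : (p.2 : ℝ) = cf P p.2 * cs P p.2 := by exact_mod_cast (cf_mul_cs P p.2).symm
    have e3 : 1 / (p.1 : ℝ) = 1 / (cf P p.1 : ℝ) * (1 / (cs P p.1 : ℝ)) := by
      rw [one_div_mul_one_div, ← e1]
    have e4 : 1 / (p.2 : ℝ) = 1 / (cf P p.2 : ℝ) * (1 / (cs P p.2 : ℝ)) := by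
      rw [one_div_mul_one_div, ← e2]
    rw [e3, e4]
    ring
  rw [h1]
  have h2 : (Adm c N).image Ψ ⊆ J := by
    intro q hq
    rw [mem_image] at hq
    obtain ⟨⟨a, b⟩, hp, rfl⟩ := hq
    rw [mem_Adm] at hp
    obtain ⟨⟨⟨ha1, ha2⟩, hb1, hb2⟩, hab, hac, hbc⟩ := hp
    have h3 := hmem a ha1 ha2 hac
    have h4 := hmem b hb1 hb2 hbc
    rw [hJ, mem_product, mem_product, mem_Clp]
    exact ⟨⟨⟨h3.1, h4.1⟩, (hab.coprime_dvd_left (cs_dvd P a)).coprime_dvd_right (cs_dvd P b)⟩,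
      h3.2, h4.2⟩
  refine (sum_le_sum_of_subset_of_nonneg h2 fun q _ _ =>
    mul_nonneg (pw_nonneg _) (pw_nonneg _)).trans (le_of_eq ?_)
  rw [hJ, sum_product' (f := fun a b => pw a * pw b), ← sum_mul_sum, sum_pw_prod]
  unfold Sg LW
  rw [sq]

open Classical in
/-- the lower bound for the sum over linked pairs. -/
lemma linked_lower {c : ℤ} {y P M N K : ℕ} (hc : c ≠ 0)
    (hP : P = y.factorial * c.natAbs) {κ : ℝ}
    (hκ : ∀ q ∈ Clp P c.natAbs M, κ ≤ ∑ p ∈ PC P (N / M) ×ˢ PC P (N / M) with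
      Link2 c q.2 q.1 K p.2 p.1, pw p) :
    Sg P c.natAbs M * κ ≤ ∑ p ∈ Adm c N with Link2 c 1 1 K p.2 p.1, pw p := by
  set C := c.natAbs with hC
  have hC0 : 0 < C := Int.natAbs_pos.2 hc
  have hP0 : 0 < P := by rw [hP]; exact Nat.mul_pos (Nat.factorial_pos y) hC0
  have hCP : C ∣ P := by rw [hP]; exact Dvd.intro_left _ rfl
  set I := {q ∈ Clp P C M ×ˢ (PC P (N / M) ×ˢ PC P (N / M)) |
    Link2 c q.1.2 q.1.1 K q.2.2 q.2.1} with hI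
  set Φ : (ℕ × ℕ) × (ℕ × ℕ) → ℕ × ℕ := fun q => (q.1.1 * q.2.1, q.1.2 * q.2.2) with hΦ
  have h1 : Sg P C M * κ ≤ ∑ q ∈ I, pw q.1 * pw q.2 := by
    rw [hI, sum_filter, sum_product]
    unfold Sg
    rw [sum_mul]
    refine sum_le_sum fun q hq => ?_
    simp only
    rw [← sum_filter, ← mul_sum]
    exact mul_le_mul_of_nonneg_left (hκ q hq) (pw_nonneg q)
  have hcl : ∀ m x : ℕ, m ∈ Cls P C M → x ∈ PC P (N / M) → cs P (m * x) = m := by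
    intro m x hm hx
    rw [mem_Cls] at hm
    rw [mem_PC] at hx
    rw [mul_comm, cs_mul_coprime hP0 hx.1.1 hm.1.1 hx.2, hm.2.1]
  have hIm : ∀ q ∈ I, (q.1.1 ∈ Cls P C M ∧ q.2.1 ∈ PC P (N / M)) ∧ q.1.2 ∈ Cls P C M ∧
      q.2.2 ∈ PC P (N / M) := by
    intro q hq
    rw [hI, mem_filter, mem_product, mem_product, mem_Clp] at hq
    exact ⟨⟨hq.1.1.1.1, hq.1.2.1⟩, hq.1.1.1.2, hq.1.2.2⟩
  have hinj : Set.InjOn Φ (I : Set ((ℕ × ℕ) × (ℕ × ℕ))) := by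
    rintro ⟨⟨m, m'⟩, x, x'⟩ hq ⟨⟨n, n'⟩, z, z'⟩ hq' h
    obtain ⟨⟨a1, a2⟩, a3, a4⟩ := hIm _ (mem_coe.1 hq)
    obtain ⟨⟨b1, b2⟩, b3, b4⟩ := hIm _ (mem_coe.1 hq')
    simp only at a1 a2 a3 a4 b1 b2 b3 b4
    rw [hΦ] at h
    simp only [Prod.mk.injEq] at h
    obtain ⟨h1, h2⟩ := h
    have e1 : m = n := by rw [← hcl m x a1 a2, ← hcl n z b1 b2, h1]
    have e2 : m' = n' := by rw [← hcl m' x' a3 a4, ← hcl n' z' b3 b4, h2]
    subst e1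
    subst e2
    have e3 : x = z := Nat.eq_of_mul_eq_mul_left (mem_Cls.1 a1).1.1 h1
    have e4 : x' = z' := Nat.eq_of_mul_eq_mul_left (mem_Cls.1 a3).1.1 h2
    rw [e3, e4]
  have h2 : ∑ q ∈ I, pw q.1 * pw q.2 = ∑ p ∈ I.image Φ, pw p := by
    rw [sum_image hinj]
    refine sum_congr rfl fun q _ => ?_
    rw [hΦ]
    simp only [pw]
    push_cast
    rw [← one_div_mul_one_div, ← one_div_mul_one_div]
    ring
  rw [h2] at h1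
  refine h1.trans (sum_le_sum_of_subset_of_nonneg ?_ fun p _ _ => pw_nonneg p)
  intro p hp
  rw [mem_image] at hp
  obtain ⟨⟨⟨m, m'⟩, x, x'⟩, hq, rfl⟩ := hp
  obtain ⟨⟨a1, a2⟩, a3, a4⟩ := hIm _ hq
  rw [hI, mem_filter] at hq
  obtain ⟨u, v, t, hu, huK, hmu, hv, hvK, hmv, ht, htK, htc, htrue⟩ := hq.2
  simp only at a1 a2 a3 a4 hmu hmv htrue
  have hm := mem_Cls.1 a1
  have hm' := mem_Cls.1 a3
  have hx := mem_PC.1 a2
  have hx' := mem_PC.1 a4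
  rw [mem_filter, mem_Adm, hΦ]
  simp only
  have hle : ∀ m x : ℕ, m ≤ M → x ≤ N / M → m * x ≤ N := by
    intro m x h1 h2
    calc m * x ≤ M * (N / M) := Nat.mul_le_mul h1 h2
      _ ≤ N := Nat.mul_div_le N M
  have hcopC : ∀ m x : ℕ, Nat.Coprime m C → Nat.Coprime x P → Nat.Coprime (m * x) C :=
    fun m x h1 h2 => Nat.Coprime.mul_left h1 (h2.coprime_dvd_right hCP)
  refine ⟨⟨⟨⟨Nat.mul_pos hm.1.1 hx.1.1, hle _ _ hm.1.2 hx.1.2⟩, Nat.mul_pos hm'.1.1 hx'.1.1,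
    hle _ _ hm'.1.2 hx'.1.2⟩, ?_, hcopC _ _ hm.2.2 hx.2, hcopC _ _ hm'.2.2 hx'.2⟩, ?_⟩
  · have h3 := htrue.2.2.2.1
    exact (h3.coprime_dvd_left (Nat.mul_dvd_mul_right hmu x)).coprime_dvd_right
      (Nat.mul_dvd_mul_right hmv x')
  · obtain ⟨u', rfl⟩ := hmu
    obtain ⟨v', rfl⟩ := hmv
    have hu' : 0 < u' := Nat.pos_of_mul_pos_left hu
    have hv' : 0 < v' := Nat.pos_of_mul_pos_left hv
    refine ⟨u', v', t, hu', (Nat.le_mul_of_pos_left u' hm.1.1).trans huK, one_dvd _, hv',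
      (Nat.le_mul_of_pos_left v' hm'.1.1).trans hvK, one_dvd _, ht, htK, htc, ?_⟩
    rw [show u' * (m * x) = m * u' * x by ring, show v' * (m' * x') = m' * v' * x' by ring]
    exact htrue

end Pool.Agent.helper85.QC
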