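import Mathlib

/-!
# Averaging over tuples
-/

namespace Pool.Agent.helper85.QC

open Finset

section
variable {X : Finset ℕ} {ω : ℕ → ℝ} {T : ℕ}

/-- the weight of a tuple. -/
def tw (ω : ℕ → ℝ) {T : ℕ} (f : Fin T → ℕ) : ℝ := ∏ i, ω (f i)

lemma tw_nonneg (hω : ∀ x ∈ X, 0 ≤ ω x) {f : Fin T → ℕ}
    (hf : f ∈ Fintype.piFinset (fun _ : Fin T => X)) : 0 ≤ tw ω f :=
  prod_nonneg fun i _ => hω _ (Fintype.mem_piFinset.1 hf i)

lemma sum_tw (h1 : ∑ x ∈ X, ω x = 1) :
    ∑ f ∈ Fintype.piFinset (fun _ : Fin T => X), tw ω f = 1 := by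
  unfold tw
  rw [← prod_univ_sum (fun _ : Fin T => X) (fun _ x => ω x), prod_const, h1, one_pow]

lemma sum_tw_one (h1 : ∑ x ∈ X, ω x = 1) (i₀ : Fin T) (φ : ℕ → ℝ) :
    ∑ f ∈ Fintype.piFinset (fun _ : Fin T => X), tw ω f * φ (f i₀) = ∑ x ∈ X, ω x * φ x := by
  have h2 := prod_univ_sum (fun _ : Fin T => X) (fun i x => ω x * (if i = i₀ then φ x else 1))
  have h3 : ∀ f : Fin T → ℕ, ∏ i, ω (f i) * (if i = i₀ then φ (f i) else 1) = tw ω f * φ (f i₀) := by
    intro f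
    rw [prod_mul_distrib, prod_ite_eq' univ i₀ (fun i => φ (f i)), if_pos (mem_univ _)]
    rfl
  simp only [h3] at h2
  rw [← h2, ← mul_prod_erase univ _ (mem_univ i₀)]
  have h4 : ∏ i ∈ univ.erase i₀, ∑ x ∈ X, ω x * (if i = i₀ then φ x else 1) = 1 := by
    refine prod_eq_one fun i hi => ?_
    have hne : i ≠ i₀ := (mem_erase.1 hi).1
    simp only [if_neg hne, mul_one]
    exact h1
  rw [h4, mul_one]
  simp

lemma sum_tw_two (h1 : ∑ x ∈ X, ω x = 1) {i₀ j₀ : Fin T} (hij : i₀ ≠ j₀) (ψ : ℕ → ℕ → ℝ) :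
    ∑ f ∈ Fintype.piFinset (fun _ : Fin T => X), tw ω f * ψ (f i₀) (f j₀) =
      ∑ p ∈ X ×ˢ X, ω p.1 * ω p.2 * ψ p.1 p.2 := by
  -- for a fixed value `y` of `f j₀`
  have hfix : ∀ y ∈ X, ∑ f ∈ Fintype.piFinset (fun _ : Fin T => X),
      tw ω f * (ψ (f i₀) y * (if f j₀ = y then 1 else 0)) = (∑ x ∈ X, ω x * ψ x y) * ω y := by
    intro y hy
    have h2 := prod_univ_sum (fun _ : Fin T => X) (fun i x => ω x * ((if i = i₀ then ψ x y else 1) *
      (if i = j₀ then (if x = y then 1 else 0) else 1)))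
    have h3 : ∀ f : Fin T → ℕ, ∏ i, ω (f i) * ((if i = i₀ then ψ (f i) y else 1) *
        (if i = j₀ then (if f i = y then (1 : ℝ) else 0) else 1)) =
        tw ω f * (ψ (f i₀) y * (if f j₀ = y then 1 else 0)) := by
      intro f
      rw [prod_mul_distrib, prod_mul_distrib, prod_ite_eq' univ i₀ (fun i => ψ (f i) y),
        prod_ite_eq' univ j₀ (fun i => if f i = y then (1 : ℝ) else 0), if_pos (mem_univ _),
        if_pos (mem_univ _)]
      rfl
    simp only [h3] at h2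
    rw [← h2, ← mul_prod_erase univ _ (mem_univ i₀),
      ← mul_prod_erase (univ.erase i₀) _ (mem_erase.2 ⟨hij.symm, mem_univ j₀⟩)]
    have h4 : ∏ i ∈ (univ.erase i₀).erase j₀, ∑ x ∈ X, ω x * ((if i = i₀ then ψ x y else 1) *
        (if i = j₀ then (if x = y then (1 : ℝ) else 0) else 1)) = 1 := by
      refine prod_eq_one fun i hi => ?_
      have hne2 : i ≠ j₀ := (mem_erase.1 hi).1
      have hne : i ≠ i₀ := (mem_erase.1 (mem_erase.1 hi).2).1
      simp only [if_neg hne, if_neg hne2, mul_one]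
      exact h1
    rw [h4, mul_one]
    congr 1
    · refine sum_congr rfl fun x _ => ?_
      rw [if_pos rfl, if_neg hij, mul_one]
    · simp only [if_neg hij.symm, if_true, one_mul]
      rw [sum_eq_single y]
      · simp
      · intro x _ hx
        simp [hx]
      · intro h
        exact absurd hy h
  rw [sum_product_right]
  calc ∑ f ∈ Fintype.piFinset (fun _ : Fin T => X), tw ω f * ψ (f i₀) (f j₀)
      = ∑ f ∈ Fintype.piFinset (fun _ : Fin T => X), ∑ y ∈ X,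
          tw ω f * (ψ (f i₀) y * (if f j₀ = y then 1 else 0)) := by
        refine sum_congr rfl fun f hf => ?_
        rw [← mul_sum]
        congr 1
        rw [sum_eq_single (f j₀)]
        · simp
        · intro y _ hy
          simp [Ne.symm hy]
        · intro h
          exact absurd (Fintype.mem_piFinset.1 hf j₀) h
    _ = ∑ y ∈ X, (∑ x ∈ X, ω x * ψ x y) * ω y := by
        rw [sum_comm]
        exact sum_congr rfl hfix
    _ = _ := by
        refine sum_congr rfl fun y _ => ?_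
        rw [sum_mul]
        exact sum_congr rfl fun x _ => by ring

/-- **averaging over tuples.** -/
theorem sampling (hω : ∀ x ∈ X, 0 ≤ ω x) (h1 : ∑ x ∈ X, ω x = 1) (T : ℕ) {c₀ : ℝ} (hc₀ : 0 ≤ c₀)
    (R : ℕ → ℕ → Prop) [DecidableRel R] (bad1 : ℕ → Prop) [DecidablePred bad1]
    (bad2 : ℕ → ℕ → Prop) [DecidableRel bad2]
    (H : ∀ S ⊆ X, #S = T → (∀ x ∈ S, ¬ bad1 x) → (∀ x ∈ S, ∀ y ∈ S, x ≠ y → ¬ bad2 x y) →
      c₀ ≤ #{p ∈ S ×ˢ S | p.1 ≠ p.2 ∧ R p.1 p.2}) :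
    c₀ * (1 - T * (∑ x ∈ X with bad1 x, ω x) -
      T ^ 2 * ∑ p ∈ X ×ˢ X with (p.1 = p.2 ∨ bad2 p.1 p.2), ω p.1 * ω p.2) ≤
      T ^ 2 * ∑ p ∈ X ×ˢ X with R p.1 p.2, ω p.1 * ω p.2 := by
  classical
  set Ω := Fintype.piFinset (fun _ : Fin T => X) with hΩ
  set A : ℝ := ∑ p ∈ X ×ˢ X with R p.1 p.2, ω p.1 * ω p.2 with hA
  set B1 : ℝ := ∑ x ∈ X with bad1 x, ω x with hB1
  set B2 : ℝ := ∑ p ∈ X ×ˢ X with (p.1 = p.2 ∨ bad2 p.1 p.2), ω p.1 * ω p.2 with hB2
  set PP : Finset (Fin T × Fin T) := {q | q.1 ≠ q.2} with hPP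
  have hPPc : (#PP : ℝ) ≤ (T : ℝ) ^ 2 := by
    have h2 : #PP ≤ T ^ 2 := by
      refine (card_filter_le _ _).trans (le_of_eq ?_)
      rw [card_univ, Fintype.card_prod, Fintype.card_fin, sq]
    exact_mod_cast h2
  have hA0 : 0 ≤ A := by
    refine sum_nonneg fun p hp => ?_
    rw [mem_filter, mem_product] at hp
    exact mul_nonneg (hω _ hp.1.1) (hω _ hp.1.2)
  have hB20 : 0 ≤ B2 := by
    refine sum_nonneg fun p hp => ?_
    rw [mem_filter, mem_product] at hp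
    exact mul_nonneg (hω _ hp.1.1) (hω _ hp.1.2)
  -- the pointwise inequality
  have hpt : ∀ f ∈ Ω, c₀ * (1 - ∑ i : Fin T, (if bad1 (f i) then 1 else 0) -
      ∑ q ∈ PP, (if (f q.1 = f q.2 ∨ bad2 (f q.1) (f q.2)) then 1 else 0)) ≤
      ∑ q ∈ PP, (if R (f q.1) (f q.2) then (1 : ℝ) else 0) := by
    intro f hf
    have hs1 : (0 : ℝ) ≤ ∑ i : Fin T, (if bad1 (f i) then 1 else 0) :=
      sum_nonneg fun i _ => by split_ifs <;> norm_num
    have hs2 : (0 : ℝ) ≤ ∑ q ∈ PP, (if (f q.1 = f q.2 ∨ bad2 (f q.1) (f q.2)) then 1 else 0) :=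
      sum_nonneg fun i _ => by split_ifs <;> norm_num
    have hs3 : (0 : ℝ) ≤ ∑ q ∈ PP, (if R (f q.1) (f q.2) then (1 : ℝ) else 0) :=
      sum_nonneg fun i _ => by split_ifs <;> norm_num
    by_cases hb1 : ∃ i, bad1 (f i)
    · obtain ⟨i, hi⟩ := hb1
      have h2 : (1 : ℝ) ≤ ∑ i : Fin T, (if bad1 (f i) then 1 else 0) := by
        have h3 : (if bad1 (f i) then (1 : ℝ) else 0) ≤ ∑ i : Fin T, (if bad1 (f i) then 1 else 0) :=
          single_le_sum (f := fun i => if bad1 (f i) then (1 : ℝ) else 0)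
            (fun i _ => by split_ifs <;> norm_num) (mem_univ i)
        rwa [if_pos hi] at h3
      nlinarith
    by_cases hb2 : ∃ q ∈ PP, (f q.1 = f q.2 ∨ bad2 (f q.1) (f q.2))
    · obtain ⟨q, hq, hi⟩ := hb2
      have h2 : (1 : ℝ) ≤ ∑ q ∈ PP, (if (f q.1 = f q.2 ∨ bad2 (f q.1) (f q.2)) then 1 else 0) := by
        have h3 : (if (f q.1 = f q.2 ∨ bad2 (f q.1) (f q.2)) then (1 : ℝ) else 0) ≤
            ∑ q ∈ PP, (if (f q.1 = f q.2 ∨ bad2 (f q.1) (f q.2)) then 1 else 0) :=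
          single_le_sum (f := fun q : Fin T × Fin T =>
            if (f q.1 = f q.2 ∨ bad2 (f q.1) (f q.2)) then (1 : ℝ) else 0)
            (fun i _ => by split_ifs <;> norm_num) hq
        rwa [if_pos hi] at h3
      nlinarith
    push Not at hb1 hb2
    have hinj : Function.Injective f := by
      intro i j hij
      by_contra hne
      exact (hb2 (i, j) (by rw [hPP, mem_filter]; exact ⟨mem_univ _, hne⟩)).1 hij
    have hSX : univ.image f ⊆ X := by
      intro x hx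
      rw [mem_image] at hx
      obtain ⟨i, -, rfl⟩ := hx
      exact Fintype.mem_piFinset.1 hf i
    have h2 := H (univ.image f) hSX (by rw [card_image_of_injective _ hinj, card_univ, Fintype.card_fin])
      (by
        intro x hx
        rw [mem_image] at hx
        obtain ⟨i, -, rfl⟩ := hx
        exact hb1 i) (by
        intro x hx y hy hne
        rw [mem_image] at hx hy
        obtain ⟨i, -, rfl⟩ := hx
        obtain ⟨j, -, rfl⟩ := hy
        refine (hb2 (i, j) ?_).2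
        rw [hPP, mem_filter]
        exact ⟨mem_univ _, fun h => hne (by rw [show i = j from h])⟩)
    have h3 : #{p ∈ univ.image f ×ˢ univ.image f | p.1 ≠ p.2 ∧ R p.1 p.2} ≤
        #{q ∈ PP | R (f q.1) (f q.2)} := by
      refine card_le_card_of_surjOn (fun q : Fin T × Fin T => (f q.1, f q.2)) ?_
      rintro ⟨a, b⟩ hab
      rw [mem_coe, mem_filter, mem_product, mem_image, mem_image] at hab
      obtain ⟨⟨⟨i, -, rfl⟩, ⟨j, -, rfl⟩⟩, hne, hR⟩ := hab
      refine ⟨(i, j), ?_, rfl⟩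
      rw [mem_coe, mem_filter, hPP, mem_filter]
      exact ⟨⟨mem_univ _, fun h => hne (by simp only at h ⊢; rw [h])⟩, hR⟩
    have h4 : ∑ q ∈ PP, (if R (f q.1) (f q.2) then (1 : ℝ) else 0) = #{q ∈ PP | R (f q.1) (f q.2)} := by
      rw [← sum_filter, sum_const, nsmul_eq_mul, mul_one]
    rw [h4]
    have h5 : ((#{p ∈ univ.image f ×ˢ univ.image f | p.1 ≠ p.2 ∧ R p.1 p.2} : ℕ) : ℝ) ≤
        #{q ∈ PP | R (f q.1) (f q.2)} := by exact_mod_cast h3
    have h6 : c₀ * (1 - ∑ i : Fin T, (if bad1 (f i) then 1 else 0) -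
      ∑ q ∈ PP, (if (f q.1 = f q.2 ∨ bad2 (f q.1) (f q.2)) then 1 else 0)) ≤ c₀ := by nlinarith
    exact h6.trans (h2.trans h5)
  -- average
  have hsum := sum_le_sum fun f hf => mul_le_mul_of_nonneg_left (hpt f hf) (tw_nonneg (T := T) hω hf)
  have e1 : ∑ f ∈ Ω, tw ω f * ∑ q ∈ PP, (if R (f q.1) (f q.2) then (1 : ℝ) else 0) = #PP * A := by
    calc ∑ f ∈ Ω, tw ω f * ∑ q ∈ PP, (if R (f q.1) (f q.2) then (1 : ℝ) else 0)
        = ∑ q ∈ PP, ∑ f ∈ Ω, tw ω f * (if R (f q.1) (f q.2) then (1 : ℝ) else 0) := by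
          rw [sum_comm]
          exact sum_congr rfl fun f _ => mul_sum _ _ _
      _ = ∑ q ∈ PP, A := by
          refine sum_congr rfl fun q hq => ?_
          rw [hPP, mem_filter] at hq
          rw [sum_tw_two h1 hq.2 (fun x y => if R x y then (1 : ℝ) else 0), hA, sum_filter]
          refine sum_congr rfl fun p _ => ?_
          split_ifs <;> ring
      _ = #PP * A := by rw [sum_const, nsmul_eq_mul]
  have e2 : ∑ f ∈ Ω, tw ω f * (c₀ * (1 - ∑ i : Fin T, (if bad1 (f i) then 1 else 0) -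
      ∑ q ∈ PP, (if (f q.1 = f q.2 ∨ bad2 (f q.1) (f q.2)) then 1 else 0))) =
      c₀ * (1 - T * B1 - #PP * B2) := by
    have e3 : ∑ f ∈ Ω, tw ω f * ∑ i : Fin T, (if bad1 (f i) then (1 : ℝ) else 0) = T * B1 := by
      calc ∑ f ∈ Ω, tw ω f * ∑ i : Fin T, (if bad1 (f i) then (1 : ℝ) else 0)
          = ∑ i : Fin T, ∑ f ∈ Ω, tw ω f * (if bad1 (f i) then (1 : ℝ) else 0) := by
            rw [sum_comm]
            exact sum_congr rfl fun f _ => mul_sum _ _ _
        _ = ∑ i : Fin T, B1 := by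
            refine sum_congr rfl fun i _ => ?_
            rw [sum_tw_one h1 i (fun x => if bad1 x then (1 : ℝ) else 0), hB1, sum_filter]
            refine sum_congr rfl fun p _ => ?_
            split_ifs <;> ring
        _ = T * B1 := by rw [sum_const, nsmul_eq_mul, card_univ, Fintype.card_fin]
    have e4 : ∑ f ∈ Ω, tw ω f * ∑ q ∈ PP,
        (if (f q.1 = f q.2 ∨ bad2 (f q.1) (f q.2)) then (1 : ℝ) else 0) = #PP * B2 := by
      calc ∑ f ∈ Ω, tw ω f * ∑ q ∈ PP,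
            (if (f q.1 = f q.2 ∨ bad2 (f q.1) (f q.2)) then (1 : ℝ) else 0)
          = ∑ q ∈ PP, ∑ f ∈ Ω, tw ω f *
            (if (f q.1 = f q.2 ∨ bad2 (f q.1) (f q.2)) then (1 : ℝ) else 0) := by
            rw [sum_comm]
            exact sum_congr rfl fun f _ => mul_sum _ _ _
        _ = ∑ q ∈ PP, B2 := by
            refine sum_congr rfl fun q hq => ?_
            rw [hPP, mem_filter] at hq
            rw [sum_tw_two h1 hq.2 (fun x y => if (x = y ∨ bad2 x y) then (1 : ℝ) else 0), hB2,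
              sum_filter]
            refine sum_congr rfl fun p _ => ?_
            split_ifs <;> ring
        _ = #PP * B2 := by rw [sum_const, nsmul_eq_mul]
    have e5 : ∀ f ∈ Ω, tw ω f * (c₀ * (1 - ∑ i : Fin T, (if bad1 (f i) then 1 else 0) -
        ∑ q ∈ PP, (if (f q.1 = f q.2 ∨ bad2 (f q.1) (f q.2)) then 1 else 0))) =
        c₀ * tw ω f - c₀ * (tw ω f * ∑ i : Fin T, (if bad1 (f i) then (1 : ℝ) else 0)) -
        c₀ * (tw ω f * ∑ q ∈ PP, (if (f q.1 = f q.2 ∨ bad2 (f q.1) (f q.2)) then (1 : ℝ) else 0)) := by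
      intro f _
      ring
    rw [sum_congr rfl e5, sum_sub_distrib, sum_sub_distrib, ← mul_sum, ← mul_sum, ← mul_sum, e3, e4,
      sum_tw h1]
    ring
  rw [e1, e2] at hsum
  have h2 : c₀ * (1 - T * B1 - T ^ 2 * B2) ≤ c₀ * (1 - T * B1 - #PP * B2) := by
    refine mul_le_mul_of_nonneg_left ?_ hc₀
    nlinarith
  have h3 : (#PP : ℝ) * A ≤ T ^ 2 * A := by nlinarith
  linarith

end

end Pool.Agent.helper85.QC
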