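import Pool.Agent.helper85.QC.Rel
import Pool.Agent.helper85.QC.Sampling

/-!
# Logarithmic sums over integers prime to `P`
-/

namespace Pool.Agent.helper85.QC

open Finset Real Pool.Agent.helper39.MT

lemma sum_biUnion_le_sum {ι : Type*} [DecidableEq ι] (s : Finset ι) (t : ι → Finset ℕ) (f : ℕ → ℝ)
    (hf : ∀ x, 0 ≤ f x) : ∑ x ∈ s.biUnion t, f x ≤ ∑ i ∈ s, ∑ x ∈ t i, f x := by
  induction s using Finset.induction_on with
  | empty => simp
  | insert a s ha ih =>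
    rw [biUnion_insert, sum_insert ha]
    have h1 := sum_union_inter (s₁ := t a) (s₂ := s.biUnion t) (f := f)
    have h2 : 0 ≤ ∑ x ∈ t a ∩ s.biUnion t, f x := sum_nonneg fun x _ => hf x
    linarith

/-- the integers all of whose prime factors are `≤ y`. -/
lemma smooth_summable (y : ℕ) :
    Summable ((Nat.smoothNumbers (y + 1)).indicator fun m : ℕ => 1 / (m : ℝ)) := by
  rw [← summable_subtype_iff_indicator]
  have h := (EulerProduct.summable_and_hasSum_smoothNumbers_prod_primesBelow_geometric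
    (F := ℝ) (f := { toFun := fun n : ℕ => (n : ℝ)⁻¹
                     map_one' := by simp
                     map_mul' := fun a b => by push_cast; rw [mul_inv] }) (by
      intro p hp
      have h1 : (1 : ℝ) < p := by exact_mod_cast hp.one_lt
      simp only [MonoidHom.coe_mk, OneHom.coe_mk, norm_inv, Real.norm_natCast]
      exact inv_lt_one_of_one_lt₀ h1) (y + 1)).1
  refine h.congr fun m => ?_
  simp [Function.comp]

lemma mem_smooth {y m : ℕ} (hm : 0 < m) (h : ∀ p : ℕ, p.Prime → p ∣ m → p ≤ y) :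
    m ∈ Nat.smoothNumbers (y + 1) := by
  rw [Nat.mem_smoothNumbers]
  refine ⟨hm.ne', fun p hp => ?_⟩
  have h1 := Nat.prime_of_mem_primeFactorsList hp
  have h2 := Nat.dvd_of_mem_primeFactorsList hp
  have := h p h1 h2
  omega

lemma smooth_sum (y : ℕ) : ∃ Z : ℝ, 1 ≤ Z ∧ ∀ F : Finset ℕ,
    (∀ m ∈ F, m ∈ Nat.smoothNumbers (y + 1)) → ∑ m ∈ F, 1 / (m : ℝ) ≤ Z := by
  have hs := smooth_summable y
  set g := (Nat.smoothNumbers (y + 1)).indicator fun m : ℕ => 1 / (m : ℝ) with hg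
  have hg0 : ∀ m, 0 ≤ g m := fun m => Set.indicator_nonneg (fun _ _ => by positivity) m
  have key : ∀ F : Finset ℕ, (∀ m ∈ F, m ∈ Nat.smoothNumbers (y + 1)) →
      ∑ m ∈ F, 1 / (m : ℝ) ≤ ∑' m, g m := by
    intro F hF
    calc ∑ m ∈ F, 1 / (m : ℝ) = ∑ m ∈ F, g m := by
          refine sum_congr rfl fun m hm => ?_
          rw [hg, Set.indicator_of_mem (hF m hm)]
      _ ≤ _ := hs.sum_le_tsum F fun m _ => hg0 m
  refine ⟨∑' m, g m, ?_, key⟩
  have := key {1} (by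
    intro m hm
    rw [mem_singleton] at hm
    subst hm
    exact mem_smooth one_pos fun p hp h => absurd (Nat.dvd_one.1 h) hp.one_lt.ne')
  simpa using this

lemma smooth_tail_sum (y : ℕ) {τ : ℝ} (hτ : 0 < τ) : ∃ M : ℕ, ∀ F : Finset ℕ,
    (∀ m ∈ F, m ∈ Nat.smoothNumbers (y + 1) ∧ M < m) → ∑ m ∈ F, 1 / (m : ℝ) ≤ τ := by
  have hs := smooth_summable y
  set g := (Nat.smoothNumbers (y + 1)).indicator fun m : ℕ => 1 / (m : ℝ) with hg
  obtain ⟨s, hs'⟩ := summable_iff_vanishing_norm.1 hs τ hτ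
  refine ⟨s.sup id, fun F hF => ?_⟩
  have h1 : Disjoint F s := by
    rw [disjoint_left]
    intro m hm hms
    have h2 := (hF m hm).2
    have h3 : m ≤ s.sup id := le_sup (f := id) hms
    omega
  have h2 := hs' F h1
  have h3 : ∑ m ∈ F, 1 / (m : ℝ) = ∑ m ∈ F, g m := by
    refine sum_congr rfl fun m hm => ?_
    rw [hg, Set.indicator_of_mem (hF m hm).1]
  rw [h3]
  exact (le_abs_self _).trans h2.le

/-- the logarithmic sum over the integers in `[1, N]` prime to `P`. -/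
noncomputable def LW (P N : ℕ) : ℝ := ∑ x ∈ PC P N, 1 / (x : ℝ)

lemma PC_mono {P N N' : ℕ} (h : N ≤ N') : PC P N ⊆ PC P N' := by
  intro x hx
  rw [mem_PC] at hx ⊢
  exact ⟨⟨hx.1.1, hx.1.2.trans h⟩, hx.2⟩

lemma LW_mono {P N N' : ℕ} (h : N ≤ N') : LW P N ≤ LW P N' :=
  sum_le_sum_of_subset_of_nonneg (PC_mono h) fun x _ _ => by positivity

lemma LW_nonneg (P N : ℕ) : 0 ≤ LW P N := sum_nonneg fun x _ => by positivity

lemma log_le_harm (N : ℕ) : Real.log (N + 1) ≤ ∑ x ∈ Icc 1 N, 1 / (x : ℝ) := by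
  have h := log_add_one_le_harmonic N
  have e : ((harmonic N : ℚ) : ℝ) = ∑ p ∈ Icc 1 N, 1 / (p : ℝ) := by
    rw [harmonic_eq_sum_Icc]
    push_cast
    simp [one_div]
  rw [← e]
  exact_mod_cast h

/-- `LW` changes little when `N` is divided by `M`. -/
lemma LW_div {P M : ℕ} (hM : 0 < M) {N : ℕ} (hN : 0 < N) :
    LW P N ≤ LW P (N / M) + (1 + Real.log M) := by
  classical
  have hsub : PC P N ⊆ PC P (N / M) ∪ (Icc 1 N \ Icc 1 (N / M)) := by
    intro x hx
    rw [mem_PC] at hx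
    rw [mem_union, mem_PC, mem_sdiff, mem_Icc, mem_Icc]
    by_cases h : x ≤ N / M
    · exact Or.inl ⟨⟨hx.1.1, h⟩, hx.2⟩
    · exact Or.inr ⟨hx.1, fun h' => h h'.2⟩
  have h1 : LW P N ≤ LW P (N / M) + ∑ x ∈ Icc 1 N \ Icc 1 (N / M), 1 / (x : ℝ) := by
    unfold LW
    refine (sum_le_sum_of_subset_of_nonneg hsub fun x _ _ => by positivity).trans ?_
    have h2 := sum_union_inter (s₁ := PC P (N / M)) (s₂ := Icc 1 N \ Icc 1 (N / M))
      (f := fun x : ℕ => 1 / (x : ℝ))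
    have h3 : (0 : ℝ) ≤ ∑ x ∈ PC P (N / M) ∩ (Icc 1 N \ Icc 1 (N / M)), 1 / (x : ℝ) :=
      sum_nonneg fun x _ => by positivity
    linarith
  have h2 : ∑ x ∈ Icc 1 N \ Icc 1 (N / M), 1 / (x : ℝ) =
      ∑ x ∈ Icc 1 N, 1 / (x : ℝ) - ∑ x ∈ Icc 1 (N / M), 1 / (x : ℝ) := by
    rw [eq_sub_iff_add_eq]
    exact sum_sdiff (Icc_subset_Icc_right (Nat.div_le_self _ _))
  have h3 := sum_inv_le_log N
  have h4 := log_le_harm (N / M)
  have h5 : Real.log N ≤ Real.log M + Real.log ((N / M : ℕ) + 1) := by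
    have hMr : (0 : ℝ) < M := by exact_mod_cast hM
    have hNr : (0 : ℝ) < N := by exact_mod_cast hN
    rw [← Real.log_mul hMr.ne' (by positivity)]
    refine Real.log_le_log hNr ?_
    have h6 : N < M * (N / M + 1) := Nat.lt_mul_div_succ N hM
    exact_mod_cast h6.le
  linarith

/-- `LW` is unbounded. -/
lemma LW_large {P : ℕ} (hP : 0 < P) (A : ℝ) : ∃ N₀ : ℕ, ∀ N : ℕ, N₀ ≤ N → A ≤ LW P N := by
  classical
  -- the integers `1 + P x`
  obtain ⟨J, hJ⟩ : ∃ J : ℕ, A * (2 * P) ≤ Real.log (J + 1) := by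
    have h := Real.tendsto_log_atTop.eventually_ge_atTop (A * (2 * P))
    obtain ⟨x₀, hx₀⟩ := Filter.eventually_atTop.1 h
    refine ⟨⌈x₀⌉₊, hx₀ _ ?_⟩
    exact (Nat.le_ceil x₀).trans (by simp)
  refine ⟨2 * P * J + 1, fun N hN => ?_⟩
  have hPr : (0 : ℝ) < P := by exact_mod_cast hP
  have hmap : ∑ x ∈ Icc 1 J, 1 / ((1 + P * x : ℕ) : ℝ) ≤ LW P N := by
    unfold LW
    rw [← sum_image (s := Icc 1 J) (g := fun x => 1 + P * x) (f := fun x : ℕ => 1 / (x : ℝ))
      (by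
        intro x _ x' _ h
        simp only at h
        exact Nat.eq_of_mul_eq_mul_left hP (by omega))]
    refine sum_le_sum_of_subset_of_nonneg ?_ fun x _ _ => by positivity
    intro z hz
    rw [mem_image] at hz
    obtain ⟨x, hx, rfl⟩ := hz
    rw [mem_Icc] at hx
    rw [mem_PC]
    refine ⟨⟨by omega, ?_⟩, ?_⟩
    · have h1 : P * x ≤ P * J := Nat.mul_le_mul_left _ hx.2
      have h2 : P * J ≤ 2 * P * J := by nlinarith
      omega
    · simp
  refine le_trans ?_ hmap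
  have h1 : ∑ x ∈ Icc 1 J, (1 / (2 * P : ℝ)) * (1 / (x : ℝ)) ≤ ∑ x ∈ Icc 1 J, 1 / ((1 + P * x : ℕ) : ℝ) := by
    refine sum_le_sum fun x hx => ?_
    rw [mem_Icc] at hx
    have hx0 : (0 : ℝ) < x := by exact_mod_cast hx.1
    rw [one_div_mul_one_div]
    refine one_div_le_one_div_of_le (by positivity) ?_
    have h2 : 1 + P * x ≤ 2 * P * x := by nlinarith [Nat.mul_pos hP hx.1]
    exact_mod_cast h2
  refine le_trans ?_ h1
  rw [← mul_sum]
  have h2 := log_le_harm J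
  rw [one_div, inv_mul_eq_div, le_div_iff₀ (by positivity)]
  exact hJ.trans h2

/-- the weight of the multiples of a prime not dividing `P`. -/
lemma LW_mult {P N l : ℕ} (hl : l.Prime) :
    ∑ x ∈ PC P N with l ∣ x, 1 / (x : ℝ) ≤ 1 / (l : ℝ) * LW P N := by
  classical
  have hl0 : (0 : ℝ) < l := by exact_mod_cast hl.pos
  unfold LW
  rw [mul_sum]
  calc ∑ x ∈ PC P N with l ∣ x, 1 / (x : ℝ)
      ≤ ∑ x ∈ (PC P N).image (fun x => l * x), 1 / (x : ℝ) := by
        refine sum_le_sum_of_subset_of_nonneg ?_ fun x _ _ => by positivity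
        intro x hx
        rw [mem_filter, mem_PC] at hx
        obtain ⟨⟨⟨hx1, hx2⟩, hx3⟩, ⟨d, rfl⟩⟩ := hx
        have hd : 0 < d := Nat.pos_of_ne_zero (by rintro rfl; simp at hx1)
        rw [mem_image]
        refine ⟨d, ?_, rfl⟩
        rw [mem_PC]
        exact ⟨⟨hd, (Nat.le_mul_of_pos_left d hl.pos).trans hx2⟩, hx3.coprime_mul_left⟩
    _ = ∑ x ∈ PC P N, 1 / ((l * x : ℕ) : ℝ) := by
        rw [sum_image]
        intro x _ x' _ h
        exact Nat.eq_of_mul_eq_mul_left hl.pos h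
    _ = ∑ x ∈ PC P N, 1 / (l : ℝ) * (1 / (x : ℝ)) := by
        refine sum_congr rfl fun x _ => ?_
        push_cast
        rw [one_div_mul_one_div]

/-- the weight of the elements not coprime to `D`. -/
lemma LW_noncop {y P C N D : ℕ} (hP : P = y.factorial * C) (hD : 0 < D) :
    ∑ x ∈ PC P N with ¬ Nat.Coprime x D, 1 / (x : ℝ) ≤ sg y D * LW P N := by
  classical
  have hsub : {x ∈ PC P N | ¬ Nat.Coprime x D} ⊆
      ({l ∈ D.primeFactors | y < l}).biUnion fun l => {x ∈ PC P N | l ∣ x} := by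
    intro x hx
    rw [mem_filter, mem_PC] at hx
    obtain ⟨l, hl, h1, h2⟩ := Nat.Prime.not_coprime_iff_dvd.1 hx.2
    rw [mem_biUnion]
    refine ⟨l, ?_, ?_⟩
    · rw [mem_filter, Nat.mem_primeFactors]
      refine ⟨⟨hl, h2, hD.ne'⟩, ?_⟩
      by_contra hle
      push Not at hle
      have h3 : l ∣ P := by rw [hP]; exact (hl.dvd_factorial.2 hle).mul_right C
      have h4 := Nat.dvd_gcd h1 h3
      rw [hx.1.2] at h4
      exact hl.one_lt.ne' (Nat.dvd_one.1 h4)
    · rw [mem_filter, mem_PC]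
      exact ⟨hx.1, h1⟩
  refine (sum_le_sum_of_subset_of_nonneg hsub fun x _ _ => by positivity).trans ?_
  have h1 : ∑ x ∈ ({l ∈ D.primeFactors | y < l}).biUnion fun l => {x ∈ PC P N | l ∣ x}, 1 / (x : ℝ) ≤
      ∑ l ∈ D.primeFactors with y < l, ∑ x ∈ PC P N with l ∣ x, 1 / (x : ℝ) :=
    sum_biUnion_le_sum _ _ _ (fun x => by positivity)
  refine h1.trans ?_
  unfold sg
  rw [sum_mul]
  refine sum_le_sum fun l hl => ?_
  exact LW_mult (Nat.prime_of_mem_primeFactors (mem_filter.1 hl).1)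

end Pool.Agent.helper85.QC
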