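import Pool.Agent.helper85.QC.ESD
import Pool.Agent.helper85.QC.TPC
import Pool.Agent.helper85.QC.Core

/-!
# A quarter of the pairs of every set of pairwise coprime integers, for a fixed `c`
-/

namespace Pool.Agent.helper85.QC

open Finset Pool.Agent.helper39.MT Pool.Agent.helper85.FC

/-- links among five groups. -/
theorem link_cluster : ∃ kc : ℕ, 1 ≤ kc ∧ ∀ c : ℤ, c ≠ 0 → ∀ (m K : ℕ) (h : Fin (5 * kc) → ℕ),
    StrictMono h → (∀ i, 0 < h i) → (∀ i j, i < j → (h j - h i) ∣ h i ∧ m ∣ h i / (h j - h i)) →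
    (∀ i, h i ≤ K) → IsCoprime (m : ℤ) c → ∀ f : Fin 5 × Fin kc → ℕ, (∀ i, 0 < f i) →
    (∀ i, IsCoprime (f i : ℤ) c) → (∀ i j, i ≠ j → Nat.Coprime (f i) (f j)) →
    (∀ i l, Nat.Coprime (f i) (h l)) → ∃ x y : Fin 5 × Fin kc, x.1 < y.1 ∧ Link c m K (f y) (f x) := by
  obtain ⟨kc, hkc, H⟩ := two_primes_cluster
  refine ⟨kc, hkc, fun c hc m K h hmono hpos hdvd hK hmc f hf hfc hff hfh => ?_⟩
  have hC : 0 < c.natAbs := Int.natAbs_pos.2 hc
  set B : Fin (5 * kc) → Fin 5 × Fin kc := fun i =>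
    ((finProdFinEquiv.symm i).1.rev, (finProdFinEquiv.symm i).2) with hB
  have hBinj : Function.Injective B := by
    intro i j hij
    rw [hB] at hij
    simp only [Prod.mk.injEq, Fin.rev_inj] at hij
    exact finProdFinEquiv.symm.injective (Prod.ext hij.1 hij.2)
  set A : Fin (5 * kc) → ℕ := fun i => f (B i) with hA
  have hcl : ∀ i j : Fin (5 * kc), i < j → cl i ≠ cl j → cl i < cl j := by
    intro i j hij hne
    refine lt_of_le_of_ne ?_ hne
    show (finProdFinEquiv.symm i).1 ≤ (finProdFinEquiv.symm j).1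
    rw [finProdFinEquiv_symm_apply, finProdFinEquiv_symm_apply]
    rw [Fin.le_iff_val_le_val, Fin.coe_divNat, Fin.coe_divNat]
    exact Nat.div_le_div_right hij.le
  obtain ⟨i, j, hij, hs⟩ := H (fun i => cf c.natAbs (h i) * A i) (fun i => c * (h i : ℤ))
    (fun i => Nat.mul_pos (cf_pos (hpos i)) (hf _)) (by
      intro i j hij
      have h1 : (h i : ℤ) = h j := mul_left_cancel₀ hc hij
      exact hmono.injective (by exact_mod_cast h1))
    (fun p hp => core_local h hpos hmono (fun i j hij => (hdvd i j hij).1) c hc A (fun i => hf _)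
      (fun i l => hfh _ l) (fun i => hfc _) (fun i j hij => hff _ _ (fun h0 => hij (hBinj h0))) p hp)
  have hne : i ≠ j := fun h0 => hij (by rw [h0])
  rcases lt_or_gt_of_ne hne with hlt | hlt
  · refine ⟨B j, B i, Fin.rev_lt_rev.2 (hcl i j hlt hij), ?_⟩
    have h1 := hs.swap'
    rw [neg_sub] at h1
    exact core_pair hc (hmono hlt) (hpos i) (hdvd i j hlt).1 (hdvd i j hlt).2 hmc (hK j) (hf _) (hf _)
      (hfh _ j) (hfh _ i) (hff _ _ (fun h0 => hne (hBinj h0))) h1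
  · refine ⟨B i, B j, Fin.rev_lt_rev.2 (hcl j i hlt hij.symm), ?_⟩
    exact core_pair hc (hmono hlt) (hpos j) (hdvd j i hlt).1 (hdvd j i hlt).2 hmc (hK i) (hf _) (hf _)
      (hfh _ i) (hfh _ j) (hff _ _ (fun h0 => hne.symm (hBinj h0))) hs

open Classical in
/-- **A quarter of the pairs.** -/
theorem pairs_quarter {ε : ℝ} (hε : 0 < ε) (m : ℕ) (hm : 0 < m) : ∃ K : ℕ, ∀ c : ℤ, c ≠ 0 →
    IsCoprime (m : ℤ) c → ∀ S : Finset ℕ, (∀ x ∈ S, 0 < x ∧ IsCoprime (x : ℤ) c) →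
    (∀ x ∈ S, ∀ p : ℕ, p.Prime → p ∣ x → K < p) → (∀ x ∈ S, ∀ y ∈ S, x ≠ y → Nat.Coprime x y) →
    (1 / 4 - ε) * (#S : ℝ) ^ 2 - K * #S ≤ #{p ∈ S ×ˢ S | p.1 ≠ p.2 ∧ ∃ u v t : ℕ,
      0 < u ∧ u ≤ K ∧ 0 < v ∧ v ≤ K ∧ m ∣ v ∧ 0 < t ∧ t ≤ K ∧
      (∀ l : ℕ, l.Prime → l ∣ t → (l : ℤ) ∣ c) ∧ TrueCase (u * p.1) (v * p.2) (c * t)} := by
  obtain ⟨kc, hkc, H⟩ := link_cluster
  obtain ⟨h, hmono, hpos, hdvd⟩ := hb_mod (5 * kc) m hm
  obtain ⟨K₁, hK₁⟩ := es_directed kc hε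
  set K : ℕ := K₁ + ∑ i, h i with hK
  have hhK : ∀ i, h i ≤ K := fun i =>
    (single_le_sum (f := h) (fun _ _ => Nat.zero_le _) (mem_univ i)).trans (Nat.le_add_left _ _)
  refine ⟨K, fun c hc hmc S hS hrough hcop => ?_⟩
  have h1 := hK₁ (fun x y => Link c m K y x) S (by
    intro f hf hfS
    refine H c hc m K h hmono hpos hdvd hhK hmc f (fun i => (hS _ (hfS i)).1) (fun i => (hS _ (hfS i)).2)
      (fun i j hij => hcop _ (hfS i) _ (hfS j) (fun h0 => hij (hf h0))) (fun i l => ?_)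
    by_contra hcon
    obtain ⟨p, hp, h1, h2⟩ := Nat.Prime.not_coprime_iff_dvd.1 hcon
    have h3 := hrough _ (hfS i) p hp h1
    have h4 := Nat.le_of_dvd (hpos l) h2
    have h5 := hhK l
    omega)
  have h2 : (K₁ : ℝ) * #S ≤ K * #S := by
    have : (K₁ : ℝ) ≤ K := by exact_mod_cast Nat.le_add_right _ _
    gcongr
  refine le_trans (by linarith) (h1.trans (le_of_eq ?_))
  rfl

end Pool.Agent.helper85.QC
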