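import Pool.Agent.helper85.QC.HB

/-!
# Counting integers prime to `C` with a prescribed smooth part
-/

namespace Pool.Agent.helper85.QC

open Finset Real Pool.Agent.helper39.MT

/-- if the `P`-part of `b` is prime to `C ∣ P`, so is `b`. -/
lemma coprime_of_cs {P C b : ℕ} (hP : 0 < P) (hCP : C ∣ P) (hb : 0 < b)
    (hm : Nat.Coprime (cs P b) C) : Nat.Coprime b C := by
  by_contra hcon
  obtain ⟨p, hp, h1, h2⟩ := Nat.Prime.not_coprime_iff_dvd.1 hcon
  have h3 := cs_factorization (n := b) hP hb hp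
  rw [if_pos (h2.trans hCP)] at h3
  have h4 := (hp.dvd_iff_one_le_factorization hb.ne').1 h1
  have h5 : p ∣ cs P b := (hp.dvd_iff_one_le_factorization (cs_pos hb).ne').2 (by omega)
  have h6 := Nat.dvd_gcd h5 h2
  rw [hm] at h6
  exact hp.one_lt.ne' (Nat.dvd_one.1 h6)

/-- for `b` prime to `C` the `Y C`-part is the `Y`-part. -/
lemma cs_mul_right {Y C b : ℕ} (hY : 0 < Y) (hC : 0 < C) (hb : 0 < b) (h : Nat.Coprime b C) :
    cs (Y * C) b = cs Y b := by
  refine Nat.eq_of_factorization_eq (cs_pos hb).ne' (cs_pos hb).ne' fun p => ?_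
  by_cases hp : p.Prime
  · rw [cs_factorization (Nat.mul_pos hY hC) hb hp, cs_factorization hY hb hp]
    by_cases h1 : p ∣ Y
    · rw [if_pos h1, if_pos (h1.mul_right _)]
    · rw [if_neg h1]
      split_ifs with h2
      · refine Nat.factorization_eq_zero_of_not_dvd fun h3 => h1 ?_
        rcases (hp.dvd_mul).1 h2 with h4 | h4
        · exact h4
        · have h6 := Nat.dvd_gcd h3 h4
          rw [h] at h6
          exact absurd (Nat.dvd_one.1 h6) hp.one_lt.ne'
      · rfl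
  · rw [Nat.factorization_eq_zero_of_not_prime _ hp, Nat.factorization_eq_zero_of_not_prime _ hp]

/-- The integers in `[1, X]` prime to `C`. -/
def PC (C X : ℕ) : Finset ℕ := {b ∈ Icc 1 X | Nat.Coprime b C}

lemma mem_PC {C X b : ℕ} : b ∈ PC C X ↔ (1 ≤ b ∧ b ≤ X) ∧ Nat.Coprime b C := by
  rw [PC, mem_filter, mem_Icc]

lemma PC_upper {C : ℕ} (hC : 0 < C) (X : ℕ) :
    (#(PC C X) : ℝ) ≤ (Nat.totient C : ℝ) / C * X + Nat.totient C := by
  have h1 : #(PC C X) ≤ #{x ∈ Ico 1 (1 + X) | C.Coprime x} := by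
    refine card_le_card fun b hb => ?_
    rw [mem_PC] at hb
    rw [mem_filter, mem_Ico]
    exact ⟨⟨hb.1.1, by omega⟩, hb.2.symm⟩
  have h2 := h1.trans (Nat.Ico_filter_coprime_le 1 X hC.ne')
  have h3 : (#(PC C X) : ℝ) ≤ Nat.totient C * (((X / C : ℕ) : ℝ) + 1) := by exact_mod_cast h2
  have h4 : ((X / C : ℕ) : ℝ) ≤ (X : ℝ) / C := Nat.cast_div_le
  have h5 : (0 : ℝ) ≤ Nat.totient C := Nat.cast_nonneg _
  calc (#(PC C X) : ℝ) ≤ Nat.totient C * (((X / C : ℕ) : ℝ) + 1) := h3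
    _ ≤ Nat.totient C * ((X : ℝ) / C + 1) := by gcongr
    _ = _ := by ring

/-- the densities of the classes prime to `C` sum to at most `φ(C)/C`. -/
lemma dens_sum_rel {P C : ℕ} (hP : 0 < P) (hC : 0 < C) (hCP : C ∣ P) (M : Finset ℕ)
    (hM : ∀ m ∈ M, 0 < m ∧ cs P m = m ∧ Nat.Coprime m C) :
    ∑ m ∈ M, dens P m ≤ (Nat.totient C : ℝ) / C := by
  classical
  by_contra hcon
  push Not at hcon
  set D := ∑ m ∈ M, dens P m with hD
  set E : ℝ := (Nat.totient C : ℝ) / C with hE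
  obtain ⟨X, hX⟩ := exists_nat_gt ((#M * Nat.totient P + Nat.totient C : ℝ) / (D - E))
  have h1 : ∑ m ∈ M, (dens P m * X - Nat.totient P) ≤ E * X + Nat.totient C := by
    calc ∑ m ∈ M, (dens P m * X - Nat.totient P) ≤ ∑ m ∈ M, (#(CC P m X) : ℝ) :=
          sum_le_sum fun m hm => CC_lower hP (hM m hm).1 (hM m hm).2.1 X
      _ = (#(M.biUnion fun m => CC P m X) : ℝ) := by
          rw [card_biUnion]
          · push_cast; rfl
          · intro m _ m' _ hmm
            rw [Function.onFun, disjoint_left]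
            intro b hb hb'
            rw [mem_CC] at hb hb'
            exact hmm (hb.2.symm.trans hb'.2)
      _ ≤ (#(PC C X) : ℝ) := by
          have : M.biUnion (fun m => CC P m X) ⊆ PC C X := by
            intro b hb
            rw [mem_biUnion] at hb
            obtain ⟨m, hm, hb⟩ := hb
            rw [mem_CC] at hb
            rw [mem_PC]
            refine ⟨hb.1, coprime_of_cs hP hCP hb.1.1 ?_⟩
            rw [hb.2]
            exact (hM m hm).2.2
          exact_mod_cast card_le_card this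
      _ ≤ _ := PC_upper hC X
  rw [sum_sub_distrib, ← sum_mul, sum_const, nsmul_eq_mul, ← hD] at h1
  rw [div_lt_iff₀ (by linarith)] at hX
  nlinarith

/-- multiples of `q`, prime to `C`. -/
lemma PC_mult {C N q : ℕ} (hq : 0 < q) :
    #{b ∈ PC C N | q ∣ b} ≤ #(PC C (N / q)) := by
  refine card_le_card_of_injOn (fun b => b / q) ?_ ?_
  · intro b hb
    rw [mem_coe, mem_filter, mem_PC] at hb
    obtain ⟨⟨⟨hb1, hb2⟩, hb3⟩, ⟨d, rfl⟩⟩ := hb
    have hd : 0 < d := Nat.pos_of_ne_zero (by rintro rfl; simp at hb1)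
    rw [mem_coe, mem_PC]
    simp only [Nat.mul_div_cancel_left _ hq]
    refine ⟨⟨hd, ?_⟩, hb3.coprime_mul_left⟩
    rw [Nat.le_div_iff_mul_le hq, mul_comm]
    exact hb2
  · intro b hb b' hb' h
    rw [mem_coe, mem_filter] at hb hb'
    simp only at h
    rw [← Nat.mul_div_cancel' hb.2, ← Nat.mul_div_cancel' hb'.2, h]

/-- integers with a large smooth part are rare among those prime to `C`. -/
lemma smooth_tail_rel (y : ℕ) {ε : ℝ} (hε : 0 < ε) : ∃ M : ℕ, ∀ C : ℕ, 0 < C → ∀ N : ℕ,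
    (#{b ∈ PC C N | M < cs y.factorial b} : ℝ) ≤
      ε * ((Nat.totient C : ℝ) / C * N) + (y + 1) * Nat.totient C := by
  classical
  obtain ⟨L, hL⟩ := exists_nat_gt ((y + 1 : ℝ) / ε)
  have hL0 : 0 < L := by
    rcases Nat.eq_zero_or_pos L with h | h
    · rw [h] at hL
      have : (0 : ℝ) ≤ (y + 1 : ℝ) / ε := by positivity
      push_cast at hL
      linarith
    · exact h
  refine ⟨L ^ y, fun C hC N => ?_⟩
  set P := y.factorial with hP
  have hP0 : 0 < P := Nat.factorial_pos y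
  -- a large prime power
  have hsub : {b ∈ PC C N | L ^ y < cs P b} ⊆ (range (y + 1)).biUnion fun p =>
      {b ∈ PC C N | ∃ q, L < q ∧ (∀ q' : ℕ, q' = q → q' ∣ b) ∧ p.Prime ∧ ∃ e, q = p ^ e} := by
    intro b hb
    rw [mem_filter, mem_PC] at hb
    obtain ⟨⟨⟨hb1, hb2⟩, hbC⟩, hb3⟩ := hb
    by_contra hcon
    rw [mem_biUnion] at hcon
    push Not at hcon
    have h1 : ∀ p ∈ (cs P b).primeFactors, p ^ (cs P b).factorization p ≤ L := by
      intro p hp
      have hpp := Nat.prime_of_mem_primeFactors hp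
      have hpd := Nat.dvd_of_mem_primeFactors hp
      have hpy : p ≤ y := (hpp.dvd_factorial).1 (cs_prime hpp hpd)
      by_contra hgt
      push Not at hgt
      refine hcon p (mem_range.2 (by omega)) ?_
      rw [mem_filter, mem_PC]
      exact ⟨⟨⟨hb1, hb2⟩, hbC⟩, p ^ (cs P b).factorization p, hgt, fun q' hq' => hq' ▸
        (Nat.ordProj_dvd _ _).trans (cs_dvd P b), hpp, _, rfl⟩
    have h2 : cs P b ≤ L ^ y := by
      have h3 : cs P b = ∏ p ∈ (cs P b).primeFactors, p ^ (cs P b).factorization p := by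
        conv_lhs => rw [← Nat.prod_factorization_pow_eq_self (cs_pos (C := P) hb1).ne']
        rw [Nat.prod_factorization_eq_prod_primeFactors]
      rw [h3]
      calc ∏ p ∈ (cs P b).primeFactors, p ^ (cs P b).factorization p
          ≤ ∏ p ∈ (cs P b).primeFactors, L := prod_le_prod' h1
        _ = L ^ #(cs P b).primeFactors := prod_const _
        _ ≤ L ^ y := by
            refine Nat.pow_le_pow_right hL0 ?_
            have h4 : (cs P b).primeFactors ⊆ Icc 1 y := by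
              intro p hp
              have hpp := Nat.prime_of_mem_primeFactors hp
              have hpd := Nat.dvd_of_mem_primeFactors hp
              exact mem_Icc.2 ⟨hpp.pos, (hpp.dvd_factorial).1 (cs_prime hpp hpd)⟩
            simpa using card_le_card h4
    omega
  have hLr : (0 : ℝ) < L := by exact_mod_cast hL0
  have hphi : (0 : ℝ) ≤ Nat.totient C := Nat.cast_nonneg _
  have hone : ∀ p ∈ range (y + 1),
      (#{b ∈ PC C N | ∃ q, L < q ∧ (∀ q' : ℕ, q' = q → q' ∣ b) ∧ p.Prime ∧ ∃ e, q = p ^ e} : ℝ) ≤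
        (Nat.totient C : ℝ) / C * N / L + Nat.totient C := by
    intro p _
    by_cases hp : p.Prime
    · -- the least power exceeding `L`
      have hex : ∃ e, L < p ^ e := ⟨L, Nat.lt_pow_self hp.one_lt⟩
      set e₀ := Nat.find hex with he₀
      have he₀' : L < p ^ e₀ := Nat.find_spec hex
      have h1 : {b ∈ PC C N | ∃ q, L < q ∧ (∀ q' : ℕ, q' = q → q' ∣ b) ∧ p.Prime ∧ ∃ e, q = p ^ e} ⊆
          {b ∈ PC C N | p ^ e₀ ∣ b} := by
        intro b hb
        rw [mem_filter] at hb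
        obtain ⟨hb1, q, hq, hqb, -, e, rfl⟩ := hb
        rw [mem_filter]
        refine ⟨hb1, ?_⟩
        exact (pow_dvd_pow p (Nat.find_min' hex hq)).trans (hqb _ rfl)
      have h2 := (card_le_card h1).trans (PC_mult (pow_pos hp.pos e₀))
      have h3 : (#{b ∈ PC C N | ∃ q, L < q ∧ (∀ q' : ℕ, q' = q → q' ∣ b) ∧ p.Prime ∧ ∃ e, q = p ^ e} : ℝ)
          ≤ #(PC C (N / p ^ e₀)) := by exact_mod_cast h2
      refine (h3.trans (PC_upper hC _)).trans ?_
      have h4 : (L : ℝ) ≤ ((p ^ e₀ : ℕ) : ℝ) := by exact_mod_cast he₀'.le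
      have h5 : ((N / p ^ e₀ : ℕ) : ℝ) ≤ N / L := by
        refine Nat.cast_div_le.trans ?_
        gcongr
      calc (Nat.totient C : ℝ) / C * ((N / p ^ e₀ : ℕ) : ℝ) + Nat.totient C
          ≤ (Nat.totient C : ℝ) / C * (N / L) + Nat.totient C := by gcongr
        _ = _ := by ring
    · have : {b ∈ PC C N | ∃ q, L < q ∧ (∀ q' : ℕ, q' = q → q' ∣ b) ∧ p.Prime ∧ ∃ e, q = p ^ e} = ∅ := by
        rw [filter_eq_empty_iff]
        rintro b - ⟨q, -, -, h, -⟩
        exact hp h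
      rw [this, card_empty, Nat.cast_zero]
      positivity
  have h1 : (#{b ∈ PC C N | L ^ y < cs P b} : ℝ) ≤ ∑ p ∈ range (y + 1),
      ((Nat.totient C : ℝ) / C * N / L + Nat.totient C) := by
    have h2 := (card_le_card hsub).trans card_biUnion_le
    have h3 : (#{b ∈ PC C N | L ^ y < cs P b} : ℝ) ≤ ∑ p ∈ range (y + 1),
        (#{b ∈ PC C N | ∃ q, L < q ∧ (∀ q' : ℕ, q' = q → q' ∣ b) ∧ p.Prime ∧ ∃ e, q = p ^ e} : ℝ) := by
      exact_mod_cast h2
    exact h3.trans (sum_le_sum hone)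
  refine h1.trans ?_
  rw [sum_const, card_range, nsmul_eq_mul]
  have h2 : (y + 1 : ℝ) ≤ ε * L := by
    rw [div_lt_iff₀ hε] at hL
    linarith
  push_cast
  rw [mul_add]
  refine add_le_add ?_ le_rfl
  rw [mul_div_assoc', div_le_iff₀ hLr]
  have : (0 : ℝ) ≤ (Nat.totient C : ℝ) / C * N := by positivity
  nlinarith

/-- integers with a large value of `sg` are rare in a class prime to `C`. -/
lemma sg_rare_rel {y m P C : ℕ} (hy : 0 < y) (hm : 0 < m) (hC : 0 < C) (hP : P = y.factorial * C)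
    (hmC : Nat.Coprime m C) {η : ℝ} (N : ℕ) :
    (#{b ∈ CC P m N | η < sg y b} : ℝ) * η ≤
      dens P m * N / y + Nat.totient P * (1 + Real.log N) := by
  classical
  have hP0 : 0 < P := by rw [hP]; exact Nat.mul_pos (Nat.factorial_pos y) hC
  have hCP : C ∣ P := by rw [hP]; exact Dvd.intro_left _ rfl
  have hd0 := dens_pos hP0 hm
  have h1 : (#{b ∈ CC P m N | η < sg y b} : ℝ) * η ≤ ∑ b ∈ CC P m N, sg y b := by
    calc (#{b ∈ CC P m N | η < sg y b} : ℝ) * η = ∑ b ∈ CC P m N with η < sg y b, η := by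
          rw [sum_const, nsmul_eq_mul]
      _ ≤ ∑ b ∈ CC P m N with η < sg y b, sg y b := by
          refine sum_le_sum fun b hb => ?_
          exact (mem_filter.1 hb).2.le
      _ ≤ ∑ b ∈ CC P m N, sg y b := by
          refine sum_le_sum_of_subset_of_nonneg (filter_subset _ _) fun b _ _ => ?_
          exact sum_nonneg fun p _ => by positivity
  refine h1.trans ?_
  -- exchange the sums
  have h2 : ∑ b ∈ CC P m N, sg y b ≤ ∑ p ∈ Ioc y N with p.Prime ∧ ¬ p ∣ P,
      (1 / (p : ℝ)) * #{b ∈ CC P m N | p ∣ b} := by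
    have h3 : ∀ b ∈ CC P m N, sg y b ≤
        ∑ p ∈ Ioc y N with p.Prime ∧ ¬ p ∣ P, (if p ∣ b then 1 / (p : ℝ) else 0) := by
      intro b hb
      rw [mem_CC] at hb
      rw [← sum_filter, sg]
      refine sum_le_sum_of_subset_of_nonneg ?_ fun p _ _ => by positivity
      intro p hp
      rw [mem_filter, Nat.mem_primeFactors] at hp
      rw [mem_filter, mem_filter, mem_Ioc]
      refine ⟨⟨⟨hp.2, ?_⟩, hp.1.1, ?_⟩, hp.1.2.1⟩
      · exact (Nat.le_of_dvd hb.1.1 hp.1.2.1).trans hb.1.2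
      · intro hpP
        rw [hP] at hpP
        rcases (hp.1.1.dvd_mul).1 hpP with h | h
        · have := (hp.1.1.dvd_factorial).1 h
          omega
        · have hbC : Nat.Coprime b C := coprime_of_cs hP0 hCP hb.1.1 (by rw [hb.2]; exact hmC)
          have h6 := Nat.dvd_gcd hp.1.2.1 h
          rw [hbC] at h6
          exact absurd (Nat.dvd_one.1 h6) hp.1.1.one_lt.ne'
    refine (sum_le_sum h3).trans ?_
    rw [sum_comm]
    refine sum_le_sum fun p _ => ?_
    rw [← sum_filter, sum_const, nsmul_eq_mul, mul_comm]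
  refine h2.trans ?_
  have h3 : ∀ p ∈ {p ∈ Ioc y N | p.Prime ∧ ¬ p ∣ P}, (1 / (p : ℝ)) * #{b ∈ CC P m N | p ∣ b} ≤
      dens P m * N * (1 / (p : ℝ) ^ 2) + Nat.totient P * (1 / (p : ℝ)) := by
    intro p hp
    rw [mem_filter, mem_Ioc] at hp
    have h4 := (CC_mult (m := m) (N := N) hP0 hp.2.1 hp.2.2)
    have h5 : (#{b ∈ CC P m N | p ∣ b} : ℝ) ≤ #(CC P m (N / p)) := by exact_mod_cast h4
    have h6 := h5.trans (CC_upper hP0 hm (N / p))
    have hp0 : (0 : ℝ) < p := by exact_mod_cast hp.2.1.pos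
    have h7 : ((N / p : ℕ) : ℝ) ≤ N / p := Nat.cast_div_le
    have h8 : (#{b ∈ CC P m N | p ∣ b} : ℝ) ≤ dens P m * (N / p) + Nat.totient P := by
      refine h6.trans ?_
      gcongr
    calc (1 / (p : ℝ)) * #{b ∈ CC P m N | p ∣ b} ≤ (1 / (p : ℝ)) * (dens P m * (N / p) + Nat.totient P) := by
          gcongr
      _ = _ := by
          field_simp
  refine (sum_le_sum h3).trans ?_
  rw [sum_add_distrib, ← mul_sum, ← mul_sum]
  have h4 : ∑ p ∈ Ioc y N with p.Prime ∧ ¬ p ∣ P, 1 / (p : ℝ) ^ 2 ≤ 1 / (y : ℝ) := by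
    refine le_trans (sum_le_sum_of_subset_of_nonneg (filter_subset _ _) fun p _ _ => by positivity)
      (sum_inv_sq_tail y N hy)
  have h5 : ∑ p ∈ Ioc y N with p.Prime ∧ ¬ p ∣ P, 1 / (p : ℝ) ≤ 1 + Real.log N := by
    refine le_trans (sum_le_sum_of_subset_of_nonneg ?_ fun p _ _ => by positivity) (sum_inv_le_log N)
    intro p hp
    rw [mem_filter, mem_Ioc] at hp
    exact mem_Icc.2 ⟨hp.2.1.pos, hp.1.2⟩
  have h6 : (0 : ℝ) ≤ Nat.totient P := Nat.cast_nonneg _
  calc dens P m * N * ∑ p ∈ Ioc y N with p.Prime ∧ ¬ p ∣ P, 1 / (p : ℝ) ^ 2 +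
        Nat.totient P * ∑ p ∈ Ioc y N with p.Prime ∧ ¬ p ∣ P, 1 / (p : ℝ)
      ≤ dens P m * N * (1 / (y : ℝ)) + Nat.totient P * (1 + Real.log N) := by gcongr
    _ = _ := by ring

end Pool.Agent.helper85.QC
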