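import Pool.Agent.helper85.QC.Rel
import Pool.Agent.helper85.QC.Core

/-!
# Selecting unlinked elements of dense sets
-/

namespace Pool.Agent.helper85.QC

open Finset Real Pool.Agent.helper39.MT Pool.Agent.helper85.FC

lemma card_primeFactors_le_log {z : ℕ} (hz : 0 < z) : (#z.primeFactors : ℝ) ≤ 2 * Real.log z := by
  have h1 : 2 ^ #z.primeFactors ≤ z := by
    calc 2 ^ #z.primeFactors = ∏ _p ∈ z.primeFactors, 2 := by rw [prod_const]
      _ ≤ ∏ p ∈ z.primeFactors, p := prod_le_prod' fun p hp => (Nat.prime_of_mem_primeFactors hp).two_le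
      _ ≤ z := Nat.le_of_dvd hz (Nat.prod_primeFactors_dvd z)
  have h2 : (2 : ℝ) ^ #z.primeFactors ≤ z := by exact_mod_cast h1
  have h3 := Real.log_le_log (by positivity) h2
  rw [Real.log_pow] at h3
  have h4 := Real.log_two_gt_d9
  have h5 : (0 : ℝ) ≤ #z.primeFactors := Nat.cast_nonneg _
  nlinarith

/-- few elements of a class have a common prime factor with `z`. -/
lemma noncop_count {y m P C : ℕ} (hm : 0 < m) (hC : 0 < C) (hP : P = y.factorial * C)
    {z : ℕ} (hz : 0 < z) (N : ℕ) :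
    (#{b ∈ CC P m N | ¬ Nat.Coprime (cf P b) z} : ℝ) ≤
      dens P m * N * sg y z + Nat.totient P * (2 * Real.log z) := by
  classical
  have hP0 : 0 < P := by rw [hP]; exact Nat.mul_pos (Nat.factorial_pos y) hC
  have hd0 := dens_pos hP0 hm
  have hsub : {b ∈ CC P m N | ¬ Nat.Coprime (cf P b) z} ⊆
      ({l ∈ z.primeFactors | y < l ∧ ¬ l ∣ P}).biUnion fun l => {b ∈ CC P m N | l ∣ b} := by
    intro b hb
    rw [mem_filter, mem_CC] at hb
    obtain ⟨l, hl, h1, h2⟩ := Nat.Prime.not_coprime_iff_dvd.1 hb.2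
    have hlP : ¬ l ∣ P := by
      intro h
      have h3 := Nat.dvd_gcd h1 h
      rw [cf_coprime hP0 hb.1.1.1] at h3
      exact hl.one_lt.ne' (Nat.dvd_one.1 h3)
    rw [mem_biUnion]
    refine ⟨l, ?_, ?_⟩
    · rw [mem_filter, Nat.mem_primeFactors]
      refine ⟨⟨hl, h2, hz.ne'⟩, ?_, hlP⟩
      by_contra hle
      push Not at hle
      exact hlP (by rw [hP]; exact (hl.dvd_factorial.2 hle).mul_right C)
    · rw [mem_filter, mem_CC]
      exact ⟨hb.1, h1.trans (cf_dvd P b)⟩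
  have h1 : (#{b ∈ CC P m N | ¬ Nat.Coprime (cf P b) z} : ℝ) ≤
      ∑ l ∈ z.primeFactors with y < l ∧ ¬ l ∣ P, (#{b ∈ CC P m N | l ∣ b} : ℝ) := by
    have h2 := (card_le_card hsub).trans card_biUnion_le
    exact_mod_cast h2
  refine h1.trans ?_
  have h2 : ∀ l ∈ {l ∈ z.primeFactors | y < l ∧ ¬ l ∣ P}, (#{b ∈ CC P m N | l ∣ b} : ℝ) ≤
      dens P m * N * (1 / (l : ℝ)) + Nat.totient P := by
    intro l hl
    rw [mem_filter] at hl
    have hlp := Nat.prime_of_mem_primeFactors hl.1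
    have h4 := (CC_mult (m := m) (N := N) hP0 hlp hl.2.2)
    have h5 : (#{b ∈ CC P m N | l ∣ b} : ℝ) ≤ #(CC P m (N / l)) := by exact_mod_cast h4
    refine (h5.trans (CC_upper hP0 hm (N / l))).trans ?_
    have h7 : ((N / l : ℕ) : ℝ) ≤ N / l := Nat.cast_div_le
    calc dens P m * ((N / l : ℕ) : ℝ) + Nat.totient P ≤ dens P m * (N / l) + Nat.totient P := by gcongr
      _ = _ := by ring
  refine (sum_le_sum h2).trans ?_
  rw [sum_add_distrib, ← mul_sum, sum_const, nsmul_eq_mul]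
  have h3 : ∑ l ∈ z.primeFactors with y < l ∧ ¬ l ∣ P, 1 / (l : ℝ) ≤ sg y z := by
    unfold sg
    refine sum_le_sum_of_subset_of_nonneg ?_ fun p _ _ => by positivity
    intro l hl
    rw [mem_filter] at hl ⊢
    exact ⟨hl.1, hl.2.1⟩
  have h4 : (#{l ∈ z.primeFactors | y < l ∧ ¬ l ∣ P} : ℝ) ≤ 2 * Real.log z := by
    refine le_trans ?_ (card_primeFactors_le_log hz)
    exact_mod_cast card_le_card (filter_subset _ _)
  have h5 : (0 : ℝ) ≤ Nat.totient P := Nat.cast_nonneg _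
  calc dens P m * N * ∑ l ∈ z.primeFactors with y < l ∧ ¬ l ∣ P, 1 / (l : ℝ) +
        #{l ∈ z.primeFactors | y < l ∧ ¬ l ∣ P} * (Nat.totient P : ℝ)
      ≤ dens P m * N * sg y z + (2 * Real.log z) * Nat.totient P := by gcongr
    _ = _ := by ring

/-- the number of elements lost in one step of the selection. -/
noncomputable def loss (k y m P D : ℕ) (η δ : ℝ) (N : ℕ) : ℝ :=
  (dens P m * N * sg y D + Nat.totient P * (2 * Real.log D)) +
  (dens P m * N / y + Nat.totient P * (1 + Real.log N)) / η +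
  k * (dens P m * N * η + Nat.totient P * (2 * Real.log N)) + k * (δ * (dens P m * N))

/-- one step of the selection. -/
lemma select_step {c : ℤ} {k y m P C K D : ℕ} (hy : 0 < y) (hm : 0 < m) (hC : 0 < C)
    (hP : P = y.factorial * C) (hmC : Nat.Coprime m C) (hD : 0 < D) {η δ : ℝ} (hη : 0 < η)
    (hδ : 0 ≤ δ) {N : ℕ} (hN : 0 < N) {S : Finset ℕ} (hS : S ⊆ CC P m N) {r : ℕ} (hr : r ≤ k)
    {b : ℕ → ℕ} (hb : ∀ i < r, 0 < b i ∧ b i ≤ N ∧ sg y (b i) ≤ η)
    (hl : ∀ i < r, (Set.ncard {x : ℕ | x ∈ S ∧ Link c m K (cf P (b i)) (cf P x)} : ℝ) ≤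
      δ * (dens P m * N))
    (hbig : loss k y m P D η δ N < #S) :
    ∃ x ∈ S, sg y x ≤ η ∧ Nat.Coprime (cf P x) D ∧ ∀ i < r, Nat.Coprime (cf P x) (b i) ∧
      ¬ Link c m K (cf P (b i)) (cf P x) := by
  classical
  by_contra hcon
  push Not at hcon
  have hP0 : 0 < P := by rw [hP]; exact Nat.mul_pos (Nat.factorial_pos y) hC
  have hd0 := dens_pos hP0 hm
  have hsub : S ⊆ (({x ∈ CC P m N | ¬ Nat.Coprime (cf P x) D} ∪ {x ∈ CC P m N | η < sg y x}) ∪
      (range r).biUnion fun i => {x ∈ CC P m N | ¬ Nat.Coprime (cf P x) (b i)}) ∪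
      (range r).biUnion fun i => {x ∈ S | Link c m K (cf P (b i)) (cf P x)} := by
    intro x hx
    rw [mem_union, mem_union, mem_union, mem_filter, mem_filter, mem_biUnion, mem_biUnion]
    by_cases h1 : Nat.Coprime (cf P x) D
    · by_cases h2 : sg y x ≤ η
      · obtain ⟨i, hi, h3⟩ := hcon x hx h2 h1
        by_cases h4 : Nat.Coprime (cf P x) (b i)
        · exact Or.inr ⟨i, mem_range.2 hi, mem_filter.2 ⟨hx, h3 h4⟩⟩
        · exact Or.inl (Or.inr ⟨i, mem_range.2 hi, mem_filter.2 ⟨hS hx, h4⟩⟩)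
      · push Not at h2
        exact Or.inl (Or.inl (Or.inr ⟨hS hx, h2⟩))
    · exact Or.inl (Or.inl (Or.inl ⟨hS hx, h1⟩))
  have h1 := card_le_card hsub
  have h2 := h1.trans ((card_union_le _ _).trans (Nat.add_le_add ((card_union_le _ _).trans
    (Nat.add_le_add (card_union_le _ _) card_biUnion_le)) card_biUnion_le))
  have h3 : (#S : ℝ) ≤ (#{x ∈ CC P m N | ¬ Nat.Coprime (cf P x) D} + #{x ∈ CC P m N | η < sg y x} +
      ∑ i ∈ range r, (#{x ∈ CC P m N | ¬ Nat.Coprime (cf P x) (b i)} : ℝ)) +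
      ∑ i ∈ range r, (#{x ∈ S | Link c m K (cf P (b i)) (cf P x)} : ℝ) := by exact_mod_cast h2
  have h4 := noncop_count hm hC hP hD N (m := m)
  have h5 : (#{x ∈ CC P m N | η < sg y x} : ℝ) ≤
      (dens P m * N / y + Nat.totient P * (1 + Real.log N)) / η := by
    rw [le_div_iff₀ hη]
    exact sg_rare_rel hy hm hC hP hmC N
  have hlogN : (0 : ℝ) ≤ Real.log N := Real.log_natCast_nonneg N
  have hphi : (0 : ℝ) ≤ Nat.totient P := Nat.cast_nonneg _
  have hrk : (r : ℝ) ≤ k := by exact_mod_cast hr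
  have h6 : ∑ i ∈ range r, (#{x ∈ CC P m N | ¬ Nat.Coprime (cf P x) (b i)} : ℝ) ≤
      k * (dens P m * N * η + Nat.totient P * (2 * Real.log N)) := by
    calc ∑ i ∈ range r, (#{x ∈ CC P m N | ¬ Nat.Coprime (cf P x) (b i)} : ℝ)
        ≤ ∑ i ∈ range r, (dens P m * N * η + Nat.totient P * (2 * Real.log N)) := by
          refine sum_le_sum fun i hi => ?_
          rw [mem_range] at hi
          obtain ⟨hb1, hb2, hb3⟩ := hb i hi
          refine (noncop_count hm hC hP hb1 N).trans ?_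
          have h7 : Real.log (b i) ≤ Real.log N :=
            Real.log_le_log (by exact_mod_cast hb1) (by exact_mod_cast hb2)
          gcongr
      _ = r * (dens P m * N * η + Nat.totient P * (2 * Real.log N)) := by
          rw [sum_const, card_range, nsmul_eq_mul]
      _ ≤ _ := by gcongr
  have h7 : ∑ i ∈ range r, (#{x ∈ S | Link c m K (cf P (b i)) (cf P x)} : ℝ) ≤
      k * (δ * (dens P m * N)) := by
    calc ∑ i ∈ range r, (#{x ∈ S | Link c m K (cf P (b i)) (cf P x)} : ℝ)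
        ≤ ∑ i ∈ range r, (δ * (dens P m * N)) := by
          refine sum_le_sum fun i hi => ?_
          rw [mem_range] at hi
          refine le_trans ?_ (hl i hi)
          rw [← Set.ncard_coe_finset]
          refine le_of_eq ?_
          congr 2
          ext x
          simp
      _ = r * (δ * (dens P m * N)) := by rw [sum_const, card_range, nsmul_eq_mul]
      _ ≤ _ := by gcongr
  unfold loss at hbig
  linarith

/-- **Linked elements in dense subsets of a class.** -/
theorem class_links {k : ℕ} (H : ∀ c : ℤ, c ≠ 0 → ∀ (m K : ℕ) (h : Fin k → ℕ), StrictMono h →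
    (∀ i, 0 < h i) → (∀ i j, i < j → (h j - h i) ∣ h i ∧ m ∣ h i / (h j - h i)) →
    (∀ i, h i ≤ K) → IsCoprime (m : ℤ) c → ∀ A : Fin k → ℕ, (∀ i, 0 < A i) →
    (∀ i, IsCoprime (A i : ℤ) c) → (∀ i j, i ≠ j → Nat.Coprime (A i) (A j)) →
    (∀ i l, Nat.Coprime (A i) (h l)) → ∃ i j, i < j ∧ Link c m K (A i) (A j))
    {c : ℤ} (hc : c ≠ 0) {y m P K : ℕ} (hy : 0 < y) (hm : 0 < m)
    (hP : P = y.factorial * c.natAbs) (hmC : Nat.Coprime m c.natAbs)
    {h : Fin k → ℕ} (hmono : StrictMono h) (hpos : ∀ i, 0 < h i)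
    (hdvd : ∀ i j, i < j → (h j - h i) ∣ h i ∧ m ∣ h i / (h j - h i)) (hK : ∀ i, h i ≤ K)
    {η δ : ℝ} (hη : 0 < η) (hδ : 0 ≤ δ) {N : ℕ → ℕ} (hN0 : 0 < N 0) (hN : Monotone N)
    {S : ℕ → Finset ℕ} (hS : ∀ j < k, S j ⊆ CC P m (N j))
    (hbig : ∀ j < k, loss k y m P (∏ i, h i) η δ (N j) < #(S j)) :
    ∃ i j, i < j ∧ j < k ∧ ∃ b ∈ S i,
      δ * (dens P m * N j) < Set.ncard {x : ℕ | x ∈ S j ∧ Link c m K (cf P b) (cf P x)} := by
  classical
  have hC : 0 < c.natAbs := Int.natAbs_pos.2 hc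
  have hP0 : 0 < P := by rw [hP]; exact Nat.mul_pos (Nat.factorial_pos y) hC
  have hD : 0 < ∏ i, h i := prod_pos fun i _ => hpos i
  by_contra hcon
  push Not at hcon
  have hsel : ∀ r ≤ k, ∃ b : ℕ → ℕ, (∀ i < r, b i ∈ S i ∧ sg y (b i) ≤ η ∧
      Nat.Coprime (cf P (b i)) (∏ i, h i)) ∧ ∀ i j, i < j → j < r →
      Nat.Coprime (cf P (b j)) (b i) ∧ ¬ Link c m K (cf P (b i)) (cf P (b j)) := by
    intro r
    induction r with
    | zero => intro _; exact ⟨fun _ => 0, fun i hi => absurd hi (by omega), fun i j _ hj => absurd hj (by omega)⟩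
    | succ r ih =>
      intro hr
      obtain ⟨b, hb1, hb2⟩ := ih (by omega)
      have hNr : 0 < N r := lt_of_lt_of_le hN0 (hN (Nat.zero_le r))
      obtain ⟨x, hxS, hx1, hx2, hx3⟩ := select_step (c := c) (K := K) (r := r) (b := b) hy hm hC hP hmC hD hη hδ hNr
        (hS r (by omega)) (by omega : r ≤ k) (by
          intro i hi
          have h1 := hS i (by omega) (hb1 i hi).1
          rw [mem_CC] at h1
          exact ⟨h1.1.1, h1.1.2.trans (hN hi.le), (hb1 i hi).2.1⟩)
        (fun i hi => hcon i r hi (by omega) (b i) (hb1 i hi).1) (hbig r (by omega))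
      refine ⟨Function.update b r x, ?_, ?_⟩
      · intro i hi
        by_cases hir : i = r
        · subst hir
          rw [Function.update_self]
          exact ⟨hxS, hx1, hx2⟩
        · rw [Function.update_of_ne hir]
          exact hb1 i (by omega)
      · intro i j hij hj
        have hir : i ≠ r := by omega
        rw [Function.update_of_ne hir]
        by_cases hjr : j = r
        · subst hjr
          rw [Function.update_self]
          exact hx3 i hij
        · rw [Function.update_of_ne hjr]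
          exact hb2 i j hij (by omega)
  obtain ⟨b, hb1, hb2⟩ := hsel k le_rfl
  have hCC : ∀ i : Fin k, (1 ≤ b i ∧ b i ≤ N i) ∧ cs P (b i) = m := fun i =>
    mem_CC.1 (hS i i.2 (hb1 i i.2).1)
  have hcopC : ∀ i : Fin k, Nat.Coprime (cf P (b i)) P := fun i => cf_coprime hP0 (hCC i).1.1
  have hZ : ∀ z : ℕ, Nat.Coprime z c.natAbs → IsCoprime (z : ℤ) c := by
    intro z hz
    rw [Int.isCoprime_iff_gcd_eq_one, Int.gcd, Int.natAbs_natCast]
    exact hz
  obtain ⟨i, j, hij, hl⟩ := H c hc m K h hmono hpos hdvd hK (hZ m hmC) (fun i => cf P (b i))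
    (fun i => cf_pos (hCC i).1.1)
    (fun i => hZ _ ((hcopC i).coprime_dvd_right (by rw [hP]; exact Dvd.intro_left _ rfl)))
    (by
      have key : ∀ i j : Fin k, i < j → Nat.Coprime (cf P (b i)) (cf P (b j)) := by
        intro i j hij
        exact ((hb2 i j hij j.2).1.symm).coprime_dvd_left (cf_dvd P (b i))
      intro i j hij
      rcases lt_or_gt_of_ne hij with h1 | h1
      · exact key i j h1
      · exact (key j i h1).symm)
    (fun i l => ((hb1 i i.2).2.2).coprime_dvd_right (dvd_prod_of_mem h (mem_univ l)))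
  exact (hb2 i j hij j.2).2 hl

end Pool.Agent.helper85.QC
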